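import Mathlib

/-!
# DHJ-Defs: the density Hales-Jewett theorem, definitions

`HJ α`: every subset of `ι → α` of density at least `δ` contains a combinatorial line if `ι` is large.
`MHJ α`: the same for subspaces of dimension `d`. The induction goes from the alphabet `α` to `Option α`
(the new letter is `none`).
-/

set_option autoImplicit false

open Finset Combinatorics

namespace Pool.Agent.Lib.DHJ

/-- the density Hales-Jewett statement for the alphabet `α` -/
def HJ (α : Type) [Fintype α] : Prop :=
  ∀ δ : ℝ, 0 < δ → ∃ N : ℕ, ∀ (ι : Type) [Fintype ι] [DecidableEq ι], N ≤ Fintype.card ι →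
    ∀ A : Finset (ι → α), δ * (Fintype.card α : ℝ) ^ Fintype.card ι ≤ (A.card : ℝ) →
      ∃ l : Line α ι, ∀ x : α, l x ∈ A

/-- the multidimensional density Hales-Jewett statement for the alphabet `α` -/
def MHJ (α : Type) [Fintype α] : Prop :=
  ∀ (d : ℕ) (δ : ℝ), 0 < δ → ∃ N : ℕ, ∀ (ι : Type) [Fintype ι] [DecidableEq ι],
    N ≤ Fintype.card ι → ∀ A : Finset (ι → α),
      δ * (Fintype.card α : ℝ) ^ Fintype.card ι ≤ (A.card : ℝ) →
      ∃ V : Subspace (Fin d) α ι, ∀ x, V x ∈ A

/-- `A` contains no combinatorial line -/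
def LineFree {α ι : Type} (A : Finset (ι → α)) : Prop := ¬ ∃ l : Line α ι, ∀ x : α, l x ∈ A

/-- replace the letter `none` by `some a` -/
def rep {α ι : Type} (a : α) (x : ι → Option α) : ι → Option α := fun i => some ((x i).getD a)

/-- `D` does not distinguish between the letters `none` and `some a` -/
def Ins {α ι : Type} (a : α) (D : Finset (ι → Option α)) : Prop := ∀ x, x ∈ D ↔ rep a x ∈ D

/-- a subspace over `α` as a subspace over `Option α` -/
def lift {η α ι : Type} (W : Subspace η α ι) : Subspace η (Option α) ι :=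
  ⟨fun i => (W.idxFun i).map some id, fun e => by
    obtain ⟨i, hi⟩ := W.proper e
    exact ⟨i, by rw [hi]; rfl⟩⟩

/-- composition of subspaces -/
def comp {ζ η α ι : Type} (V : Subspace η α ι) (U : Subspace ζ α η) : Subspace ζ α ι :=
  ⟨fun i => (V.idxFun i).elim Sum.inl (fun e => U.idxFun e), fun f => by
    obtain ⟨e, he⟩ := U.proper f
    obtain ⟨i, hi⟩ := V.proper e
    exact ⟨i, by rw [hi]; exact he⟩⟩

/-- a line of a subspace as a line -/
def lineComp {η α ι : Type} (V : Subspace η α ι) (l : Line α η) : Line α ι :=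
  ⟨fun i => (V.idxFun i).elim some (fun e => l.idxFun e), by
    obtain ⟨e, he⟩ := l.proper
    obtain ⟨i, hi⟩ := V.proper e
    exact ⟨i, by rw [hi]; exact he⟩⟩

/-- up to a proportion `ε` of all words, `D` is a disjoint union of `d`-dimensional subspaces -/
def Tiled {β ι : Type} [Fintype β] [Fintype ι] (d : ℕ) (ε : ℝ) (D : Finset (ι → β)) : Prop :=
  ∃ 𝒱 : Finset (Finset (ι → β)),
    (∀ S ∈ 𝒱, ∃ V : Subspace (Fin d) β ι, ∀ x, x ∈ S ↔ ∃ z, V z = x) ∧
    (∀ S ∈ 𝒱, S ⊆ D) ∧ (𝒱 : Set (Finset (ι → β))).PairwiseDisjoint id ∧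
    (D.card : ℝ) ≤ ∑ S ∈ 𝒱, (S.card : ℝ) + ε * (Fintype.card β : ℝ) ^ Fintype.card ι

section basic

variable {α β ζ η ι κ : Type}

@[simp] theorem rep_apply (a : α) (x : ι → Option α) (i : ι) : rep a x i = some ((x i).getD a) := rfl

@[simp] theorem rep_rep (a b : α) (x : ι → Option α) : rep a (rep b x) = rep b x := by
  funext i; simp [rep]

theorem rep_of_ne_none (a : α) (x : ι → Option α) (h : ∀ i, x i ≠ none) : rep a x = x := by
  funext i
  rcases hx : x i with _ | b
  · exact absurd hx (h i)
  · simp [rep, hx]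

theorem lift_apply (W : Subspace η α ι) (z : η → Option α) (i : ι) :
    lift W z i = Sum.elim some z (W.idxFun i) := by
  simp only [lift, Subspace.apply_def]
  rcases W.idxFun i with a | e <;> rfl

theorem lift_some (W : Subspace η α ι) (u : η → α) :
    lift W (fun e => some (u e)) = fun i => some (W u i) := by
  funext i
  rw [lift_apply, Subspace.apply_def]
  rcases W.idxFun i with a | e <;> rfl

theorem rep_lift (a : α) (W : Subspace η α ι) (z : η → Option α) :
    rep a (lift W z) = lift W (rep a z) := by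
  funext i
  rw [rep_apply, lift_apply, lift_apply]
  rcases W.idxFun i with b | e <;> rfl

theorem lift_eq_none (W : Subspace η α ι) (z : η → Option α) (h : ∃ e, z e = none) :
    ∃ i, lift W z i = none := by
  obtain ⟨e, he⟩ := h
  obtain ⟨i, hi⟩ := W.proper e
  exact ⟨i, by rw [lift_apply, hi]; exact he⟩

theorem comp_apply (V : Subspace η α ι) (U : Subspace ζ α η) (x : ζ → α) :
    comp V U x = V (U x) := by
  funext i
  simp only [comp, Subspace.apply_def]
  rcases V.idxFun i with a | e <;> rfl

theorem lineComp_apply (V : Subspace η α ι) (l : Line α η) (x : α) :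
    lineComp V l x = V (l x) := by
  funext i
  simp only [lineComp, Subspace.apply_def, Line.apply_def]
  rcases V.idxFun i with a | e <;> rfl

theorem sub_injective (V : Subspace η α ι) : Function.Injective (fun z : η → α => V z) := by
  intro z z' h
  funext e
  obtain ⟨i, hi⟩ := V.proper e
  have h1 := congrFun h i
  simpa [Subspace.apply_def, hi] using h1

/-- the points of a subspace in a line-free set form a line-free set -/
theorem LineFree.pull [Fintype η] [Fintype α] [DecidableEq η] {A : Finset (ι → α)} (hA : LineFree A)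
    (V : Subspace η α ι) [DecidablePred fun z : η → α => V z ∈ A] :
    LineFree (univ.filter fun z : η → α => V z ∈ A) := by
  rintro ⟨l, hl⟩
  refine hA ⟨lineComp V l, fun x => ?_⟩
  rw [lineComp_apply]
  exact (mem_filter.mp (hl x)).2

/-- the subspace `{x} × (κ → α)` of `(ι ⊕ κ) → α` -/
def fibR (x : ι → α) : Subspace κ α (ι ⊕ κ) :=
  ⟨Sum.elim (fun i => Sum.inl (x i)) (fun j => Sum.inr j), fun j => ⟨Sum.inr j, rfl⟩⟩

theorem fibR_apply (x : ι → α) (y : κ → α) : fibR x y = Sum.elim x y := by
  funext i
  rcases i with i | j <;> rfl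

/-- the subspace `V × {y}` of `(ι ⊕ κ) → α` -/
def fibL (V : Subspace η α ι) (y : κ → α) : Subspace η α (ι ⊕ κ) :=
  ⟨Sum.elim (fun i => V.idxFun i) (fun j => Sum.inl (y j)), fun e => by
    obtain ⟨i, hi⟩ := V.proper e
    exact ⟨Sum.inl i, hi⟩⟩

theorem fibL_apply (V : Subspace η α ι) (y : κ → α) (z : η → α) :
    fibL V y z = Sum.elim (V z) y := by
  funext i
  rcases i with i | j <;> rfl

/-- transport of a subspace along a bijection of the index set -/
def reSub (e : ι ≃ κ) (V : Subspace η α ι) : Subspace η α κ :=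
  ⟨fun j => V.idxFun (e.symm j), fun f => by
    obtain ⟨i, hi⟩ := V.proper f
    exact ⟨e i, by simpa using hi⟩⟩

theorem reSub_apply (e : ι ≃ κ) (V : Subspace η α ι) (z : η → α) :
    reSub e V z = fun j => V z (e.symm j) := by
  funext j; rfl

/-- transport of a line along a bijection of the index set -/
def reLine (e : ι ≃ κ) (l : Line α ι) : Line α κ :=
  ⟨fun j => l.idxFun (e.symm j), by
    obtain ⟨i, hi⟩ := l.proper
    exact ⟨e i, by simpa using hi⟩⟩

theorem reLine_apply (e : ι ≃ κ) (l : Line α ι) (x : α) :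
    reLine e l x = fun j => l x (e.symm j) := by
  funext j; rfl

end basic

end Pool.Agent.Lib.DHJ
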