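import Pool.Agent.Lib.DHJ.Ultra

/-!
# DHJ-Words: the infinite theorem on variable words (Carlson), finite form

`sb o L` replaces the letter `none` in `L` by `o`, `cat w z` is the concatenation of the `w e` with `none` replaced by
`z e`.

PROOF. `T := FreeMonoid (Option α)`, `S :=` words without `none`, `I :=` words with a letter `none`,
`φ a := FreeMonoid.map (fun o => some (o.getD a))`. Take `p, q` from `exists_pair`. As `q` is an ultrafilter one of
`c`, `¬ c` holds `q`-eventually; call it `C`. STATEMENT by induction on `m`: for all `C, P` with `∀ᶠ x in q, C x` and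
`∀ᶠ x in p, P x` there is `w : Fin (m + 1) → List (Option α)`, `none ∈ w e` for all `e`, with `C (cat w z)` for all `z` with
some `z e = none` and `P (cat w z)` for all `z` without `none` (`z e = some (u e)`).
`m = 0`: choose `w0` with `C w0`, `w0 ∈ I`, `P (φ a w0)` for all `a` (finitely many conditions, `Filter.eventually_all`,
`.exists`); `cat w z = w0` for `z 0 = none`, `= φ a w0` for `z 0 = some a`.
Step: the following conditions on `w0` hold `q`-eventually: `w0 ∈ I`; `C w0`; for all `a`: `P (φ a w0)`;
`∀ᶠ y in q, C (w0 * y)` (q q = q); for all `a`: `∀ᶠ y in q, C (φ a w0 * y)` (p q = q and the last property of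
`exists_pair`); `∀ᶠ y in p, C (w0 * y)` (q p = q); for all `a`: `∀ᶠ y in p, P (φ a w0 * y)` (p p = p). Choose one `w0`.
Apply the induction hypothesis to `C' y := C (w0 * y) ∧ ∀ a, C (φ a w0 * y)` and
`P' y := C (w0 * y) ∧ ∀ a, P (φ a w0 * y)`: it gives `w`; the new family is `Fin.cons w0 w`
(`cat (Fin.cons w0 w) z = sb (z 0) w0 ++ cat w (Fin.tail z)`, `List.ofFn_succ`). Cases: `z 0 = none`: both kinds of the
rest give `C`; `z 0 = some a`, the rest has `none`: `C (φ a w0 * y)` from `C'`; no `none` at all: `P` from `P'`.
-/

set_option autoImplicit false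

open Filter

namespace Pool.Agent.Lib.DHJ

/-- replace the letter `none` by `o` -/
def sb {α : Type} (o : Option α) (L : List (Option α)) : List (Option α) :=
  L.map fun x => x.elim o some

/-- concatenation of the words `w e` with `none` replaced by `z e` -/
def cat {α : Type} {m : ℕ} (w : Fin m → List (Option α)) (z : Fin m → Option α) : List (Option α) :=
  (List.ofFn fun e => sb (z e) (w e)).flatten

private theorem Words_sb_append {α : Type} (o : Option α) (x y : List (Option α)) :
    sb o (x ++ y) = sb o x ++ sb o y := by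
  unfold sb
  exact List.map_append

private theorem Words_sb_none {α : Type} (x : List (Option α)) : sb none x = x := by
  unfold sb
  refine (List.map_congr_left (g := id) fun o _ => ?_).trans (List.map_id x)
  rcases o with _ | b <;> rfl

private theorem Words_sb_some {α : Type} (a : α) (x : List (Option α)) : none ∉ sb (some a) x := by
  unfold sb
  intro h
  obtain ⟨o, -, ho⟩ := List.mem_map.mp h
  rcases o with _ | b
  · exact absurd ho (by simp)
  · exact absurd ho (by simp)

private theorem Words_sb_id {α : Type} (a : α) (x : List (Option α)) (hx : none ∉ x) :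
    sb (some a) x = x := by
  unfold sb
  refine (List.map_congr_left (g := id) fun o ho => ?_).trans (List.map_id x)
  rcases o with _ | b
  · exact absurd ho hx
  · rfl

private theorem Words_pair (α : Type) : ∃ p q : Ultrafilter (List (Option α)),
    (∀ᶠ x in (q : Filter (List (Option α))), none ∈ x) ∧
    (∀ P : List (Option α) → Prop, (∀ᶠ x in (p : Filter (List (Option α))), P x) →
      ∀ᶠ x in (p : Filter (List (Option α))), ∀ᶠ y in (p : Filter (List (Option α))), P (x ++ y)) ∧
    (∀ P : List (Option α) → Prop, (∀ᶠ x in (q : Filter (List (Option α))), P x) →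
      ∀ᶠ x in (q : Filter (List (Option α))), ∀ᶠ y in (q : Filter (List (Option α))), P (x ++ y)) ∧
    (∀ P : List (Option α) → Prop, (∀ᶠ x in (q : Filter (List (Option α))), P x) →
      ∀ᶠ x in (p : Filter (List (Option α))), ∀ᶠ y in (q : Filter (List (Option α))), P (x ++ y)) ∧
    (∀ P : List (Option α) → Prop, (∀ᶠ x in (q : Filter (List (Option α))), P x) →
      ∀ᶠ x in (q : Filter (List (Option α))), ∀ᶠ y in (p : Filter (List (Option α))), P (x ++ y)) ∧
    (∀ (a : α) (P : List (Option α) → Prop), (∀ᶠ x in (p : Filter (List (Option α))), P x) →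
      ∀ᶠ x in (q : Filter (List (Option α))), P (sb (some a) x)) := by
  letI sg : Semigroup (List (Option α)) :=
    { mul := fun x y => x ++ y, mul_assoc := fun x y z => List.append_assoc x y z }
  obtain ⟨p, q, -, hI, pp, qq, pq, qp, hf⟩ := exists_pair (T := List (Option α)) (α := α)
    {x | none ∉ x} {x | none ∈ x}
    (by
      intro x hx y hy h
      rcases List.mem_append.mp h with h | h
      · exact hx h
      · exact hy h)
    ⟨[], by simp⟩
    (by
      intro x hx y
      exact ⟨List.mem_append.mpr (Or.inl hx), List.mem_append.mpr (Or.inr hx)⟩)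
    ⟨[none], by simp⟩
    (fun a => ⟨fun x => sb (some a) x, fun x y => Words_sb_append (some a) x y⟩)
    (fun a x => Words_sb_some a x)
    (fun a x hx => Words_sb_id a x hx)
  exact ⟨p, q, hI, pp, qq, pq, qp, hf⟩

private theorem Words_cat_one {α : Type} (w0 : List (Option α)) (z : Fin (0 + 1) → Option α) :
    cat (fun _ => w0) z = sb (z 0) w0 := by
  unfold cat
  rw [List.ofFn_succ]
  simp

private theorem Words_cat_cons {α : Type} {m : ℕ} (w0 : List (Option α))
    (w : Fin (m + 1) → List (Option α)) (z : Fin (m + 1 + 1) → Option α) :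
    cat (Fin.cons w0 w : Fin (m + 1 + 1) → List (Option α)) z
      = sb (z 0) w0 ++ cat w (fun i => z i.succ) := by
  unfold cat
  rw [List.ofFn_succ, List.flatten_cons]
  simp only [Fin.cons_zero, Fin.cons_succ]

private theorem Words_ind {α : Type} [Fintype α] {p q : Ultrafilter (List (Option α))}
    (hI : ∀ᶠ x in (q : Filter (List (Option α))), none ∈ x)
    (pp : ∀ P : List (Option α) → Prop, (∀ᶠ x in (p : Filter (List (Option α))), P x) →
      ∀ᶠ x in (p : Filter (List (Option α))), ∀ᶠ y in (p : Filter (List (Option α))), P (x ++ y))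
    (qq : ∀ P : List (Option α) → Prop, (∀ᶠ x in (q : Filter (List (Option α))), P x) →
      ∀ᶠ x in (q : Filter (List (Option α))), ∀ᶠ y in (q : Filter (List (Option α))), P (x ++ y))
    (pq : ∀ P : List (Option α) → Prop, (∀ᶠ x in (q : Filter (List (Option α))), P x) →
      ∀ᶠ x in (p : Filter (List (Option α))), ∀ᶠ y in (q : Filter (List (Option α))), P (x ++ y))
    (qp : ∀ P : List (Option α) → Prop, (∀ᶠ x in (q : Filter (List (Option α))), P x) →
      ∀ᶠ x in (q : Filter (List (Option α))), ∀ᶠ y in (p : Filter (List (Option α))), P (x ++ y))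
    (hf : ∀ (a : α) (P : List (Option α) → Prop), (∀ᶠ x in (p : Filter (List (Option α))), P x) →
      ∀ᶠ x in (q : Filter (List (Option α))), P (sb (some a) x)) (m : ℕ) :
    ∀ C P : List (Option α) → Prop, (∀ᶠ x in (q : Filter (List (Option α))), C x) →
      (∀ᶠ x in (p : Filter (List (Option α))), P x) →
      ∃ w : Fin (m + 1) → List (Option α), (∀ e, none ∈ w e) ∧
        (∀ z : Fin (m + 1) → Option α, (∃ e, z e = none) → C (cat w z)) ∧
        (∀ z : Fin (m + 1) → Option α, (∀ e, z e ≠ none) → P (cat w z)) := by
  induction m with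
  | zero =>
    intro C P hC hP
    obtain ⟨w0, h1, h2, h3⟩ := (hI.and (hC.and (Filter.eventually_all.mpr
      fun a : α => hf a P hP))).exists
    refine ⟨fun _ => w0, fun _ => h1, ?_, ?_⟩
    · rintro z ⟨e, he⟩
      have he0 : z 0 = none := by
        rw [← he]
        exact congrArg z (Fin.ext (by have := e.isLt; simp only [Fin.val_zero]; omega))
      rw [Words_cat_one, he0, Words_sb_none]
      exact h2
    · intro z hz
      obtain ⟨a, ha⟩ := Option.ne_none_iff_exists'.mp (hz 0)
      rw [Words_cat_one, ha]
      exact h3 a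
  | succ m ih =>
    intro C P hC hP
    obtain ⟨w0, h1, h2, h3, h4, h5⟩ := (hI.and ((qq C hC).and ((Filter.eventually_all.mpr
      fun a : α => hf a _ (pq C hC)).and ((qp C hC).and (Filter.eventually_all.mpr
      fun a : α => hf a _ (pp P hP)))))).exists
    obtain ⟨w, hw1, hw2, hw3⟩ := ih
      (fun y => C (w0 ++ y) ∧ ∀ a : α, C (sb (some a) w0 ++ y))
      (fun y => C (w0 ++ y) ∧ ∀ a : α, P (sb (some a) w0 ++ y))
      (h2.and (Filter.eventually_all.mpr h3)) (h4.and (Filter.eventually_all.mpr h5))
    refine ⟨Fin.cons w0 w, ?_, ?_, ?_⟩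
    · intro e
      refine Fin.cases ?_ (fun i => ?_) e
      · rw [Fin.cons_zero]
        exact h1
      · rw [Fin.cons_succ]
        exact hw1 i
    · rintro z ⟨e, he⟩
      rw [Words_cat_cons]
      by_cases hz : ∃ i : Fin (m + 1), z i.succ = none
      · have h6 := hw2 (fun i => z i.succ) hz
        rcases h0 : z 0 with _ | a
        · rw [Words_sb_none]
          exact h6.1
        · exact h6.2 a
      · have hz' : ∀ i : Fin (m + 1), z i.succ ≠ none := fun i hi => hz ⟨i, hi⟩
        have h6 := hw3 (fun i => z i.succ) hz'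
        rcases h0 : z 0 with _ | a
        · rw [Words_sb_none]
          exact h6.1
        · exfalso
          revert he
          refine Fin.cases ?_ (fun i => ?_) e
          · rw [h0]
            simp
          · exact hz' i
    · intro z hz
      rw [Words_cat_cons]
      obtain ⟨a, ha⟩ := Option.ne_none_iff_exists'.mp (hz 0)
      rw [ha]
      exact (hw3 (fun i => z i.succ) fun i => hz i.succ).2 a

theorem words (α : Type) [Fintype α] (m : ℕ) (c : List (Option α) → Prop) :
    ∃ w : Fin (m + 1) → List (Option α), (∀ e, none ∈ w e) ∧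
      ((∀ z : Fin (m + 1) → Option α, (∃ e, z e = none) → c (cat w z)) ∨
        (∀ z : Fin (m + 1) → Option α, (∃ e, z e = none) → ¬ c (cat w z))) := by
  obtain ⟨p, q, hI, pp, qq, pq, qp, hf⟩ := Words_pair α
  rcases q.em c with h | h
  · obtain ⟨w, h1, h2, -⟩ := Words_ind hI pp qq pq qp hf m c (fun _ => True) h
      (Filter.Eventually.of_forall fun _ => trivial)
    exact ⟨w, h1, Or.inl h2⟩
  · obtain ⟨w, h1, h2, -⟩ := Words_ind hI pp qq pq qp hf m (fun x => ¬ c x) (fun _ => True) h
      (Filter.Eventually.of_forall fun _ => trivial)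
    exact ⟨w, h1, Or.inr h2⟩

end Pool.Agent.Lib.DHJ
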