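import Pool.Agent.Lib.DHJ.Defs
import Pool.Agent.Lib.DHJ.Words

/-!
# DHJ-GR: the theorem of Graham and Rothschild for variable words (lines)

PROOF. `m = 0`: `l = 0`, the alternatives are vacuous. Let `m = m' + 1`. Suppose the statement is false: for every `l` there
is a colouring `c_l` of the words `Fin l → Option α` without such a `W`. Put `c L := c_{L.length} (fun i => L.get i)` for a
list `L` and apply `words α m' c`: `w`. Let `Z := (List.ofFn fun e => (w e).map (fun o => match o with | some a => Sum.inl a
| none => Sum.inr e)).flatten : List (α ⊕ Fin m)`, `l := Z.length`, `W : Subspace (Fin m) α (Fin l)` with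
`idxFun i = Z.get i` (`proper e` because `none ∈ w e`: `Sum.inr e ∈ Z`, `List.get_of_mem`). For every `z` the list
`cat w z` is `Z.map (Sum.elim some z)` (`List.map_flatten`, `List.map_ofFn`), it has length `l` for all `z`, and as a
function it is `lift W z` (`lift_apply`). So `c (cat w z)` is `c_l (lift W z)` (transport along the equality of lengths: it
is convenient to prove first: for a list `L` and `f : Fin l → Option α` with `L = List.ofFn f`: `c L ↔ c_l f`, by
`subst` and `List.length_ofFn`, or to define `c L := ∃/∀ l (f : Fin l → Option α), L = List.ofFn f → c_l f`, which avoids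
casts: `List.ofFn` is injective for fixed `l` and the length determines `l`). This contradicts the choice of `c_l`.
-/

set_option autoImplicit false

open Finset Combinatorics

namespace Pool.Agent.Lib.DHJ

private theorem GR_cat {α : Type} {m : ℕ} (w : Fin m → List (Option α)) (z : Fin m → Option α) :
    cat w z = ((List.ofFn fun e => (w e).map fun o : Option α =>
      (o.elim (Sum.inr e) Sum.inl : α ⊕ Fin m)).flatten).map (Sum.elim some z) := by
  unfold cat
  rw [List.map_flatten, List.map_ofFn]
  congr 2
  funext e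
  simp only [Function.comp_apply, sb, List.map_map]
  refine List.map_congr_left fun o _ => ?_
  rcases o with _ | b <;> rfl

private theorem GR_ofFn {β γ : Type} (Z : List β) (f : β → γ) :
    List.ofFn (fun i : Fin Z.length => f (Z.get i)) = Z.map f := by
  refine List.ext_getElem (by simp) fun n h1 h2 => ?_
  simp

theorem graham_rothschild (α : Type) [Fintype α] (m : ℕ) : ∃ l : ℕ,
    ∀ c : (Fin l → Option α) → Prop, ∃ W : Subspace (Fin m) α (Fin l),
      (∀ z : Fin m → Option α, (∃ e, z e = none) → c (lift W z)) ∨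
      (∀ z : Fin m → Option α, (∃ e, z e = none) → ¬ c (lift W z)) := by
  rcases m with _ | m
  · refine ⟨0, fun c => ⟨⟨fun i => i.elim0, fun e => e.elim0⟩, Or.inl ?_⟩⟩
    rintro z ⟨e, -⟩
    exact e.elim0
  by_contra hcon
  push Not at hcon
  choose c hc using hcon
  obtain ⟨w, hw, hcol⟩ := words α m
    (fun L => ∃ (l : ℕ) (f : Fin l → Option α), L = List.ofFn f ∧ c l f)
  obtain ⟨Z, hZ⟩ : ∃ Z : List (α ⊕ Fin (m + 1)), Z = (List.ofFn fun e => (w e).map
    fun o : Option α => (o.elim (Sum.inr e) Sum.inl : α ⊕ Fin (m + 1))).flatten := ⟨_, rfl⟩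
  have hprop : ∀ e : Fin (m + 1), ∃ i : Fin Z.length, Z.get i = Sum.inr e := by
    intro e
    have h1 : (Sum.inr e : α ⊕ Fin (m + 1)) ∈ Z := by
      rw [hZ, List.mem_flatten]
      refine ⟨(w e).map fun o : Option α => (o.elim (Sum.inr e) Sum.inl : α ⊕ Fin (m + 1)),
        ?_, ?_⟩
      · exact List.mem_ofFn.mpr ⟨e, rfl⟩
      · exact List.mem_map.mpr ⟨none, hw e, rfl⟩
    exact List.get_of_mem h1
  obtain ⟨W, hW⟩ : ∃ W : Subspace (Fin (m + 1)) α (Fin Z.length), W.idxFun = fun i => Z.get i :=
    ⟨⟨fun i => Z.get i, hprop⟩, rfl⟩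
  have hcat : ∀ z : Fin (m + 1) → Option α, cat w z = List.ofFn (lift W z) := by
    intro z
    rw [GR_cat, ← hZ, ← GR_ofFn]
    congr 1
    funext i
    rw [lift_apply, hW]
  have hiff : ∀ f : Fin Z.length → Option α,
      (∃ (l : ℕ) (g : Fin l → Option α), List.ofFn f = List.ofFn g ∧ c l g) ↔ c Z.length f := by
    intro f
    constructor
    · rintro ⟨l, g, h1, h2⟩
      have h3 : Z.length = l := by
        have := congrArg List.length h1
        simpa using this
      subst h3
      rw [List.ofFn_injective h1]
      exact h2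
    · intro h
      exact ⟨_, f, rfl, h⟩
  obtain ⟨⟨z1, hz1, hz1'⟩, ⟨z2, hz2, hz2'⟩⟩ := hc Z.length W
  rcases hcol with h | h
  · refine hz1' ((hiff _).mp ?_)
    rw [← hcat]
    exact h z1 hz1
  · refine h z2 hz2 ?_
    rw [hcat]
    exact (hiff _).mpr hz2'

end Pool.Agent.Lib.DHJ
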