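import Pool.Agent.Lib.DHJ.GR

/-!
# DHJ-Good: a subspace all of whose lines over `α` are good for many `y`

PROOF. Let `m0` be the number of `h` for `δ / 4`, `θ := (δ / 4) / (|α| + 1) ^ m0`. Let `m ≥ m0` and `l` from
`graham_rothschild α m`. Given `κ`, `A` colour a word `x : Fin l → Option α` by
`c x := θ (|α|+1)^|κ| ≤ |{y | ∀ a, (rep a x, y) ∈ A}|` and take `W`. In the first alternative we are done. Suppose the
second: no `lift W z` with `z` containing `none` is good. Fix a letter `a0`. For `u : Fin m0 → Option α` let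
`u' : Fin m → Option α` be `u` on the first `m0` coordinates and `some a0` on the others. For `v : Fin m0 → α` the fibre
over `lift W (some ∘ v)'` has at least `(δ/2) K^|κ|` elements `y` (`K := |α| + 1`). Double counting: for
`B_y := {v : Fin m0 → α | (lift W (some ∘ v)', y) ∈ A}` we have `∑_y |B_y| ≥ (δ/2) |α|^m0 K^|κ|`, so the set `Y` of
the `y` with `|B_y| ≥ (δ/4) |α|^m0` has at least `(δ/4) K^|κ|` elements. For `y ∈ Y`, `h` gives a line `l_y` over `α` of
`Fin m0` with all points in `B_y`, that is a word `u_y := l_y.idxFun : Fin m0 → Option α` containing `none` with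
`(rep a (lift W u_y'), y) ∈ A` for all `a` (`rep a (lift W u') = lift W (rep a u')`, and `rep a u_y' = (some ∘ l_y a)'`).
There are at most `K^m0` words `u`, so one `u` is `u_y` for at least `(δ/4) K^|κ| / K^m0 = θ K^|κ|` of the `y`: the word
`lift W u'` is good although `u'` contains `none`: contradiction.
-/

set_option autoImplicit false

open Finset Combinatorics

namespace Pool.Agent.Lib.DHJ

/-- extension of a word by the letter `a0` -/
private def good_ext {α : Type} {m0 : ℕ} (a0 : α) (m : ℕ) (u : Fin m0 → Option α) :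
    Fin m → Option α :=
  fun e => if h : e.1 < m0 then u ⟨e.1, h⟩ else some a0

private theorem good_rep_ext {α : Type} {m0 : ℕ} (a a0 : α) (m : ℕ) (u : Fin m0 → Option α) :
    rep a (good_ext a0 m u) = good_ext a0 m (rep a u) := by
  funext e
  by_cases h : e.1 < m0
  · simp [good_ext, rep, h]
  · simp [good_ext, rep, h]

open Classical in
theorem good_subspace {α : Type} [Fintype α] [Nonempty α] (h : HJ α) (δ : ℝ) (hδ : 0 < δ) :
    ∃ θ : ℝ, 0 < θ ∧ ∃ m0 : ℕ, ∀ m : ℕ, m0 ≤ m → ∃ l : ℕ,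
      ∀ (κ : Type) [Fintype κ] [DecidableEq κ] (A : Finset ((Fin l → Option α) × (κ → Option α))),
      (∀ x : Fin l → Option α, δ / 2 * ((Fintype.card α : ℝ) + 1) ^ Fintype.card κ ≤
        ((univ.filter fun y : κ → Option α => (x, y) ∈ A).card : ℝ)) →
      ∃ W : Subspace (Fin m) α (Fin l), ∀ z : Fin m → Option α, (∃ e, z e = none) →
        θ * ((Fintype.card α : ℝ) + 1) ^ Fintype.card κ ≤
          ((univ.filter fun y : κ → Option α => ∀ a : α, (rep a (lift W z), y) ∈ A).card : ℝ) := by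
  obtain ⟨m0, hm0⟩ := h (δ / 4) (by positivity)
  obtain ⟨a0⟩ := ‹Nonempty α›
  obtain ⟨K, hK⟩ : ∃ K : ℝ, K = (Fintype.card α : ℝ) + 1 := ⟨_, rfl⟩
  rw [← hK]
  have hKpos : 0 < K := by rw [hK]; positivity
  have hcα : 0 < (Fintype.card α : ℝ) := by
    have : 0 < Fintype.card α := Fintype.card_pos_iff.2 ⟨a0⟩
    exact_mod_cast this
  refine ⟨(δ / 4) / K ^ m0, by positivity, m0, fun m hm => ?_⟩
  obtain ⟨l, hl⟩ := graham_rothschild α m
  refine ⟨l, fun κ _ _ A hA => ?_⟩
  obtain ⟨P, hP⟩ : ∃ P : ℝ, P = K ^ Fintype.card κ := ⟨_, rfl⟩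
  rw [← hP] at hA ⊢
  have hPpos : 0 < P := by rw [hP]; positivity
  obtain ⟨W, hW⟩ := hl (fun x => (δ / 4) / K ^ m0 * P ≤
    ((univ.filter fun y : κ → Option α => ∀ a : α, (rep a x, y) ∈ A).card : ℝ))
  rcases hW with hW | hW
  · exact ⟨W, hW⟩
  exfalso
  obtain ⟨B, hB⟩ : ∃ B : (κ → Option α) → Finset (Fin m0 → α), B = fun y => univ.filter fun v =>
    (lift W (good_ext a0 m (fun i => some (v i))), y) ∈ A := ⟨_, rfl⟩
  obtain ⟨N, hN⟩ : ∃ N : ℝ, N = (Fintype.card α : ℝ) ^ m0 := ⟨_, rfl⟩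
  have hNpos : 0 < N := by rw [hN]; positivity
  have hcN : (Fintype.card (Fin m0 → α) : ℝ) = N := by
    rw [hN]
    simp
  have hcP : (Fintype.card (κ → Option α) : ℝ) = P := by
    rw [hP, hK]
    simp
  have hsum : ∑ y, ((B y).card : ℝ) = ∑ v : Fin m0 → α,
      ((univ.filter fun y : κ → Option α =>
        (lift W (good_ext a0 m (fun i => some (v i))), y) ∈ A).card : ℝ) := by
    rw [hB]
    simp only [card_filter, Nat.cast_sum]
    exact Finset.sum_comm
  have h1 : N * (δ / 2 * P) ≤ ∑ y, ((B y).card : ℝ) := by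
    rw [hsum]
    calc N * (δ / 2 * P) = ∑ v : Fin m0 → α, (δ / 2 * P) := by
          rw [Finset.sum_const, Finset.card_univ, nsmul_eq_mul, hcN]
      _ ≤ _ := Finset.sum_le_sum fun v _ => hA _
  obtain ⟨Y, hY⟩ : ∃ Y : Finset (κ → Option α), Y = univ.filter fun y =>
    δ / 4 * N ≤ ((B y).card : ℝ) := ⟨_, rfl⟩
  have h2 : ∑ y, ((B y).card : ℝ) ≤ (Y.card : ℝ) * N + P * (δ / 4 * N) := by
    calc ∑ y, ((B y).card : ℝ) ≤ ∑ y, ((if y ∈ Y then N else 0) + δ / 4 * N) := by
          apply Finset.sum_le_sum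
          intro y _
          have hp : 0 < δ / 4 * N := by positivity
          by_cases hy : y ∈ Y
          · rw [if_pos hy]
            have h3 : ((B y).card : ℝ) ≤ N := by
              rw [← hcN]
              exact_mod_cast Finset.card_le_univ (B y)
            linarith
          · rw [if_neg hy]
            have h3 : ¬ δ / 4 * N ≤ ((B y).card : ℝ) := by
              intro h4
              exact hy (by rw [hY]; exact mem_filter.2 ⟨mem_univ _, h4⟩)
            linarith [not_le.1 h3]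
      _ = (Y.card : ℝ) * N + P * (δ / 4 * N) := by
          rw [Finset.sum_add_distrib, Finset.sum_const, Finset.card_univ, nsmul_eq_mul, hcP,
            Finset.sum_ite_mem, Finset.univ_inter, Finset.sum_const, nsmul_eq_mul]
  have h3 : δ / 4 * P ≤ (Y.card : ℝ) := by
    have h4 : N * (δ / 4 * P) ≤ N * (Y.card : ℝ) := by
      have := h1.trans h2
      nlinarith
    exact le_of_mul_le_mul_left h4 hNpos
  obtain ⟨U, hU⟩ : ∃ U : Finset (Fin m0 → Option α), U = univ.filter fun u => ∃ i, u i = none :=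
    ⟨_, rfl⟩
  obtain ⟨F, hF⟩ : ∃ F : (Fin m0 → Option α) → Finset (κ → Option α), F = fun u =>
    univ.filter fun y => ∀ a, (rep a (lift W (good_ext a0 m u)), y) ∈ A := ⟨_, rfl⟩
  have h4 : Y ⊆ U.biUnion F := by
    intro y hy
    rw [hY] at hy
    have h5 := (mem_filter.1 hy).2
    obtain ⟨L, hL⟩ := hm0 (Fin m0) (by simp) (B y) (by
      rw [Fintype.card_fin, ← hN]
      exact h5)
    rw [mem_biUnion]
    refine ⟨L.idxFun, ?_, ?_⟩
    · rw [hU]
      exact mem_filter.2 ⟨mem_univ _, L.proper⟩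
    · rw [hF]
      refine mem_filter.2 ⟨mem_univ _, fun a => ?_⟩
      have h6 := hL a
      rw [hB] at h6
      have h7 := (mem_filter.1 h6).2
      have h8 : rep a (lift W (good_ext a0 m L.idxFun)) =
          lift W (good_ext a0 m (fun i => some (L a i))) := by
        rw [rep_lift, good_rep_ext]
        rfl
      rw [h8]
      exact h7
  have h5 : (Y.card : ℝ) ≤ ∑ u ∈ U, ((F u).card : ℝ) := by
    exact_mod_cast (card_le_card h4).trans card_biUnion_le
  have hYpos : 0 < (Y.card : ℝ) := lt_of_lt_of_le (by positivity) h3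
  have hne : U.Nonempty := by
    rw [Finset.nonempty_iff_ne_empty]
    intro h6
    rw [h6, Finset.sum_empty] at h5
    linarith
  have h6 : ∑ u ∈ U, ((F u).card : ℝ) < ∑ u ∈ U, (δ / 4) / K ^ m0 * P := by
    apply Finset.sum_lt_sum_of_nonempty hne
    intro u hu
    rw [hU] at hu
    obtain ⟨i, hi⟩ := (mem_filter.1 hu).2
    have h7 := hW (good_ext a0 m u) ⟨⟨i.1, lt_of_lt_of_le i.2 hm⟩, by
      simp [good_ext, hi]⟩
    rw [hF]
    exact not_le.1 h7
  have h7 : ∑ u ∈ U, (δ / 4) / K ^ m0 * P ≤ δ / 4 * P := by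
    rw [Finset.sum_const, nsmul_eq_mul]
    have h8 : (U.card : ℝ) ≤ K ^ m0 := by
      have h9 : U.card ≤ Fintype.card (Fin m0 → Option α) := Finset.card_le_univ U
      have h10 : (Fintype.card (Fin m0 → Option α) : ℝ) = K ^ m0 := by
        rw [hK]
        simp
      rw [← h10]
      exact_mod_cast h9
    calc (U.card : ℝ) * (δ / 4 / K ^ m0 * P) ≤ K ^ m0 * (δ / 4 / K ^ m0 * P) :=
          mul_le_mul_of_nonneg_right h8 (by positivity)
      _ = δ / 4 * P := by
          field_simp
  linarith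

end Pool.Agent.Lib.DHJ
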