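import Pool.Agent.Lib.DHJ.TileOne

/-!
# DHJ-TileAll: intersections of insensitive sets are disjoint unions of subspaces up to a small part
-/

set_option autoImplicit false

open Finset Combinatorics

namespace Pool.Agent.Lib.DHJ

private theorem tileAll_rest {X : Type} [DecidableEq X] (D : Finset X) (𝒱 : Finset (Finset X))
    (h2 : ∀ S ∈ 𝒱, S ⊆ D) (h3 : (𝒱 : Set (Finset X)).PairwiseDisjoint id) {c : ℝ}
    (h4 : (D.card : ℝ) ≤ ∑ S ∈ 𝒱, (S.card : ℝ) + c) :
    ((D \ 𝒱.biUnion id).card : ℝ) ≤ c := by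
  have h5 : (𝒱.biUnion id).card = ∑ S ∈ 𝒱, S.card := card_biUnion h3
  have h6 : 𝒱.biUnion id ⊆ D := biUnion_subset.2 h2
  have h7 := card_sdiff_add_card_eq_card h6
  have h8 : ((D \ 𝒱.biUnion id).card : ℝ) + ∑ S ∈ 𝒱, (S.card : ℝ) = D.card := by
    rw [h5] at h7
    exact_mod_cast h7
  linarith

/-- the case without conditions -/
private theorem tileAll_base {α : Type} [Fintype α] (d : ℕ) (β : ℝ) (hβ : 0 < β) (ι : Type)
    [Fintype ι] (hd : d ≤ Fintype.card ι) (E : Finset (ι → Option α)) (hE : ∀ x, x ∈ E) :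
    Tiled d β E := by
  classical
  obtain ⟨j⟩ : Nonempty (Fin d ↪ ι) :=
    Function.Embedding.nonempty_of_card_le (by rw [Fintype.card_fin]; exact hd)
  obtain ⟨g, hg⟩ : ∃ g : ι → Option (Fin d), ∀ e i, g i = some e ↔ j e = i :=
    ⟨Function.partialInv j, j.injective.isPartialInv⟩
  let V : (ι → Option α) → Subspace (Fin d) (Option α) ι := fun x =>
    ⟨fun i => (g i).elim (Sum.inl (x i)) Sum.inr, fun e => ⟨j e, by rw [(hg e (j e)).2 rfl]; rfl⟩⟩
  have hVn : ∀ x z i, g i = none → V x z i = x i := by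
    intro x z i hi
    rw [Subspace.apply_def]
    show Sum.elim id z ((g i).elim (Sum.inl (x i)) Sum.inr) = x i
    rw [hi]
    rfl
  have hVs : ∀ x z i e, g i = some e → V x z i = z e := by
    intro x z i e hi
    rw [Subspace.apply_def]
    show Sum.elim id z ((g i).elim (Sum.inl (x i)) Sum.inr) = z e
    rw [hi]
    rfl
  let S : (ι → Option α) → Finset (ι → Option α) := fun x => univ.filter fun y => ∀ i, g i = none → y i = x i
  have hmem : ∀ x y, y ∈ S x ↔ ∀ i, g i = none → y i = x i := fun x y =>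
    ⟨fun h => (mem_filter.1 h).2, fun h => mem_filter.2 ⟨mem_univ _, h⟩⟩
  have hself : ∀ x, x ∈ S x := fun x => (hmem x x).2 fun _ _ => rfl
  refine ⟨univ.image S, ?_, ?_, ?_, ?_⟩
  · intro T hT
    obtain ⟨x, -, rfl⟩ := mem_image.1 hT
    refine ⟨V x, fun y => ?_⟩
    rw [hmem]
    constructor
    · intro h
      refine ⟨fun e => y (j e), ?_⟩
      funext i
      rcases hi : g i with _ | e
      · rw [hVn _ _ _ hi, h i hi]
      · rw [hVs _ _ _ _ hi, (hg e i).1 hi]
    · rintro ⟨z, rfl⟩ i hi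
      exact hVn _ _ _ hi
  · intro T _ x _
    exact hE x
  · intro T hT T' hT' hne
    rw [Finset.mem_coe] at hT hT'
    obtain ⟨x, -, rfl⟩ := mem_image.1 hT
    obtain ⟨x', -, rfl⟩ := mem_image.1 hT'
    refine disjoint_left.2 fun y hy hy' => hne ?_
    have h1 := (hmem x y).1 hy
    have h2 := (hmem x' y).1 hy'
    ext w
    rw [hmem, hmem]
    constructor
    · intro h i hi
      rw [h i hi, ← h1 i hi, h2 i hi]
    · intro h i hi
      rw [h i hi, ← h2 i hi, h1 i hi]
  · have h1 : E ⊆ (univ.image S).biUnion id := by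
      intro x _
      rw [mem_biUnion]
      exact ⟨S x, mem_image_of_mem _ (mem_univ _), hself x⟩
    have h2 := (card_le_card h1).trans card_biUnion_le
    have h3 : (E.card : ℝ) ≤ ∑ T ∈ univ.image S, (T.card : ℝ) := by exact_mod_cast h2
    have h4 : 0 ≤ β * (Fintype.card (Option α) : ℝ) ^ Fintype.card ι := by positivity
    linarith

private theorem tileAll_rep {α ι η : Type} (b : α) (V : Subspace η (Option α) ι)
    (z : η → Option α) : rep b (V (rep b z)) = rep b (V z) := by
  funext i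
  rw [rep_apply, rep_apply, Subspace.apply_def, Subspace.apply_def]
  rcases V.idxFun i with c | e
  · rfl
  · rfl

private theorem tileAll_aux {α : Type} [Fintype α] [Nonempty α] (h : MHJ α) (s : Finset α) :
    ∀ (d : ℕ) (β : ℝ), 0 < β →
    ∃ M : ℕ, ∀ (ι : Type) [Fintype ι] [DecidableEq ι], M ≤ Fintype.card ι →
      ∀ (D : α → Finset (ι → Option α)), (∀ a ∈ s, Ins a (D a)) →
      ∀ E : Finset (ι → Option α), (∀ x, x ∈ E ↔ ∀ a ∈ s, x ∈ D a) → Tiled d β E := by
  classical
  induction s using Finset.induction_on with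
  | empty =>
    intro d β hβ
    refine ⟨d, fun ι _ _ hd D _ E hE => tileAll_base d β hβ ι hd E fun x => ?_⟩
    rw [hE]
    intro a ha
    exact absurd ha (notMem_empty a)
  | insert a s ha ih =>
    intro d β hβ
    obtain ⟨d1, hd1⟩ := ih d (β / 2) (by linarith)
    obtain ⟨M, hM⟩ := tile_one h d1 (β / 2) (by linarith)
    refine ⟨M, fun ι _ _ hι D hins E hE => ?_⟩
    obtain ⟨𝒱, h1, h2, h3, h4⟩ := hM ι hι a (D a) (hins a (mem_insert_self a s))
    have h1' : ∀ S : {S // S ∈ 𝒱}, ∃ V : Subspace (Fin d1) (Option α) ι,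
        ∀ x, x ∈ S.1 ↔ ∃ z, V z = x := fun S => h1 S.1 S.2
    choose V hV using h1'
    have hT : ∀ S : {S // S ∈ 𝒱}, Tiled d (β / 2)
        (univ.filter fun z : Fin d1 → Option α => ∀ b ∈ s, V S z ∈ D b) := by
      intro S
      refine hd1 (Fin d1) (by rw [Fintype.card_fin]) (fun b => univ.filter fun z => V S z ∈ D b) ?_ _ ?_
      · intro b hb z
        rw [mem_filter, mem_filter]
        have e1 := hins b (mem_insert_of_mem hb) (V S z)
        have e2 := hins b (mem_insert_of_mem hb) (V S (rep b z))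
        rw [tileAll_rep] at e2
        exact and_congr (iff_of_true (mem_univ _) (mem_univ _)) (e1.trans e2.symm)
      · intro z
        rw [mem_filter]
        constructor
        · rintro ⟨-, h5⟩ b hb
          exact mem_filter.2 ⟨mem_univ _, h5 b hb⟩
        · intro h5
          exact ⟨mem_univ _, fun b hb => (mem_filter.1 (h5 b hb)).2⟩
    choose 𝒰 u1 u2 u3 u4 using hT
    have hVS : ∀ (S : {S // S ∈ 𝒱}) z, V S z ∈ S.1 := fun S z => (hV S _).2 ⟨z, rfl⟩
    refine ⟨𝒱.attach.biUnion fun S => (𝒰 S).image fun U => U.image fun z => V S z, ?_, ?_, ?_, ?_⟩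
    · intro W hW
      obtain ⟨S, -, hW⟩ := mem_biUnion.1 hW
      obtain ⟨U, hU, rfl⟩ := mem_image.1 hW
      obtain ⟨U', hU'⟩ := u1 S U hU
      refine ⟨comp (V S) U', fun x => ?_⟩
      rw [mem_image]
      constructor
      · rintro ⟨z, hz, rfl⟩
        obtain ⟨y, hy⟩ := (hU' z).1 hz
        exact ⟨y, by rw [comp_apply, hy]⟩
      · rintro ⟨y, rfl⟩
        exact ⟨U' y, (hU' _).2 ⟨y, rfl⟩, by rw [comp_apply]⟩
    · intro W hW x hx
      obtain ⟨S, -, hW⟩ := mem_biUnion.1 hW
      obtain ⟨U, hU, rfl⟩ := mem_image.1 hW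
      obtain ⟨z, hz, rfl⟩ := mem_image.1 hx
      rw [hE]
      intro b hb
      rcases mem_insert.1 hb with rfl | hb
      · exact h2 S.1 S.2 (hVS S z)
      · exact (mem_filter.1 (u2 S U hU hz)).2 b hb
    · intro W hW W' hW' hne
      rw [Finset.mem_coe] at hW hW'
      obtain ⟨S, -, hW⟩ := mem_biUnion.1 hW
      obtain ⟨U, hU, rfl⟩ := mem_image.1 hW
      obtain ⟨S', -, hW'⟩ := mem_biUnion.1 hW'
      obtain ⟨U', hU', rfl⟩ := mem_image.1 hW'
      refine disjoint_left.2 fun x hx hx' => hne ?_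
      obtain ⟨z, hz, rfl⟩ := mem_image.1 hx
      obtain ⟨z', hz', hzz⟩ := mem_image.1 hx'
      have hSS : S = S' := by
        by_contra hcon
        have h5 : S.1 ≠ S'.1 := fun h6 => hcon (Subtype.ext h6)
        have h6 := h3 (Finset.mem_coe.2 S.2) (Finset.mem_coe.2 S'.2) h5
        refine (disjoint_left.1 h6) (hVS S z) ?_
        show V S z ∈ S'.1
        rw [← hzz]
        exact hVS S' z'
      subst hSS
      have hz2 : z' = z := sub_injective (V S) hzz
      subst hz2
      have hUU : U = U' := by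
        by_contra hcon
        exact (disjoint_left.1 (u3 S (Finset.mem_coe.2 hU) (Finset.mem_coe.2 hU') hcon)) hz hz'
      rw [hUU]
    · -- the count
      have r1 := tileAll_rest (D a) 𝒱 h2 h3 h4
      have r2 := fun S => tileAll_rest _ (𝒰 S) (u2 S) (u3 S) (u4 S)
      have hcov : E ⊆ ((𝒱.attach.biUnion fun S => (𝒰 S).image fun U => U.image fun z => V S z).biUnion id ∪
          (D a \ 𝒱.biUnion id)) ∪ 𝒱.attach.biUnion fun S =>
            ((univ.filter fun z : Fin d1 → Option α => ∀ b ∈ s, V S z ∈ D b) \ (𝒰 S).biUnion id).image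
              fun z => V S z := by
        intro x hx
        rw [hE] at hx
        have hxa := hx a (mem_insert_self a s)
        by_cases hx1 : x ∈ 𝒱.biUnion id
        · obtain ⟨T, hT, hxT⟩ := mem_biUnion.1 hx1
          obtain ⟨z, rfl⟩ := (hV ⟨T, hT⟩ x).1 hxT
          have hz : z ∈ univ.filter fun z : Fin d1 → Option α => ∀ b ∈ s, V ⟨T, hT⟩ z ∈ D b :=
            mem_filter.2 ⟨mem_univ _, fun b hb => hx b (mem_insert_of_mem hb)⟩
          by_cases hz1 : z ∈ (𝒰 ⟨T, hT⟩).biUnion id
          · obtain ⟨U, hU, hzU⟩ := mem_biUnion.1 hz1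
            refine mem_union_left _ (mem_union_left _ ?_)
            rw [mem_biUnion]
            exact ⟨U.image fun z => V ⟨T, hT⟩ z, mem_biUnion.2 ⟨⟨T, hT⟩, mem_attach _ _,
              mem_image_of_mem _ hU⟩, mem_image_of_mem _ hzU⟩
          · refine mem_union_right _ ?_
            rw [mem_biUnion]
            exact ⟨⟨T, hT⟩, mem_attach _ _, mem_image_of_mem _ (mem_sdiff.2 ⟨hz, hz1⟩)⟩
        · exact mem_union_left _ (mem_union_right _ (mem_sdiff.2 ⟨hxa, hx1⟩))
      have c1 := (card_le_card hcov).trans ((card_union_le _ _).trans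
        (Nat.add_le_add (card_union_le _ _) card_biUnion_le))
      have c2 : ((𝒱.attach.biUnion fun S => (𝒰 S).image fun U => U.image fun z => V S z).biUnion id).card ≤
        ∑ W ∈ 𝒱.attach.biUnion fun S => (𝒰 S).image fun U => U.image fun z => V S z, W.card := card_biUnion_le
      have c3 : (E.card : ℝ) ≤
          (∑ W ∈ 𝒱.attach.biUnion fun S => (𝒰 S).image fun U => U.image fun z => V S z, (W.card : ℝ)) +
          ((D a \ 𝒱.biUnion id).card : ℝ) + ∑ S ∈ 𝒱.attach,
            ((((univ.filter fun z : Fin d1 → Option α => ∀ b ∈ s, V S z ∈ D b) \ (𝒰 S).biUnion id).image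
              fun z => V S z).card : ℝ) := by
        have c4 := c1.trans (Nat.add_le_add_right (Nat.add_le_add_right c2 _) _)
        exact_mod_cast c4
      have c5 : ∀ S ∈ 𝒱.attach,
          ((((univ.filter fun z : Fin d1 → Option α => ∀ b ∈ s, V S z ∈ D b) \ (𝒰 S).biUnion id).image
              fun z => V S z).card : ℝ) ≤ β / 2 * (S.1.card : ℝ) := by
        intro S _
        have e1 : ((((univ.filter fun z : Fin d1 → Option α => ∀ b ∈ s, V S z ∈ D b) \
            (𝒰 S).biUnion id).image fun z => V S z).card : ℝ) ≤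
            (((univ.filter fun z : Fin d1 → Option α => ∀ b ∈ s, V S z ∈ D b) \
            (𝒰 S).biUnion id).card : ℝ) := by exact_mod_cast card_image_le
        have e2 : (S.1.card : ℝ) = (Fintype.card (Option α) : ℝ) ^ Fintype.card (Fin d1) := by
          have e3 : S.1 = univ.image fun z => V S z := by
            ext x
            rw [hV, mem_image]
            constructor
            · rintro ⟨z, hz⟩
              exact ⟨z, mem_univ _, hz⟩
            · rintro ⟨z, -, hz⟩
              exact ⟨z, hz⟩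
          rw [e3, card_image_of_injective _ (sub_injective (V S)), card_univ, Fintype.card_fun]
          push_cast
          rfl
        rw [e2]
        exact e1.trans (r2 S)
      have c6 := sum_le_sum c5
      rw [← mul_sum, sum_attach 𝒱 (fun S => (S.card : ℝ))] at c6
      have c7 : ∑ S ∈ 𝒱, (S.card : ℝ) ≤ (Fintype.card (Option α) : ℝ) ^ Fintype.card ι := by
        have e1 : (𝒱.biUnion id).card = ∑ S ∈ 𝒱, S.card := card_biUnion h3
        have e2 : (𝒱.biUnion id).card ≤ Fintype.card (ι → Option α) := card_le_univ _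
        rw [e1, Fintype.card_fun] at e2
        exact_mod_cast e2
      have c8 := mul_le_mul_of_nonneg_left c7 (by linarith : 0 ≤ β / 2)
      linarith

theorem tile_all {α : Type} [Fintype α] [Nonempty α] (h : MHJ α) (d : ℕ) (β : ℝ) (hβ : 0 < β) :
    ∃ M : ℕ, ∀ (ι : Type) [Fintype ι] [DecidableEq ι], M ≤ Fintype.card ι →
      ∀ (D : α → Finset (ι → Option α)), (∀ a, Ins a (D a)) →
      ∀ E : Finset (ι → Option α), (∀ x, x ∈ E ↔ ∀ a, x ∈ D a) → Tiled d β E := by
  obtain ⟨M, hM⟩ := tileAll_aux h univ d β hβ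
  refine ⟨M, fun ι _ _ hι D hD E hE => hM ι hι D (fun a _ => hD a) E fun x => ?_⟩
  rw [hE]
  exact ⟨fun h1 a _ => h1 a, fun h1 a => h1 a (mem_univ a)⟩

end Pool.Agent.Lib.DHJ
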