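import Pool.Agent.Lib.DHJ.Multi
import Pool.Agent.Lib.DHJ.TileAll

/-!
# DHJ-Incr: density increment on a subspace

`A'` is a line-free set of words, `D a` insensitive sets whose intersection has density at least `θ/4`, and `A'` meets this
intersection at most in words without the letter `none`. Then `A'` has a density increment on a `d`-dimensional subspace.

PROOF. `K := |α| + 1`, `k := |α|`, `γ := δ θ / 16`, `β := δ θ / (16 k)`, `M` := the maximum of the number of
`tile_all h d β` and of a number `M'` with `(k / K)^m ≤ δ θ / 32` for `m ≥ M'`. Let `m ≥ M`, densities are relative to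
`K^m`. Fix an enumeration `α ≃ Fin k`. For `i : α` let `P_i := {x | x ∈ D j for j < i, x ∉ D i}`; the `P_i` are a
partition of the complement of `D := ⋂ D j` (first index with `x ∉ D i`). So
`∑_i |A' ∩ P_i| = |A' \ D| ≥ |A'| - (number of words without none) ≥ (δ - δθ/32 - δθ/32) K^m`,
`∑_i |P_i| = K^m - |D| ≤ (1 - θ/4) K^m`, so
`∑_i (|A' ∩ P_i| - (δ + γ) |P_i|) ≥ (δ - δθ/16 - (δ + γ)(1 - θ/4)) K^m ≥ (δθ/4 - δθ/16 - γ) K^m ≥ (δθ/8) K^m`, and some `i` has
`|A' ∩ P_i| ≥ (δ + γ)|P_i| + (δθ/(8k)) K^m`. `P_i` is the intersection of the sets `E j`, `E j := D j` (`j < i`),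
`E i := univ \ D i`, `E j := univ` (`j > i`), insensitive for `j`. `tile_all` gives disjoint `d`-dimensional `S ⊆ P_i`
with `|P_i| ≤ ∑ |S| + β K^m`. If `|A' ∩ S| < (δ + γ)|S|` for all `S` then `|A' ∩ P_i| ≤ ∑ |A' ∩ S| + β K^m ≤
(δ+γ)|P_i| + β K^m`, a contradiction as `β < δθ/(8k)`. So some `S`, the points of `V : Subspace (Fin d) (Option α) (Fin m)`, has
`|A' ∩ S| ≥ (δ+γ)|S|`, `|S| = K^d` (`sub_injective`; for `d = 0` also fine), and `|A' ∩ S| = |{z | V z ∈ A'}|`.
-/

set_option autoImplicit false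

open Finset Combinatorics

namespace Pool.Agent.Lib.DHJ

private theorem incr_tile {X : Type} [DecidableEq X] (A P : Finset X) (𝒱 : Finset (Finset X))
    (hS : ∀ S ∈ 𝒱, S ⊆ P) (hd : (𝒱 : Set (Finset X)).PairwiseDisjoint id) (c b : ℝ) (hc : 0 ≤ c)
    (hb : (P.card : ℝ) ≤ ∑ S ∈ 𝒱, (S.card : ℝ) + b)
    (hlt : c * (P.card : ℝ) + b < ((A ∩ P).card : ℝ)) :
    ∃ S ∈ 𝒱, c * (S.card : ℝ) ≤ ((A ∩ S).card : ℝ) := by
  by_contra hcon
  push Not at hcon
  have hU : ((𝒱.biUnion id).card : ℝ) = ∑ S ∈ 𝒱, (S.card : ℝ) := by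
    rw [card_biUnion hd]
    push_cast
    rfl
  have hUP : 𝒱.biUnion id ⊆ P := by
    intro x hx
    obtain ⟨S, hSV, hxS⟩ := mem_biUnion.1 hx
    exact hS S hSV hxS
  have h1 : A ∩ P ⊆ (𝒱.biUnion fun S => A ∩ S) ∪ (P \ 𝒱.biUnion id) := by
    intro x hx
    obtain ⟨hxA, hxP⟩ := mem_inter.1 hx
    by_cases hxU : x ∈ 𝒱.biUnion id
    · obtain ⟨S, hSV, hxS⟩ := mem_biUnion.1 hxU
      exact mem_union_left _ (mem_biUnion.2 ⟨S, hSV, mem_inter.2 ⟨hxA, hxS⟩⟩)
    · exact mem_union_right _ (mem_sdiff.2 ⟨hxP, hxU⟩)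
  have h2 : (A ∩ P).card ≤ (∑ S ∈ 𝒱, (A ∩ S).card) + (P \ 𝒱.biUnion id).card :=
    (card_le_card h1).trans ((card_union_le _ _).trans (Nat.add_le_add_right card_biUnion_le _))
  have h3 : (P \ 𝒱.biUnion id).card + (𝒱.biUnion id).card = P.card :=
    card_sdiff_add_card_eq_card hUP
  have h2' : ((A ∩ P).card : ℝ) ≤ (∑ S ∈ 𝒱, ((A ∩ S).card : ℝ)) + ((P \ 𝒱.biUnion id).card : ℝ) := by
    exact_mod_cast h2
  have h3' : ((P \ 𝒱.biUnion id).card : ℝ) + ((𝒱.biUnion id).card : ℝ) = (P.card : ℝ) := by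
    exact_mod_cast h3
  have h4 : ∑ S ∈ 𝒱, ((A ∩ S).card : ℝ) ≤ c * ∑ S ∈ 𝒱, (S.card : ℝ) := by
    rw [mul_sum]
    exact sum_le_sum fun S hSV => (hcon S hSV).le
  have h5 : ∑ S ∈ 𝒱, (S.card : ℝ) ≤ (P.card : ℝ) := by
    rw [← hU]
    exact_mod_cast card_le_card hUP
  have h6 := mul_le_mul_of_nonneg_left h5 hc
  linarith

open Classical in
/-- the words outside the intersection whose first bad index is `i` -/
private noncomputable def incrP {α X : Type} [Fintype X] {n : ℕ} (e : α ≃ Fin n)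
    (D : α → Finset X) (i : α) : Finset X :=
  univ.filter fun x => (∀ j, e j < e i → x ∈ D j) ∧ x ∉ D i

private theorem mem_incrP {α X : Type} [Fintype X] {n : ℕ} (e : α ≃ Fin n)
    (D : α → Finset X) (i : α) (x : X) :
    x ∈ incrP e D i ↔ (∀ j, e j < e i → x ∈ D j) ∧ x ∉ D i := by
  classical
  unfold incrP
  simp only [mem_filter, mem_univ, true_and]

private theorem incrP_disj {α X : Type} [Fintype X] {n : ℕ} (e : α ≃ Fin n)
    (D : α → Finset X) {i j : α} (hij : i ≠ j) : Disjoint (incrP e D i) (incrP e D j) := by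
  rw [disjoint_left]
  intro x hx hx'
  rw [mem_incrP] at hx hx'
  rcases lt_trichotomy (e i) (e j) with h | h | h
  · exact hx.2 (hx'.1 i h)
  · exact hij (e.injective h)
  · exact hx'.2 (hx.1 j h)

private theorem incrP_cover {α X : Type} [Fintype α] [Fintype X] {n : ℕ} (e : α ≃ Fin n)
    (D : α → Finset X) (x : X) (hx : ¬ ∀ a, x ∈ D a) : ∃ i, x ∈ incrP e D i := by
  classical
  push Not at hx
  obtain ⟨a, ha⟩ := hx
  obtain ⟨i, hi, hmin⟩ := exists_min_image (univ.filter fun a => x ∉ D a) (fun a => e a)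
    ⟨a, mem_filter.2 ⟨mem_univ _, ha⟩⟩
  refine ⟨i, ?_⟩
  rw [mem_incrP]
  refine ⟨fun j hj => ?_, (mem_filter.1 hi).2⟩
  by_contra hjx
  exact absurd (hmin j (mem_filter.2 ⟨mem_univ _, hjx⟩)) (not_le.2 hj)

private theorem incrP_sum {α X : Type} [Fintype α] [Fintype X] {n : ℕ} (e : α ≃ Fin n)
    (D : α → Finset X) (F : Finset X) (hF : ∀ x ∈ F, ∀ a, x ∈ D a) :
    (∑ i, (incrP e D i).card) + F.card ≤ Fintype.card X := by
  classical
  have h1 : (univ.biUnion fun i => incrP e D i).card = ∑ i, (incrP e D i).card :=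
    card_biUnion fun i _ j _ hij => incrP_disj e D hij
  have h2 : Disjoint (univ.biUnion fun i => incrP e D i) F := by
    rw [disjoint_left]
    intro x hx hx'
    obtain ⟨i, _, hi⟩ := mem_biUnion.1 hx
    rw [mem_incrP] at hi
    exact hi.2 (hF x hx' i)
  rw [← h1, ← card_union_of_disjoint h2]
  exact card_le_univ _

private theorem incrP_le {α X : Type} [Fintype α] [Fintype X] [DecidableEq X] {n : ℕ}
    (e : α ≃ Fin n) (D : α → Finset X) (A B : Finset X)
    (hB : ∀ x ∈ A, (∀ a, x ∈ D a) → x ∈ B) :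
    A.card ≤ (∑ i, (A ∩ incrP e D i).card) + B.card := by
  have h1 : A ⊆ (univ.biUnion fun i => A ∩ incrP e D i) ∪ B := by
    intro x hx
    by_cases h : ∀ a, x ∈ D a
    · exact mem_union_right _ (hB x hx h)
    · obtain ⟨i, hi⟩ := incrP_cover e D x h
      exact mem_union_left _ (mem_biUnion.2 ⟨i, mem_univ _, mem_inter.2 ⟨hx, hi⟩⟩)
  exact (card_le_card h1).trans ((card_union_le _ _).trans (Nat.add_le_add_right card_biUnion_le _))

private theorem incr_nonone {α : Type} [Fintype α] {m : ℕ} (B : Finset (Fin m → Option α))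
    (hB : ∀ x ∈ B, ∀ i, x i ≠ none) : B.card ≤ Fintype.card α ^ m := by
  classical
  have h1 : B ⊆ (univ : Finset (Fin m → α)).image fun u i => some (u i) := by
    intro x hx
    have h2 : ∀ i, ∃ a, x i = some a := fun i => Option.ne_none_iff_exists'.1 (hB x hx i)
    choose u hu using h2
    exact mem_image.2 ⟨u, mem_univ _, funext fun i => (hu i).symm⟩
  refine (card_le_card h1).trans (card_image_le.trans ?_)
  rw [card_univ, Fintype.card_fun, Fintype.card_fin]

open Classical in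
theorem increment {α : Type} [Fintype α] [Nonempty α] (h : MHJ α) (δ θ : ℝ) (hδ : 0 < δ) (hδ1 : δ ≤ 1)
    (hθ : 0 < θ) (hθ1 : θ ≤ 1) (d : ℕ) :
    ∃ M : ℕ, ∀ m : ℕ, M ≤ m → ∀ (A' : Finset (Fin m → Option α)) (D : α → Finset (Fin m → Option α)),
      (δ - δ * θ / 32) * ((Fintype.card α : ℝ) + 1) ^ m ≤ (A'.card : ℝ) → (∀ a, Ins a (D a)) →
      θ / 4 * ((Fintype.card α : ℝ) + 1) ^ m ≤ ((univ.filter fun x => ∀ a, x ∈ D a).card : ℝ) →
      (∀ x ∈ A', (∀ a, x ∈ D a) → ∀ i, x i ≠ none) →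
      ∃ V : Subspace (Fin d) (Option α) (Fin m),
        (δ + δ * θ / 16) * ((Fintype.card α : ℝ) + 1) ^ d ≤
          ((univ.filter fun z : Fin d → Option α => V z ∈ A').card : ℝ) := by
  obtain ⟨k, hk⟩ : ∃ k : ℝ, k = (Fintype.card α : ℝ) := ⟨_, rfl⟩
  have hk1 : 1 ≤ k := by
    rw [hk]
    exact_mod_cast Fintype.card_pos
  have hk0 : 0 < k := by linarith
  have hδθ : 0 < δ * θ := mul_pos hδ hθ
  obtain ⟨M1, hM1⟩ := tile_all h d (δ * θ / (16 * k)) (by positivity)
  have hlt1 : k / (k + 1) < 1 := by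
    rw [div_lt_one (by linarith)]
    linarith
  have hge0 : 0 ≤ k / (k + 1) := by positivity
  obtain ⟨M2, hM2⟩ := exists_pow_lt_of_lt_one (show 0 < δ * θ / 32 by positivity) hlt1
  refine ⟨max M1 M2, fun m hm A' D hA' hD hDc hno => ?_⟩
  have hm1 : M1 ≤ m := (le_max_left _ _).trans hm
  have hm2 : M2 ≤ m := (le_max_right _ _).trans hm
  rw [← hk] at hA' hDc ⊢
  obtain ⟨Q, hQ⟩ : ∃ Q : ℝ, Q = (k + 1) ^ m := ⟨_, rfl⟩
  have hQ0 : 0 < Q := by
    rw [hQ]
    positivity
  have hkm : k ^ m ≤ δ * θ / 32 * Q := by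
    have h1 : (k / (k + 1)) ^ m ≤ δ * θ / 32 :=
      (pow_le_pow_of_le_one hge0 hlt1.le hm2).trans hM2.le
    rw [div_pow, ← hQ, div_le_iff₀ hQ0] at h1
    exact h1
  rw [← hQ] at hA' hDc
  have hcardX : (Fintype.card (Fin m → Option α) : ℝ) = Q := by
    rw [Fintype.card_fun, Fintype.card_option, Fintype.card_fin, hQ, hk]
    push_cast
    rfl
  let e : α ≃ Fin (Fintype.card α) := Fintype.equivFin α
  have hs1 := incrP_sum e D (univ.filter fun x => ∀ a, x ∈ D a) fun x hx => (mem_filter.1 hx).2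
  have hs2 := incrP_le e D A' (A'.filter fun x => ∀ a, x ∈ D a)
    fun x hx hxa => mem_filter.2 ⟨hx, hxa⟩
  have hs3 : (A'.filter fun x => ∀ a, x ∈ D a).card ≤ Fintype.card α ^ m := by
    refine incr_nonone _ fun x hx => ?_
    rw [mem_filter] at hx
    exact hno x hx.1 hx.2
  have hs1' : (∑ i, ((incrP e D i).card : ℝ)) + ((univ.filter fun x => ∀ a, x ∈ D a).card : ℝ) ≤ Q := by
    rw [← hcardX]
    exact_mod_cast hs1
  have hs2' : (A'.card : ℝ) ≤ (∑ i, ((A' ∩ incrP e D i).card : ℝ)) +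
      ((A'.filter fun x => ∀ a, x ∈ D a).card : ℝ) := by
    exact_mod_cast hs2
  have hs3' : ((A'.filter fun x => ∀ a, x ∈ D a).card : ℝ) ≤ k ^ m := by
    rw [hk]
    exact_mod_cast hs3
  obtain ⟨s1, hs1d⟩ : ∃ s, s = ∑ i, ((incrP e D i).card : ℝ) := ⟨_, rfl⟩
  obtain ⟨s2, hs2d⟩ : ∃ s, s = ∑ i, ((A' ∩ incrP e D i).card : ℝ) := ⟨_, rfl⟩
  rw [← hs1d] at hs1'
  rw [← hs2d] at hs2'
  have hbig : δ * θ / 8 * Q ≤ s2 - (δ + δ * θ / 16) * s1 := by
    have h1 : s1 ≤ Q - θ / 4 * Q := by linarith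
    have h2 : (δ + δ * θ / 16) * s1 ≤ (δ + δ * θ / 16) * (Q - θ / 4 * Q) :=
      mul_le_mul_of_nonneg_left h1 (by positivity)
    have h3 : (δ - δ * θ / 16) * Q ≤ s2 := by
      have : (δ - δ * θ / 16) * Q = (δ - δ * θ / 32) * Q - δ * θ / 32 * Q := by ring
      linarith
    have h4 : 0 ≤ δ * θ * θ * Q := by positivity
    have h5 : (δ + δ * θ / 16) * (Q - θ / 4 * Q) =
        δ * Q + δ * θ / 16 * Q - δ * θ / 4 * Q - δ * θ * θ * Q / 64 := by ring
    have h6 : (δ - δ * θ / 16) * Q = δ * Q - δ * θ / 16 * Q := by ring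
    linarith
  have hex : ∃ i : α, δ * θ / (8 * k) * Q ≤
      ((A' ∩ incrP e D i).card : ℝ) - (δ + δ * θ / 16) * ((incrP e D i).card : ℝ) := by
    by_contra hcon
    push Not at hcon
    have h1 : ∑ i : α, (((A' ∩ incrP e D i).card : ℝ) - (δ + δ * θ / 16) * ((incrP e D i).card : ℝ)) <
        ∑ _i : α, δ * θ / (8 * k) * Q :=
      sum_lt_sum_of_nonempty univ_nonempty fun i _ => hcon i
    rw [sum_sub_distrib, ← mul_sum, ← hs1d, ← hs2d, sum_const, card_univ, nsmul_eq_mul, ← hk] at h1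
    have h2 : k * (δ * θ / (8 * k) * Q) = δ * θ / 8 * Q := by
      field_simp
    rw [h2] at h1
    linarith
  obtain ⟨i, hi⟩ := hex
  -- the tiling
  have hE : ∀ a, Ins a (if e a < e i then D a else if a = i then univ \ D i else
      (univ : Finset (Fin m → Option α))) := by
    intro a x
    by_cases h1 : e a < e i
    · rw [if_pos h1]
      exact hD a x
    · rw [if_neg h1]
      by_cases h2 : a = i
      · subst h2
        rw [if_pos rfl, mem_sdiff, mem_sdiff]
        constructor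
        · rintro ⟨_, h4⟩
          exact ⟨mem_univ _, fun h5 => h4 ((hD a x).2 h5)⟩
        · rintro ⟨_, h4⟩
          exact ⟨mem_univ _, fun h5 => h4 ((hD a x).1 h5)⟩
      · rw [if_neg h2]
        exact ⟨fun _ => mem_univ _, fun _ => mem_univ _⟩
  have hmem : ∀ x, x ∈ incrP e D i ↔ ∀ a, x ∈ (if e a < e i then D a else
      if a = i then univ \ D i else (univ : Finset (Fin m → Option α))) := by
    intro x
    rw [mem_incrP]
    constructor
    · rintro ⟨h1, h2⟩ a
      by_cases h3 : e a < e i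
      · rw [if_pos h3]
        exact h1 a h3
      · rw [if_neg h3]
        by_cases h4 : a = i
        · rw [if_pos h4]
          exact mem_sdiff.2 ⟨mem_univ _, h2⟩
        · rw [if_neg h4]
          exact mem_univ _
    · intro h1
      refine ⟨fun j hj => ?_, ?_⟩
      · have h2 := h1 j
        rw [if_pos hj] at h2
        exact h2
      · have h2 := h1 i
        rw [if_neg (lt_irrefl _), if_pos rfl, mem_sdiff] at h2
        exact h2.2
  obtain ⟨𝒱, hV1, hV2, hV3, hV4⟩ := hM1 (Fin m) (by rw [Fintype.card_fin]; exact hm1) _ hE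
    (incrP e D i) hmem
  have hpow : (Fintype.card (Option α) : ℝ) ^ Fintype.card (Fin m) = Q := by
    rw [Fintype.card_option, Fintype.card_fin, hQ, hk]
    push_cast
    rfl
  rw [hpow] at hV4
  have hlt : (δ + δ * θ / 16) * ((incrP e D i).card : ℝ) + δ * θ / (16 * k) * Q <
      ((A' ∩ incrP e D i).card : ℝ) := by
    have h1 : δ * θ / (8 * k) * Q = δ * θ / (16 * k) * Q + δ * θ / (16 * k) * Q := by
      field_simp
      ring
    have h2 : 0 < δ * θ / (16 * k) * Q := by positivity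
    linarith
  obtain ⟨S, hSV, hS⟩ := incr_tile A' (incrP e D i) 𝒱 hV2 hV3 (δ + δ * θ / 16)
    (δ * θ / (16 * k) * Q) (by positivity) hV4 hlt
  obtain ⟨V, hV⟩ := hV1 S hSV
  refine ⟨V, ?_⟩
  have hSc : (S.card : ℝ) = (k + 1) ^ d := by
    have h1 : S = (univ : Finset (Fin d → Option α)).image fun z => V z := by
      ext x
      rw [hV x, mem_image]
      constructor
      · rintro ⟨z, hz⟩
        exact ⟨z, mem_univ _, hz⟩
      · rintro ⟨z, _, hz⟩
        exact ⟨z, hz⟩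
    rw [h1, card_image_of_injective _ (sub_injective V), card_univ, Fintype.card_fun,
      Fintype.card_option, Fintype.card_fin, hk]
    push_cast
    rfl
  have hSA : (A' ∩ S).card = (univ.filter fun z : Fin d → Option α => V z ∈ A').card := by
    have h1 : A' ∩ S = (univ.filter fun z : Fin d → Option α => V z ∈ A').image fun z => V z := by
      ext x
      rw [mem_inter, hV x, mem_image]
      constructor
      · rintro ⟨hx, z, hz⟩
        exact ⟨z, mem_filter.2 ⟨mem_univ _, by rw [hz]; exact hx⟩, hz⟩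
      · rintro ⟨z, hz1, hz⟩
        refine ⟨?_, z, hz⟩
        rw [← hz]
        exact (mem_filter.1 hz1).2
    rw [h1, card_image_of_injective _ (sub_injective V)]
  rw [hSA, hSc] at hS
  exact hS

end Pool.Agent.Lib.DHJ
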