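import Pool.Agent.Lib.DHJ.Defs

/-!
# DHJ-InsSub: a dense insensitive set contains a subspace over `Option α`

PROOF. Let `K := |α| + 1`, let `N` be the number of `h` for `(d, β / 2)`; we may take `N ≥ 1` (replace it by
`max 1 N`). Choose `s ≥ 1` with `N (|α|+1)^(-s) ≤ β / 2`... precisely `N ≤ (β/2) K^s` (`K ≥ 2`), and `M := N s`.
Let `|ι| ≥ M`, `D` insensitive for `a`, `|D| ≥ β K^|ι|`.
(1) For a word `x : ι → Option α` let `T(x) := {i | x i ≠ none}`. FEW WORDS HAVE `|T(x)| < N`: take an injection
`j : Fin N × Fin s → ι`; if `|T(x)| < N` then for some `t : Fin N` all `x (j (t, ·))` are `none` (otherwise `T(x)` has an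
element in each of the `N` disjoint blocks); for a fixed `t` there are exactly `K^(|ι| - s)` words with this property
(or: at most, by injecting words into words times ..., or: the product of cardinalities `Fintype.card_pi`/`piFinset`).
So at most `N K^(|ι|-s) ≤ (β/2) K^|ι|` words.
(2) So `D' := {x ∈ D | N ≤ |T(x)|}` has at least `(β/2) K^|ι|` elements. Fibre over the set `T(x)`: the words `x` with
`T(x) = T` are in bijection with `{i // i ∈ T} → α`, and `∑_T |α|^|T| = K^|ι|` (all words). So some `T` with `|T| ≥ N`
has `|{x ∈ D : T(x) = T}| ≥ (β/2) |α|^|T|` (otherwise sum over `T`).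
(3) Let `B := {u : {i // i ∈ T} → α | the word with value some (u i) on T and none outside is in D}`. `h` gives
`U : Subspace (Fin d) α {i // i ∈ T}` with all points in `B`. Define `V : Subspace (Fin d) (Option α) ι`:
`idxFun i = if i ∈ T then (U.idxFun ⟨i, _⟩).map some id else Sum.inl none`. For `z : Fin d → Option α`,
`rep a (V z)` and `rep a (V (rep a z))` are equal; `V (rep a z)` is the word of `B` belonging to
`U (fun e => (z e).getD a)`, so it is in `D`; `D` is insensitive, so `rep a (V (rep a z)) ∈ D`, `V z ∈ D`.
-/

set_option autoImplicit false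

open Finset Combinatorics

namespace Pool.Agent.Lib.DHJ

/-- the support of a word -/
private def InsSub_T {α ι : Type} [Fintype ι] [DecidableEq α] (x : ι → Option α) : Finset ι :=
  univ.filter fun i => x i ≠ none

/-- few words have a small support -/
private theorem InsSub_few {α ι : Type} [Fintype α] [DecidableEq α] [Fintype ι] [DecidableEq ι]
    (N s : ℕ) (hM : N * s ≤ Fintype.card ι) :
    ((univ.filter fun x : ι → Option α => (InsSub_T x).card < N).card : ℝ) *
      ((Fintype.card α : ℝ) + 1) ^ s ≤ N * ((Fintype.card α : ℝ) + 1) ^ Fintype.card ι := by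
  classical
  obtain ⟨j⟩ : Nonempty (Fin N × Fin s ↪ ι) := by
    refine Function.Embedding.nonempty_of_card_le ?_
    rw [Fintype.card_prod, Fintype.card_fin, Fintype.card_fin]
    exact hM
  have hcov : (univ.filter fun x : ι → Option α => (InsSub_T x).card < N) ⊆
      univ.biUnion fun t : Fin N => Fintype.piFinset fun i : ι =>
        if i ∈ univ.image (fun r : Fin s => j (t, r)) then ({none} : Finset (Option α)) else univ := by
    intro x hx
    rw [Finset.mem_filter] at hx
    by_contra hno
    have h1 : ∀ t : Fin N, ∃ r : Fin s, x (j (t, r)) ≠ none := by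
      intro t
      by_contra hcon
      push Not at hcon
      apply hno
      rw [Finset.mem_biUnion]
      refine ⟨t, Finset.mem_univ _, ?_⟩
      rw [Fintype.mem_piFinset]
      intro i
      split_ifs with hi
      · rw [Finset.mem_image] at hi
        obtain ⟨r, -, rfl⟩ := hi
        rw [Finset.mem_singleton]
        exact hcon r
      · exact Finset.mem_univ _
    choose r hr using h1
    have h2 : N ≤ (InsSub_T x).card := by
      have h3 : (univ : Finset (Fin N)).card ≤ (InsSub_T x).card := by
        refine Finset.card_le_card_of_injOn (fun t => j (t, r t)) ?_ ?_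
        · intro t _
          simp only [InsSub_T, Finset.coe_filter, Finset.mem_univ, true_and, Set.mem_ofPred_eq]
          exact hr t
        · intro t _ t' _ htt
          exact congrArg Prod.fst (j.injective htt)
      rw [Finset.card_univ, Fintype.card_fin] at h3
      exact h3
    exact absurd hx.2 (not_lt.2 h2)
  have hone : ∀ t : Fin N, ((Fintype.piFinset fun i : ι =>
      if i ∈ univ.image (fun r : Fin s => j (t, r)) then ({none} : Finset (Option α))
        else univ).card : ℝ) * ((Fintype.card α : ℝ) + 1) ^ s =
      ((Fintype.card α : ℝ) + 1) ^ Fintype.card ι := by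
    intro t
    obtain ⟨R, hR⟩ : ∃ R : Finset ι, R = univ.image (fun r : Fin s => j (t, r)) := ⟨_, rfl⟩
    have hRc : R.card = s := by
      rw [hR, Finset.card_image_of_injective, Finset.card_univ, Fintype.card_fin]
      intro a b hab
      exact congrArg Prod.snd (j.injective hab)
    rw [← hR, Fintype.card_piFinset]
    have h1 : ∏ i : ι, (if i ∈ R then ({none} : Finset (Option α)) else univ).card =
        (Fintype.card α + 1) ^ (Fintype.card ι - s) := by
      have h2 : ∀ i : ι, (if i ∈ R then ({none} : Finset (Option α)) else univ).card =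
          if i ∈ R then 1 else Fintype.card α + 1 := by
        intro i
        split_ifs
        · rfl
        · rw [Finset.card_univ, Fintype.card_option]
      rw [Finset.prod_congr rfl fun i _ => h2 i, Finset.prod_ite, Finset.prod_const_one, one_mul,
        Finset.prod_const]
      congr 1
      have h3 : univ.filter (fun i => i ∉ R) = Rᶜ := by
        ext i
        simp
      rw [h3, Finset.card_compl, hRc]
    have hs : s ≤ Fintype.card ι := by
      rw [← hRc]
      exact Finset.card_le_univ R
    rw [h1]
    push_cast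
    rw [← pow_add, Nat.sub_add_cancel hs]
  have h4 := (Finset.card_le_card hcov).trans Finset.card_biUnion_le
  have hK : (0 : ℝ) ≤ ((Fintype.card α : ℝ) + 1) ^ s := by positivity
  have h5 : ((univ.filter fun x : ι → Option α => (InsSub_T x).card < N).card : ℝ) ≤
      ∑ t : Fin N, ((Fintype.piFinset fun i : ι =>
        if i ∈ univ.image (fun r : Fin s => j (t, r)) then ({none} : Finset (Option α))
          else univ).card : ℝ) := by
    exact_mod_cast h4
  refine (mul_le_mul_of_nonneg_right h5 hK).trans ?_
  rw [Finset.sum_mul, Finset.sum_congr rfl fun t _ => hone t, Finset.sum_const, Finset.card_univ,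
    Fintype.card_fin, nsmul_eq_mul]

theorem ins_subspace {α : Type} [Fintype α] [Nonempty α] (h : MHJ α) (d : ℕ) (β : ℝ) (hβ : 0 < β) :
    ∃ M : ℕ, ∀ (ι : Type) [Fintype ι] [DecidableEq ι], M ≤ Fintype.card ι → ∀ (a : α)
      (D : Finset (ι → Option α)), Ins a D →
      β * ((Fintype.card α : ℝ) + 1) ^ Fintype.card ι ≤ (D.card : ℝ) →
      ∃ V : Subspace (Fin d) (Option α) ι, ∀ z, V z ∈ D := by
  classical
  obtain ⟨N, hN⟩ := h d (β / 2) (by positivity)
  have hc1 : (1 : ℝ) ≤ (Fintype.card α : ℝ) := by exact_mod_cast Fintype.card_pos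
  obtain ⟨c, hc⟩ : ∃ c : ℝ, c = (Fintype.card α : ℝ) := ⟨_, rfl⟩
  obtain ⟨s, hs⟩ := pow_unbounded_of_one_lt ((N : ℝ) / (β / 2)) (show (1 : ℝ) < c + 1 by
    rw [hc]
    linarith)
  have hs' : (N : ℝ) ≤ β / 2 * (c + 1) ^ s := by
    rw [div_lt_iff₀ (by positivity)] at hs
    linarith
  refine ⟨N * s, fun ι _ _ hM a D hD hcard => ?_⟩
  rw [← hc] at hcard
  have hK0 : (0 : ℝ) < (c + 1) ^ s := by
    rw [hc]
    positivity
  have hKi : (0 : ℝ) < (c + 1) ^ Fintype.card ι := by
    rw [hc]
    positivity
  -- few words with a small support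
  have hfew : ((univ.filter fun x : ι → Option α => (InsSub_T x).card < N).card : ℝ) ≤
      β / 2 * (c + 1) ^ Fintype.card ι := by
    have h1 := InsSub_few (α := α) (ι := ι) N s hM
    rw [← hc] at h1
    have h2 : (N : ℝ) * (c + 1) ^ Fintype.card ι ≤
        β / 2 * (c + 1) ^ s * (c + 1) ^ Fintype.card ι :=
      mul_le_mul_of_nonneg_right hs' hKi.le
    have h3 : ((univ.filter fun x : ι → Option α => (InsSub_T x).card < N).card : ℝ) *
        (c + 1) ^ s ≤ β / 2 * (c + 1) ^ Fintype.card ι * (c + 1) ^ s := by
      refine h1.trans (h2.trans (le_of_eq ?_))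
      ring
    exact le_of_mul_le_mul_right h3 hK0
  obtain ⟨D', hD'⟩ : ∃ D' : Finset (ι → Option α),
      D' = D.filter fun x => N ≤ (InsSub_T x).card := ⟨_, rfl⟩
  have hD'c : β / 2 * (c + 1) ^ Fintype.card ι ≤ (D'.card : ℝ) := by
    have h1 : D.card ≤ D'.card +
        (univ.filter fun x : ι → Option α => (InsSub_T x).card < N).card := by
      refine (Finset.card_le_card ?_).trans (Finset.card_union_le _ _)
      intro x hx
      rw [Finset.mem_union, hD', Finset.mem_filter, Finset.mem_filter]
      rcases le_or_gt N (InsSub_T x).card with h2 | h2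
      · exact Or.inl ⟨hx, h2⟩
      · exact Or.inr ⟨Finset.mem_univ _, h2⟩
    have h2 : (D.card : ℝ) ≤ D'.card +
        (univ.filter fun x : ι → Option α => (InsSub_T x).card < N).card := by
      exact_mod_cast h1
    linarith
  -- one support
  obtain ⟨T, hT⟩ : ∃ T : Finset ι, β / 2 * c ^ T.card ≤
      ((D'.filter fun x => InsSub_T x = T).card : ℝ) := by
    by_contra hcon
    push Not at hcon
    have h1 : D'.card = ∑ T ∈ (univ : Finset ι).powerset,
        (D'.filter fun x => InsSub_T x = T).card :=
      Finset.card_eq_sum_card_fiberwise fun x _ => by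
        rw [Finset.mem_coe, Finset.mem_powerset]
        exact Finset.subset_univ _
    have h2 : (D'.card : ℝ) < ∑ T ∈ (univ : Finset ι).powerset, β / 2 * c ^ T.card := by
      rw [h1]
      push_cast
      exact Finset.sum_lt_sum_of_nonempty ⟨∅, Finset.empty_mem_powerset _⟩ fun T _ => hcon T
    have h3 : ∑ T ∈ (univ : Finset ι).powerset, β / 2 * c ^ T.card =
        β / 2 * (c + 1) ^ Fintype.card ι := by
      rw [← Finset.mul_sum]
      congr 1
      have h4 := Finset.sum_pow_mul_eq_add_pow c 1 (univ : Finset ι)
      rw [Finset.card_univ] at h4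
      rw [← h4]
      refine Finset.sum_congr rfl fun t _ => ?_
      rw [one_pow, mul_one]
    rw [h3] at h2
    linarith
  have hc0 : 0 < c := by
    rw [hc]
    linarith
  have hTN : N ≤ T.card := by
    have h1 : (0 : ℝ) < ((D'.filter fun x => InsSub_T x = T).card : ℝ) :=
      lt_of_lt_of_le (by positivity) hT
    have h2 : 0 < (D'.filter fun x => InsSub_T x = T).card := by exact_mod_cast h1
    obtain ⟨x, hx⟩ := Finset.card_pos.1 h2
    rw [Finset.mem_filter, hD', Finset.mem_filter] at hx
    rw [← hx.2]
    exact hx.1.2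
  obtain ⟨word, hword⟩ : ∃ word : ({i // i ∈ T} → α) → ι → Option α, word = fun u i =>
      if hi : i ∈ T then some (u ⟨i, hi⟩) else none := ⟨_, rfl⟩
  obtain ⟨B, hB⟩ : ∃ B : Finset ({i // i ∈ T} → α), B = univ.filter fun u => word u ∈ D :=
    ⟨_, rfl⟩
  have hBc : β / 2 * (Fintype.card α : ℝ) ^ Fintype.card {i // i ∈ T} ≤ (B.card : ℝ) := by
    rw [Fintype.card_coe, ← hc]
    refine hT.trans ?_
    have h1 : (D'.filter fun x => InsSub_T x = T) ⊆ B.image word := by
      intro x hx
      rw [Finset.mem_filter, hD', Finset.mem_filter] at hx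
      obtain ⟨⟨hxD, -⟩, hxT⟩ := hx
      have h2 : word (fun i => (x i.1).getD a) = x := by
        funext i
        rw [hword]
        by_cases hi : i ∈ T
        · simp only [dif_pos hi]
          have h3 : x i ≠ none := by
            rw [← hxT] at hi
            exact (Finset.mem_filter.1 hi).2
          rcases hxi : x i with _ | b
          · exact absurd hxi h3
          · rfl
        · simp only [dif_neg hi]
          by_contra h3
          apply hi
          rw [← hxT]
          exact Finset.mem_filter.2 ⟨Finset.mem_univ _, fun h4 => h3 h4.symm⟩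
      rw [Finset.mem_image]
      refine ⟨fun i => (x i.1).getD a, ?_, h2⟩
      rw [hB, Finset.mem_filter]
      refine ⟨Finset.mem_univ _, ?_⟩
      rw [h2]
      exact hxD
    exact_mod_cast (Finset.card_le_card h1).trans Finset.card_image_le
  obtain ⟨U, hU⟩ := hN {i // i ∈ T} (by rw [Fintype.card_coe]; exact hTN) B hBc
  refine ⟨⟨fun i => if hi : i ∈ T then (U.idxFun ⟨i, hi⟩).map some id else Sum.inl none,
    fun e => ?_⟩, fun z => ?_⟩
  · obtain ⟨i, hi⟩ := U.proper e
    refine ⟨i.1, ?_⟩
    rw [dif_pos i.2, hi]
    rfl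
  · have h1 := hU fun e => (z e).getD a
    rw [hB, Finset.mem_filter, hD] at h1
    rw [hD]
    have h2 := h1.2
    have h3 : rep a (word (U fun e => (z e).getD a)) = rep a
        ((⟨fun i => if hi : i ∈ T then (U.idxFun ⟨i, hi⟩).map some id else Sum.inl none,
          fun e => by
            obtain ⟨i, hi⟩ := U.proper e
            refine ⟨i.1, ?_⟩
            rw [dif_pos i.2, hi]
            rfl⟩ : Subspace (Fin d) (Option α) ι) z) := by
      funext i
      rw [rep_apply, rep_apply, hword]
      congr 1
      simp only [Subspace.apply_def]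
      by_cases hi : i ∈ T
      · simp only [dif_pos hi]
        rcases U.idxFun ⟨i, hi⟩ with b | e <;> rfl
      · simp only [dif_neg hi]
        rfl
    rw [h3] at h2
    exact h2

end Pool.Agent.Lib.DHJ
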