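import Pool.Agent.Lib.DHJ.Step

/-!
# DHJ-Main: the density Hales-Jewett theorem, all finite alphabets

PROOF. (1) Transport along `e : α ≃ β` (map words with `e`, lines with `Line.map` or directly). (2) `HJ` for an alphabet with one
letter: `N := 1`, `A` is not empty (the left side is positive), there is only one word, and the line with all
coordinates variable exists as `ι` is not empty. (3) Induction: `HJ (Fin (k+1))` implies `HJ (Option (Fin (k+1)))` (`hj_option`) and
`Option (Fin (k+1)) ≃ Fin (k+2)` (`finSuccEquiv _ .symm`). (4) Every nonempty `α` is in bijection with `Fin (k+1)`.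
`dens_subspace`: `mhj_of_hj`.
-/

set_option autoImplicit false

open Finset Combinatorics

namespace Pool.Agent.Lib.DHJ

/-- transport along a bijection of the alphabets -/
private theorem hj_equiv {α β : Type} [Fintype α] [Fintype β] (e : α ≃ β) (h : HJ α) : HJ β := by
  classical
  intro δ hδ
  obtain ⟨N, hN⟩ := h δ hδ
  refine ⟨N, fun ι _ _ hι A hA => ?_⟩
  have hinj : Function.Injective (fun w : ι → β => fun i => e.symm (w i)) := by
    intro w w' hw
    funext i
    exact e.symm.injective (congrFun hw i)
  obtain ⟨l, hl⟩ := hN ι hι (A.image (fun w : ι → β => fun i => e.symm (w i))) (by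
    rw [card_image_of_injective _ hinj, Fintype.card_congr e]
    exact hA)
  refine ⟨⟨fun i => (l.idxFun i).map e, ?_⟩, fun x => ?_⟩
  · obtain ⟨i, hi⟩ := l.proper
    exact ⟨i, by rw [hi]; rfl⟩
  · have h1 := hl (e.symm x)
    rw [mem_image] at h1
    obtain ⟨w, hw, hwe⟩ := h1
    have h2 : (⟨fun i => (l.idxFun i).map e, by
        obtain ⟨i, hi⟩ := l.proper
        exact ⟨i, by rw [hi]; rfl⟩⟩ : Line β ι) x = w := by
      funext i
      have h3 := congrFun hwe i
      have h4 : w i = e (l (e.symm x) i) := by rw [← h3]; simp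
      rw [h4]
      simp only [Line.apply_def]
      rcases l.idxFun i with _ | a
      · simp
      · simp
    rw [h2]
    exact hw

/-- the alphabet with one letter -/
private theorem hj_one : HJ (Fin 1) := by
  classical
  intro δ hδ
  refine ⟨1, fun ι _ _ hι A hA => ?_⟩
  have hpos : (0 : ℝ) < (A.card : ℝ) := by
    refine lt_of_lt_of_le ?_ hA
    positivity
  have hne : A.Nonempty := by
    rw [← card_pos]
    exact_mod_cast hpos
  obtain ⟨w, hw⟩ := hne
  have hι' : Nonempty ι := Fintype.card_pos_iff.mp (by omega)
  obtain ⟨i0⟩ := hι'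
  refine ⟨⟨fun _ => none, ⟨i0, rfl⟩⟩, fun x => ?_⟩
  have h2 : (⟨fun _ => none, ⟨i0, rfl⟩⟩ : Line (Fin 1) ι) x = w := by
    funext i
    exact Subsingleton.elim _ _
  rw [h2]
  exact hw

private theorem hj_fin (k : ℕ) : HJ (Fin (k + 1)) := by
  induction k with
  | zero => exact hj_one
  | succ k ih => exact hj_equiv (finSuccEquiv (k + 1)).symm (hj_option ih)

/-- **the density Hales-Jewett theorem** -/
theorem hj (α : Type) [Fintype α] [Nonempty α] : HJ α := by
  have hc : 0 < Fintype.card α := Fintype.card_pos
  have e : Fin (Fintype.card α - 1 + 1) ≃ α :=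
    (finCongr (by omega)).trans (Fintype.equivFin α).symm
  exact hj_equiv e (hj_fin _)

/-- the multidimensional density Hales-Jewett theorem -/
theorem mhj (α : Type) [Fintype α] [Nonempty α] : MHJ α := mhj_of_hj (hj α)

end Pool.Agent.Lib.DHJ
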