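import Pool.Agent.Lib.DHJ.Defs

/-!
# DHJ-Multi: from lines to subspaces of dimension `d`

PROOF (induction on `d`).
`d = 0`: `A` is not empty (N := 0; the left side of the density inequality is positive); for `x ∈ A` take the subspace
with `idxFun i = Sum.inl (x i)` (`proper` is vacuous).
`d + 1`: let `N1` be the number of `h` for `δ / 2`, `L := (|α| + 1) ^ N1`, `N2` the number of the induction hypothesis
for `d` and `δ' := δ / (2 L)`, `N := N1 + N2`. Let `N ≤ |ι|`; choose `e : (Fin N1 ⊕ κ) ≃ ι` with `κ := Fin (|ι| - N1)`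
(`Fintype.equivFinOfCardEq`, `finSumFinEquiv`) and pull `A` back: `A' := {w : Fin N1 ⊕ κ → α | w ∘ e.symm ∈ A}` has the
same cardinality. For `y : κ → α` let `A'_y := {x : Fin N1 → α | Sum.elim x y ∈ A'}`. By double counting the set `Y` of
the `y` with `|A'_y| ≥ (δ/2) |α|^N1` has at least `(δ/2) |α|^|κ|` elements (if not: `|A'| ≤ |Y| |α|^N1 + |α|^|κ| (δ/2)
|α|^N1 < δ |α|^|ι|`). For `y ∈ Y` the hypothesis `h` gives a line `l_y` with all points in `A'_y`; the function
`l_y.idxFun : Fin N1 → Option α` takes at most `L` values, so one value (one line `l`) is taken by at least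
`(δ / 2) / L |α|^|κ|` of the `y ∈ Y` (pigeonhole, `Finset.exists_lt_card_fiber_of_mul_lt_card_of_maps_to` or sums).
The induction hypothesis gives a subspace `U : Subspace (Fin d) α κ` in this set of `y`. The subspace of `Fin N1 ⊕ κ` of
dimension `d + 1`: `idxFun (inl i) = match l.idxFun i with | none => inr 0 | some a => inl a`, `idxFun (inr j) =
(U.idxFun j).map id Fin.succ`; it maps `z` to `Sum.elim (l (z 0)) (U (fun f => z f.succ))`, a point of `A'`. Transport
it with `reSub e`.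
-/

set_option autoImplicit false

open Finset Combinatorics

namespace Pool.Agent.Lib.DHJ

/-- the subspace made of a line and a subspace -/
private def Multi_sub {α κ : Type} {n d : ℕ} (l : Line α (Fin n)) (U : Subspace (Fin d) α κ) :
    Subspace (Fin (d + 1)) α (Fin n ⊕ κ) :=
  ⟨Sum.elim (fun i => (l.idxFun i).elim (Sum.inr 0) Sum.inl)
    (fun j => (U.idxFun j).map id Fin.succ), fun e => by
    refine Fin.cases ?_ (fun f => ?_) e
    · obtain ⟨i, hi⟩ := l.proper
      exact ⟨Sum.inl i, by rw [Sum.elim_inl, hi]; rfl⟩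
    · obtain ⟨j, hj⟩ := U.proper f
      exact ⟨Sum.inr j, by rw [Sum.elim_inr, hj]; rfl⟩⟩

private theorem Multi_sub_apply {α κ : Type} {n d : ℕ} (l : Line α (Fin n))
    (U : Subspace (Fin d) α κ) (z : Fin (d + 1) → α) :
    Multi_sub l U z = Sum.elim (l (z 0)) (U (fun f => z f.succ)) := by
  funext i
  rcases i with i | j
  · simp only [Multi_sub, Subspace.apply_def, Sum.elim_inl, Line.apply_def]
    rcases l.idxFun i with _ | a <;> rfl
  · simp only [Multi_sub, Subspace.apply_def, Sum.elim_inr]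
    rcases U.idxFun j with a | f <;> rfl

private theorem Multi_line {α : Type} {n : ℕ} (l l' : Line α (Fin n)) (h : l.idxFun = l'.idxFun)
    (x : α) : l x = l' x := by
  funext i
  rw [Line.apply_def, Line.apply_def, h]

/-- double counting -/
private theorem Multi_count {α κ ι : Type} [Fintype α] [Nonempty α] [Fintype κ] [Fintype ι]
    [DecidableEq ι] [DecidableEq κ] [DecidableEq α] {n : ℕ}
    (φ : (Fin n → α) × (κ → α) ≃ (ι → α)) (A : Finset (ι → α)) (δ : ℝ)
    (hA : δ * ((Fintype.card α : ℝ) ^ n * (Fintype.card α : ℝ) ^ Fintype.card κ) ≤ A.card) :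
    δ / 2 * (Fintype.card α : ℝ) ^ Fintype.card κ ≤
      ((univ.filter fun y : κ → α => δ / 2 * (Fintype.card α : ℝ) ^ n ≤
        ((univ.filter fun x : Fin n → α => φ (x, y) ∈ A).card : ℝ)).card : ℝ) := by
  classical
  obtain ⟨c, hc⟩ : ∃ c : ℝ, c = (Fintype.card α : ℝ) := ⟨_, rfl⟩
  have hc0 : 0 < c := by
    rw [hc]
    exact_mod_cast Fintype.card_pos
  rw [← hc] at hA ⊢
  obtain ⟨F, hF⟩ : ∃ F : (κ → α) → ℝ, F = fun y =>
    ((univ.filter fun x : Fin n → α => φ (x, y) ∈ A).card : ℝ) := ⟨_, rfl⟩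
  have hsum : (A.card : ℝ) = ∑ y, F y := by
    have h1 : (A.card : ℝ) = ∑ w : ι → α, (if w ∈ A then (1 : ℝ) else 0) := by
      rw [Finset.sum_boole]
      congr 2
      ext w
      simp
    rw [h1, ← Equiv.sum_comp φ, Fintype.sum_prod_type_right, hF]
    refine Finset.sum_congr rfl fun y _ => ?_
    rw [Finset.sum_boole]
  obtain ⟨Y, hY⟩ : ∃ Y : Finset (κ → α), Y = univ.filter fun y => δ / 2 * c ^ n ≤ F y := ⟨_, rfl⟩
  have hYg : (univ.filter fun y : κ → α => δ / 2 * c ^ n ≤
      ((univ.filter fun x : Fin n → α => φ (x, y) ∈ A).card : ℝ)) = Y := by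
    rw [hY, hF]
  rw [hYg]
  by_contra hcon
  push Not at hcon
  have hδ : 0 < δ := by
    by_contra h0
    push Not at h0
    have h1 : δ / 2 * c ^ Fintype.card κ ≤ 0 :=
      mul_nonpos_of_nonpos_of_nonneg (by linarith) (pow_nonneg hc0.le _)
    have h2 : (0 : ℝ) ≤ Y.card := Nat.cast_nonneg _
    linarith
  have hFle : ∀ y, F y ≤ c ^ n := by
    intro y
    have h1 := Finset.card_filter_le (univ : Finset (Fin n → α)) (fun x => φ (x, y) ∈ A)
    rw [Finset.card_univ, Fintype.card_fun, Fintype.card_fin] at h1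
    have h2 : ((univ.filter fun x : Fin n → α => φ (x, y) ∈ A).card : ℝ) ≤
        (Fintype.card α : ℝ) ^ n := by exact_mod_cast h1
    rw [hF, hc]
    exact h2
  have h2 : ∑ y, F y = ∑ y ∈ Y, F y + ∑ y ∈ univ.filter (fun y => ¬ δ / 2 * c ^ n ≤ F y), F y := by
    rw [hY, Finset.sum_filter_add_sum_filter_not]
  have h3 : ∑ y ∈ Y, F y ≤ Y.card * c ^ n := by
    rw [← nsmul_eq_mul]
    exact Finset.sum_le_card_nsmul _ _ _ fun y _ => hFle y
  have h4 : ∑ y ∈ univ.filter (fun y => ¬ δ / 2 * c ^ n ≤ F y), F y ≤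
      c ^ Fintype.card κ * (δ / 2 * c ^ n) := by
    have h5 : ∑ y ∈ univ.filter (fun y => ¬ δ / 2 * c ^ n ≤ F y), F y ≤
        (univ.filter (fun y : κ → α => ¬ δ / 2 * c ^ n ≤ F y)).card • (δ / 2 * c ^ n) :=
      Finset.sum_le_card_nsmul _ _ _ fun y hy => (not_le.1 (Finset.mem_filter.1 hy).2).le
    refine h5.trans ?_
    rw [nsmul_eq_mul]
    refine mul_le_mul_of_nonneg_right ?_ (by positivity)
    have h6 := Finset.card_filter_le (univ : Finset (κ → α)) (fun y => ¬ δ / 2 * c ^ n ≤ F y)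
    rw [Finset.card_univ, Fintype.card_fun] at h6
    refine (Nat.cast_le.2 h6).trans ?_
    rw [Nat.cast_pow, hc]
  have hcn : 0 < c ^ n := pow_pos hc0 _
  have h7 : (Y.card : ℝ) * c ^ n < δ / 2 * c ^ Fintype.card κ * c ^ n :=
    mul_lt_mul_of_pos_right hcon hcn
  rw [hsum, h2] at hA
  nlinarith

theorem mhj_of_hj {α : Type} [Fintype α] [Nonempty α] (h : HJ α) : MHJ α := by
  classical
  intro d
  have hc0 : (0 : ℝ) < (Fintype.card α : ℝ) := by exact_mod_cast Fintype.card_pos
  induction d with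
  | zero =>
    intro δ hδ
    refine ⟨0, fun ι _ _ _ A hA => ?_⟩
    have h1 : 0 < A.card := by
      have h2 : (0 : ℝ) < δ * (Fintype.card α : ℝ) ^ Fintype.card ι := by positivity
      exact_mod_cast h2.trans_le hA
    obtain ⟨x, hx⟩ := Finset.card_pos.1 h1
    refine ⟨⟨fun i => Sum.inl (x i), fun e => e.elim0⟩, fun z => ?_⟩
    have h3 : (⟨fun i => Sum.inl (x i), fun e => e.elim0⟩ : Subspace (Fin 0) α ι) z = x := by
      funext i
      rfl
    rw [h3]
    exact hx
  | succ d ih =>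
    intro δ hδ
    obtain ⟨N1, hN1⟩ := h (δ / 2) (by positivity)
    obtain ⟨L, hL⟩ : ∃ L : ℝ, L = (Fintype.card (Fin N1 → Option α) : ℝ) := ⟨_, rfl⟩
    have hL0 : 0 < L := by
      rw [hL]
      exact_mod_cast Fintype.card_pos
    obtain ⟨N2, hN2⟩ := ih (δ / 2 / L) (by positivity)
    refine ⟨N1 + N2, fun ι _ _ hι A hA => ?_⟩
    obtain ⟨m, hm⟩ : ∃ m, Fintype.card ι = N1 + m := ⟨Fintype.card ι - N1, by omega⟩
    have e : Fin N1 ⊕ Fin m ≃ ι := Fintype.equivOfCardEq (by
      rw [Fintype.card_sum, Fintype.card_fin, Fintype.card_fin, hm])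
    obtain ⟨φ, hφ⟩ : ∃ φ : (Fin N1 → α) × (Fin m → α) ≃ (ι → α),
        ∀ x y, φ (x, y) = fun i => Sum.elim x y (e.symm i) :=
      ⟨(Equiv.sumArrowEquivProdArrow (Fin N1) (Fin m) α).symm.trans
        (Equiv.arrowCongr e (Equiv.refl α)), fun x y => rfl⟩
    have hY := Multi_count φ A δ (by
      rw [Fintype.card_fin, ← pow_add, ← hm]
      exact hA)
    obtain ⟨F, hF⟩ : ∃ F : (Fin m → α) → Finset (Fin N1 → α), F = fun y =>
      univ.filter fun x : Fin N1 → α => φ (x, y) ∈ A := ⟨_, rfl⟩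
    obtain ⟨Y, hYd⟩ : ∃ Y : Finset (Fin m → α), Y = univ.filter fun y =>
      δ / 2 * (Fintype.card α : ℝ) ^ N1 ≤ ((F y).card : ℝ) := ⟨_, rfl⟩
    have hYc : δ / 2 * (Fintype.card α : ℝ) ^ m ≤ (Y.card : ℝ) := by
      rw [Fintype.card_fin] at hY
      rw [hYd, hF]
      exact hY
    have hline : ∀ y ∈ Y, ∃ l : Line α (Fin N1), ∀ x : α, l x ∈ F y := by
      intro y hy
      rw [hYd, Finset.mem_filter] at hy
      refine hN1 (Fin N1) (by rw [Fintype.card_fin]) (F y) ?_
      rw [Fintype.card_fin]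
      exact hy.2
    obtain ⟨G, hG⟩ : ∃ G : (Fin N1 → Option α) → Finset (Fin m → α), G = fun g =>
      Y.filter fun y => ∃ l : Line α (Fin N1), l.idxFun = g ∧ ∀ x : α, l x ∈ F y := ⟨_, rfl⟩
    obtain ⟨g, hg⟩ : ∃ g, δ / 2 / L * (Fintype.card α : ℝ) ^ m ≤ ((G g).card : ℝ) := by
      by_contra hcon
      push Not at hcon
      have h1 : Y ⊆ univ.biUnion G := by
        intro y hy
        obtain ⟨l, hl⟩ := hline y hy
        rw [Finset.mem_biUnion]
        refine ⟨l.idxFun, Finset.mem_univ _, ?_⟩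
        rw [hG, Finset.mem_filter]
        exact ⟨hy, l, rfl, hl⟩
      have h2 : (Y.card : ℝ) ≤ ∑ g, ((G g).card : ℝ) := by
        have h3 := (Finset.card_le_card h1).trans Finset.card_biUnion_le
        exact_mod_cast h3
      have h4 : ∑ g, ((G g).card : ℝ) < ∑ _g : Fin N1 → Option α,
          δ / 2 / L * (Fintype.card α : ℝ) ^ m :=
        Finset.sum_lt_sum_of_nonempty Finset.univ_nonempty fun g _ => hcon g
      rw [Finset.sum_const, Finset.card_univ, nsmul_eq_mul, ← hL] at h4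
      have h5 : L * (δ / 2 / L * (Fintype.card α : ℝ) ^ m) = δ / 2 * (Fintype.card α : ℝ) ^ m := by
        field_simp
      linarith
    obtain ⟨U, hU⟩ := hN2 (Fin m) (by rw [Fintype.card_fin]; omega) (G g) (by
      rw [Fintype.card_fin]
      exact hg)
    have hU' : ∀ z, ∃ l : Line α (Fin N1), l.idxFun = g ∧ ∀ x : α, l x ∈ F (U z) := by
      intro z
      have h1 := hU z
      rw [hG, Finset.mem_filter] at h1
      exact h1.2
    obtain ⟨l, hl, -⟩ := hU' fun _ => Classical.arbitrary α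
    refine ⟨reSub e (Multi_sub l U), fun z => ?_⟩
    obtain ⟨l', hl', hx⟩ := hU' fun f => z f.succ
    have h1 := hx (z 0)
    rw [← Multi_line l l' (hl.trans hl'.symm), hF, Finset.mem_filter, hφ] at h1
    rw [reSub_apply, Multi_sub_apply]
    exact h1.2

end Pool.Agent.Lib.DHJ
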