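import Pool.Agent.Lib.DHJ.Good
import Pool.Agent.Lib.DHJ.Incr

/-!
# DHJ-Step: the induction step from `α` to `Option α`

PROOF. `K := |α| + 1 = |Option α|`. Let `G` be the set of the `δ > 0` for which the number `N` in `HJ (Option α)` exists:
it is upward closed and contains every `δ > 1` (vacuous: `|A| ≤ K^|ι|`). Suppose some `δ0 > 0` is not in `G`, and let
`δ := sInf G`; then `0 < δ0 ≤ δ ≤ 1`. For `η > 0`: `δ + η ∈ G`, let `N(η)` be its number; so every line-free set of words
over an index set of size `≥ N(η)` has density `< δ + η`; and for every `N` there are `ι` with `|ι| ≥ N` and a line-free `A`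
of density `≥ δ - η` (for `δ - η > 0` because `δ - η ∉ G`).
PARAMETERS. `θ, m0` from `good_subspace h δ`; `θ` may be replaced by `min θ 1`. `d := N(δθ/16)`. `M` from `increment (mhj_of_hj h) δ θ .. d`.
`ε2 := δθ/32`, `η1 := ε := ε2 θ / 16` (so that `(η1 + ε)/ε2 = θ/8`), `m :=` maximum of `m0`, `M`, `N(η1)` and a number with
`(|α|/K)^m ≤ 1/2`. `l` from `good_subspace` for `m`. `η := ε / (2 K^l)` (note `ε ≤ δ/2`). `N := l + N(η)`. Choose `ι`, `|ι| ≥ N`, `A` line-free
with `|A| ≥ (δ - η) K^|ι|`; transport along `ι ≃ Fin l ⊕ κ`, `κ := Fin (|ι| - l)`, `|κ| ≥ N(η)`; let `A` now denote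
the set in `Fin l ⊕ κ → Option α` (line-free by `reLine`/`reSub`), and `A2 := {(x, y) | Sum.elim x y ∈ A}`.
(1) For `x : Fin l → Option α` the fibre `A_x` is line-free (`fibR`, `LineFree.pull`), so `|A_x| < (δ + η) K^|κ|`; the sum
over the `K^l` words `x` is `≥ (δ - η) K^l K^|κ|`, so each `|A_x| ≥ (δ - η(2 K^l)) K^|κ| ≥ (δ - ε) K^|κ| ≥ (δ/2) K^|κ|`.
(2) `good_subspace` gives `W : Subspace (Fin m) α (Fin l)`. For `y : κ → Option α` put
`A'_y := {z : Fin m → Option α | Sum.elim (lift W z) y ∈ A}` (line-free: `fibL (lift W) y`; so `|A'_y| < (δ + η1) K^m`) and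
`D_{y,a} := {z | Sum.elim (rep a (lift W z)) y ∈ A}` (insensitive for `a`: `rep_lift`, `rep_rep`).
(3) `∑_y |A'_y| = ∑_z |A_{lift W z}| ≥ (δ - ε) K^m K^|κ|`; `∑_y |⋂_a D_{y,a}| ≥ θ K^|κ| · #{z with a none} ≥ (θ/2) K^m K^|κ|`.
So `∑_y [ |⋂_a D_{y,a}| - (1/ε2) ((δ + η1) K^m - |A'_y|) ] ≥ (θ/2 - (η1 + ε)/ε2) K^m K^|κ| ≥ (θ/4) K^m K^|κ|`, and some
`y` has bracket `≥ (θ/4) K^m`. As `(δ + η1)K^m - |A'_y| ≥ 0`: `|⋂_a D_{y,a}| ≥ (θ/4) K^m`; as `|⋂_a D_{y,a}| ≤ K^m`:
`(δ + η1) K^m - |A'_y| ≤ ε2 (1 - θ/4) K^m`, so `|A'_y| ≥ (δ - δθ/32) K^m`.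
(4) If `z ∈ A'_y` lies in all `D_{y,a}` then `z` has no letter `none`: otherwise `lift W z` contains `none`
(`lift_eq_none`), and the line with `idxFun (inl i) = lift W z i`, `idxFun (inr j) = some (y j)` over `Option α`... precisely:
the line `L` over the alphabet `Option α` with `idxFun (inl i) := (lift W z i).map some` (`none` ↦ the variable, `some b` ↦
the fixed letter `some b`) and `idxFun (inr j) := some (y j)` has `L (some a) = Sum.elim (rep a (lift W z)) y` and
`L none = Sum.elim (lift W z) y`, all in `A`: contradiction to line-free.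
(5) `increment` for `A'_y`, `D_{y,·}` gives `V : Subspace (Fin d) (Option α) (Fin m)` on which `A'_y` has density
`≥ δ + δθ/16`, but `{z | V z ∈ A'_y}` is line-free and `d ≥ N(δθ/16)`: contradiction.
-/

set_option autoImplicit false

open Finset Combinatorics

namespace Pool.Agent.Lib.DHJ

/-- transport of a set of words along a bijection of the index set -/
private def trA {ι κ β : Type} (e : ι ≃ κ) (A : Finset (ι → β)) : Finset (κ → β) :=
  A.map (Equiv.arrowCongr e (Equiv.refl β)).toEmbedding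

private theorem mem_trA {ι κ β : Type} (e : ι ≃ κ) (A : Finset (ι → β)) (w : κ → β) :
    w ∈ trA e A ↔ (fun i => w (e i)) ∈ A := by
  unfold trA
  rw [Finset.mem_map_equiv]
  rfl

private theorem card_trA {ι κ β : Type} (e : ι ≃ κ) (A : Finset (ι → β)) :
    (trA e A).card = A.card := Finset.card_map _

private theorem free_trA {ι κ β : Type} (e : ι ≃ κ) {A : Finset (ι → β)} (hA : LineFree A) :
    LineFree (trA e A) := by
  rintro ⟨l, hl⟩
  refine hA ⟨reLine e.symm l, fun x => ?_⟩
  have h1 := (mem_trA e A _).mp (hl x)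
  rw [reLine_apply]
  exact h1

private theorem step_fib {X : Type} [Fintype X] (f : X → ℝ) (δ η Q : ℝ) (hη : 0 ≤ η) (hQ : 0 ≤ Q)
    (h1 : (δ - η) * (Fintype.card X * Q) ≤ ∑ x, f x) (h2 : ∀ x, f x ≤ (δ + η) * Q) (x0 : X) :
    (δ - 2 * η * Fintype.card X) * Q ≤ f x0 := by
  have h3 : (δ + η) * Q - f x0 ≤ ∑ x, ((δ + η) * Q - f x) :=
    Finset.single_le_sum (f := fun x => (δ + η) * Q - f x) (fun x _ => sub_nonneg.mpr (h2 x))
      (Finset.mem_univ x0)
  rw [Finset.sum_sub_distrib, Finset.sum_const, Finset.card_univ, nsmul_eq_mul] at h3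
  have h4 : 0 ≤ η * Q := mul_nonneg hη hQ
  nlinarith

private theorem step_choice {Y : Type} [Fintype Y] [Nonempty Y] (I F : Y → ℝ) (δ θ ε2 T : ℝ)
    (hθ : 0 < θ) (hε : 0 < ε2) (hT : 0 < T) (hI : ∀ y, I y ≤ T)
    (hF : ∀ y, F y ≤ (δ + ε2 * θ / 16) * T)
    (sI : θ / 2 * T * Fintype.card Y ≤ ∑ y, I y)
    (sF : (δ - ε2 * θ / 16) * T * Fintype.card Y ≤ ∑ y, F y) :
    ∃ y, θ / 4 * T ≤ I y ∧ (δ - ε2) * T ≤ F y := by
  have h1 : ∑ y : Y, (ε2 * (θ / 2 * T) + (δ - ε2 * θ / 16) * T) ≤ ∑ y, (ε2 * I y + F y) := by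
    have e1 : ∑ y : Y, (ε2 * (θ / 2 * T) + (δ - ε2 * θ / 16) * T) =
        Fintype.card Y * (ε2 * (θ / 2 * T) + (δ - ε2 * θ / 16) * T) := by
      rw [Finset.sum_const, Finset.card_univ, nsmul_eq_mul]
    have e2 : ∑ y, (ε2 * I y + F y) = ε2 * (∑ y, I y) + ∑ y, F y := by
      rw [Finset.sum_add_distrib, ← Finset.mul_sum]
    rw [e1, e2]
    have e3 := mul_le_mul_of_nonneg_left sI hε.le
    linarith
  obtain ⟨y, -, hy⟩ := Finset.exists_le_of_sum_le Finset.univ_nonempty h1
  have hεθT : 0 < ε2 * θ * T := by positivity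
  refine ⟨y, ?_, ?_⟩
  · have h2 := hF y
    have h3 : ε2 * (θ / 4 * T) ≤ ε2 * I y := by nlinarith
    exact le_of_mul_le_mul_left h3 hε
  · have h2 := mul_le_mul_of_nonneg_left (hI y) hε.le
    nlinarith

private theorem step_dc {Y Z : Type} [Fintype Y] [Fintype Z] (P : Z → Y → Prop)
    [∀ z y, Decidable (P z y)] :
    ∑ y, ((univ.filter fun z => P z y).card : ℝ) = ∑ z, ((univ.filter fun y => P z y).card : ℝ) := by
  have h1 : ∀ y, ((univ.filter fun z => P z y).card : ℝ) = ∑ z, if P z y then (1 : ℝ) else 0 := by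
    intro y
    rw [Finset.sum_boole]
  have h2 : ∀ z, ((univ.filter fun y => P z y).card : ℝ) = ∑ y, if P z y then (1 : ℝ) else 0 := by
    intro z
    rw [Finset.sum_boole]
  rw [Finset.sum_congr rfl fun y _ => h1 y, Finset.sum_congr rfl fun z _ => h2 z,
    Finset.sum_comm]

private theorem step_sum {ι κ β : Type} [Fintype ι] [Fintype κ] [Fintype β]
    [DecidableEq ι] [DecidableEq κ] [DecidableEq β] (A : Finset (ι ⊕ κ → β)) :
    (A.card : ℝ) = ∑ x : ι → β, ((univ.filter fun y : κ → β => Sum.elim x y ∈ A).card : ℝ) := by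
  have h1 : A.card = ∑ x : ι → β, (A.filter fun w => (fun i => w (Sum.inl i)) = x).card :=
    Finset.card_eq_sum_card_fiberwise fun w _ => Finset.mem_coe.mpr (Finset.mem_univ _)
  rw [h1]
  push_cast
  refine Finset.sum_congr rfl fun x _ => ?_
  congr 1
  refine Finset.card_bij' (fun w _ j => w (Sum.inr j)) (fun y _ => Sum.elim x y) ?_ ?_ ?_ ?_
  · intro w hw
    rw [mem_filter] at hw
    simp only [mem_filter, mem_univ, true_and]
    have : Sum.elim x (fun j => w (Sum.inr j)) = w := by
      funext i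
      rcases i with i | j
      · exact (congrFun hw.2 i).symm
      · rfl
    rw [this]
    exact hw.1
  · intro y hy
    simp only [mem_filter, mem_univ, true_and] at hy ⊢
    exact ⟨hy, rfl⟩
  · intro w hw
    rw [mem_filter] at hw
    funext i
    rcases i with i | j
    · exact (congrFun hw.2 i).symm
    · rfl
  · intro y _
    rfl

open Classical in
private theorem step_none {α : Type} [Fintype α] (m : ℕ)
    (hm : (Fintype.card α : ℝ) ^ m ≤ ((Fintype.card α : ℝ) + 1) ^ m / 2) :
    ((Fintype.card α : ℝ) + 1) ^ m / 2 ≤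
      ((univ.filter fun z : Fin m → Option α => ∃ e, z e = none).card : ℝ) := by
  have h1 : (univ.filter fun z : Fin m → Option α => ¬ ∃ e, z e = none).card ≤
      Fintype.card α ^ m := by
    have h2 : (univ.filter fun z : Fin m → Option α => ¬ ∃ e, z e = none) ⊆
        univ.image (fun (u : Fin m → α) e => some (u e)) := by
      intro z hz
      rw [mem_filter] at hz
      have h3 : ∀ e, ∃ a, z e = some a := by
        intro e
        rcases h : z e with _ | a
        · exact absurd ⟨e, h⟩ hz.2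
        · exact ⟨a, rfl⟩
      choose u hu using h3
      rw [mem_image]
      exact ⟨u, mem_univ _, funext fun e => (hu e).symm⟩
    calc _ ≤ _ := Finset.card_le_card h2
      _ ≤ (univ : Finset (Fin m → α)).card := Finset.card_image_le
      _ = Fintype.card α ^ m := by
        rw [Finset.card_univ, Fintype.card_fun, Fintype.card_fin]
  have h4 := Finset.card_filter_add_card_filter_not (s := (univ : Finset (Fin m → Option α)))
    (fun z => ∃ e, z e = none)
  rw [Finset.card_univ, Fintype.card_fun, Fintype.card_fin, Fintype.card_option] at h4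
  have h5 : (((univ.filter fun z : Fin m → Option α => ∃ e, z e = none).card : ℝ)) +
      ((univ.filter fun z : Fin m → Option α => ¬ ∃ e, z e = none).card : ℝ) =
      ((Fintype.card α : ℝ) + 1) ^ m := by
    exact_mod_cast h4
  have h6 : ((univ.filter fun z : Fin m → Option α => ¬ ∃ e, z e = none).card : ℝ) ≤
      (Fintype.card α : ℝ) ^ m := by exact_mod_cast h1
  linarith

/-- the line through the words `rep a (lift W z)` and `lift W z` -/
private theorem step_line {α ι κ η : Type} (W : Subspace η α ι) (z : η → Option α)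
    (y : κ → Option α) (hz : ∃ e, z e = none) : ∃ L : Line (Option α) (ι ⊕ κ),
      L none = Sum.elim (lift W z) y ∧ ∀ a : α, L (some a) = Sum.elim (rep a (lift W z)) y := by
  refine ⟨⟨Sum.elim (fun i => (lift W z i).map some) (fun j => some (y j)), ?_⟩, ?_, ?_⟩
  · obtain ⟨i, hi⟩ := lift_eq_none W z hz
    exact ⟨Sum.inl i, by rw [Sum.elim_inl, hi]; rfl⟩
  · funext i
    rw [Line.apply_def]
    rcases i with i | j
    · simp only [Sum.elim_inl]
      rcases lift W z i with _ | b <;> rfl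
    · rfl
  · intro a
    funext i
    rw [Line.apply_def]
    rcases i with i | j
    · simp only [Sum.elim_inl, rep_apply]
      rcases lift W z i with _ | b <;> rfl
    · rfl

open Classical in
private theorem step_core {α : Type} [Fintype α] [Nonempty α] (h : HJ α) (δ : ℝ) (hδ : 0 < δ)
    (hδ1 : δ ≤ 1)
    (hup : ∀ η : ℝ, 0 < η → ∃ N : ℕ, ∀ (ι : Type) [Fintype ι] [DecidableEq ι],
      N ≤ Fintype.card ι → ∀ A : Finset (ι → Option α), LineFree A →
        (A.card : ℝ) < (δ + η) * ((Fintype.card α : ℝ) + 1) ^ Fintype.card ι)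
    (hlow : ∀ η : ℝ, 0 < η → η < δ → ∀ N : ℕ, ∃ n : ℕ, N ≤ n ∧ ∃ A : Finset (Fin n → Option α),
      LineFree A ∧ (δ - η) * ((Fintype.card α : ℝ) + 1) ^ n ≤ (A.card : ℝ)) : False := by
  set K : ℝ := (Fintype.card α : ℝ) + 1 with hKd
  have hk0 : (0 : ℝ) ≤ (Fintype.card α : ℝ) := Nat.cast_nonneg _
  have hK1 : 1 ≤ K := by linarith
  have hK0 : 0 < K := by linarith
  obtain ⟨θ0, hθ0, m0, hgood⟩ := good_subspace h δ hδ
  set θ : ℝ := min θ0 1 with hθd
  have hθ : 0 < θ := lt_min hθ0 one_pos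
  have hθ1 : θ ≤ 1 := min_le_right _ _
  have hθle : θ ≤ θ0 := min_le_left _ _
  obtain ⟨d, hd⟩ := hup (δ * θ / 16) (by positivity)
  obtain ⟨M, hM⟩ := increment (mhj_of_hj h) δ θ hδ hδ1 hθ hθ1 d
  set ε2 : ℝ := δ * θ / 32 with hε2
  have hε20 : 0 < ε2 := by positivity
  have hη1 : 0 < ε2 * θ / 16 := by positivity
  obtain ⟨N1, hN1⟩ := hup (ε2 * θ / 16) hη1
  obtain ⟨m1, hm1⟩ := exists_pow_lt_of_lt_one (show (0 : ℝ) < 1 / 2 by norm_num)
    (show (Fintype.card α : ℝ) / K < 1 by rw [div_lt_one hK0]; linarith)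
  set m : ℕ := m0 + M + N1 + m1 with hm
  have hkm : (Fintype.card α : ℝ) ^ m ≤ K ^ m / 2 := by
    have h1 : ((Fintype.card α : ℝ) / K) ^ m ≤ ((Fintype.card α : ℝ) / K) ^ m1 :=
      pow_le_pow_of_le_one (by positivity) (by rw [div_le_one hK0]; linarith) (by omega)
    have h2 : ((Fintype.card α : ℝ) / K) ^ m ≤ 1 / 2 := h1.trans hm1.le
    rw [div_pow, div_le_iff₀ (by positivity)] at h2
    linarith
  obtain ⟨l, hl⟩ := hgood m (by omega)
  set ε : ℝ := ε2 * θ / 16 with hε
  have hεδ : ε ≤ δ / 2 := by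
    have h1 : ε = δ * (θ * θ) / 512 := by rw [hε, hε2]; ring
    have h2 : θ * θ ≤ 1 := by nlinarith
    have h3 : δ * (θ * θ) ≤ δ * 1 := mul_le_mul_of_nonneg_left h2 hδ.le
    rw [h1]
    linarith
  set η : ℝ := ε / (2 * K ^ l) with hη
  have hKl : 1 ≤ K ^ l := one_le_pow₀ hK1
  have hη0 : 0 < η := by positivity
  have hηε : 2 * η * K ^ l = ε := by
    rw [hη]
    field_simp
  have hηδ : η < δ := by
    have h1 : η ≤ ε := by
      nlinarith
    linarith
  obtain ⟨N2, hN2⟩ := hup η hη0
  obtain ⟨n, hn, A0, hA0, hc0⟩ := hlow η hη0 hηδ (l + N2)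
  -- transport
  obtain ⟨p, rfl⟩ : ∃ p, n = l + p := ⟨n - l, by omega⟩
  set A : Finset (Fin l ⊕ Fin p → Option α) := trA (finSumFinEquiv (m := l) (n := p)).symm A0 with hA
  have hAf : LineFree A := free_trA _ hA0
  have hAc : (δ - η) * (K ^ l * K ^ p) ≤ (A.card : ℝ) := by
    rw [hA, card_trA, ← pow_add]
    exact hc0
  -- the fibres
  have hcardX : (Fintype.card (Fin l → Option α) : ℝ) = K ^ l := by
    rw [Fintype.card_fun, Fintype.card_fin, Fintype.card_option]
    push_cast
    rfl
  have hcardY : (Fintype.card (Fin p → Option α) : ℝ) = K ^ p := by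
    rw [Fintype.card_fun, Fintype.card_fin, Fintype.card_option]
    push_cast
    rfl
  have hfibfree : ∀ x : Fin l → Option α,
      LineFree (univ.filter fun y : Fin p → Option α => Sum.elim x y ∈ A) := by
    intro x
    have h1 := hAf.pull (fibR (κ := Fin p) x)
    simp only [fibR_apply] at h1
    exact h1
  have hfibup : ∀ x : Fin l → Option α,
      ((univ.filter fun y : Fin p → Option α => Sum.elim x y ∈ A).card : ℝ) ≤
        (δ + η) * K ^ p := by
    intro x
    have h1 := hN2 (Fin p) (by rw [Fintype.card_fin]; omega) _ (hfibfree x)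
    rw [Fintype.card_fin] at h1
    exact h1.le
  have hfiblow : ∀ x : Fin l → Option α, (δ - ε) * K ^ p ≤
      ((univ.filter fun y : Fin p → Option α => Sum.elim x y ∈ A).card : ℝ) := by
    intro x
    have h1 := step_fib (fun x : Fin l → Option α =>
      ((univ.filter fun y : Fin p → Option α => Sum.elim x y ∈ A).card : ℝ)) δ η (K ^ p) hη0.le
      (by positivity) (by rw [hcardX, ← step_sum]; exact hAc) hfibup x
    rw [hcardX, hηε] at h1
    exact h1
  obtain ⟨W, hW⟩ := hl (Fin p)
    (univ.filter fun w : (Fin l → Option α) × (Fin p → Option α) => Sum.elim w.1 w.2 ∈ A) (by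
      intro x
      rw [Fintype.card_fin]
      have h1 := hfiblow x
      have h2 : δ / 2 * K ^ p ≤ (δ - ε) * K ^ p :=
        mul_le_mul_of_nonneg_right (by linarith) (by positivity)
      refine (h2.trans h1).trans (le_of_eq ?_)
      congr 2
      ext y
      simp only [mem_filter, mem_univ, true_and])
  -- the sets on the subspace
  set A' : (Fin p → Option α) → Finset (Fin m → Option α) := fun y =>
    univ.filter fun z => Sum.elim (lift W z) y ∈ A with hA'
  set D : (Fin p → Option α) → α → Finset (Fin m → Option α) := fun y a =>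
    univ.filter fun z => Sum.elim (rep a (lift W z)) y ∈ A with hD
  have hA'free : ∀ y, LineFree (A' y) := by
    intro y
    have h1 := hAf.pull (fibL (lift W) y)
    simp only [fibL_apply] at h1
    exact h1
  have hIns : ∀ y a, Ins a (D y a) := by
    intro y a z
    rw [hD]
    simp only [mem_filter, mem_univ, true_and]
    rw [rep_lift, rep_lift, rep_rep]
  have hF : ∀ y, ((A' y).card : ℝ) ≤ (δ + ε2 * θ / 16) * K ^ m := by
    intro y
    have h1 := hN1 (Fin m) (by rw [Fintype.card_fin]; omega) _ (hA'free y)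
    rw [Fintype.card_fin] at h1
    exact h1.le
  have hcardM : (Fintype.card (Fin m → Option α) : ℝ) = K ^ m := by
    rw [Fintype.card_fun, Fintype.card_fin, Fintype.card_option]
    push_cast
    rfl
  have hI : ∀ y, ((univ.filter fun z : Fin m → Option α => ∀ a, z ∈ D y a).card : ℝ) ≤
      K ^ m := by
    intro y
    rw [← hcardM]
    exact_mod_cast Finset.card_le_univ _
  have hsF : (δ - ε2 * θ / 16) * K ^ m * Fintype.card (Fin p → Option α) ≤
      ∑ y, ((A' y).card : ℝ) := by
    rw [hcardY]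
    show (δ - ε2 * θ / 16) * K ^ m * K ^ p ≤
      ∑ y : Fin p → Option α, ((univ.filter fun z : Fin m → Option α =>
        Sum.elim (lift W z) y ∈ A).card : ℝ)
    rw [step_dc (fun (z : Fin m → Option α) (y : Fin p → Option α) =>
      Sum.elim (lift W z) y ∈ A)]
    calc (δ - ε2 * θ / 16) * K ^ m * K ^ p = ∑ z : Fin m → Option α, (δ - ε) * K ^ p := by
          rw [Finset.sum_const, Finset.card_univ, nsmul_eq_mul, hcardM]
          ring
      _ ≤ _ := Finset.sum_le_sum fun z _ => hfiblow (lift W z)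
  have hsI : θ / 2 * K ^ m * Fintype.card (Fin p → Option α) ≤
      ∑ y, ((univ.filter fun z : Fin m → Option α => ∀ a, z ∈ D y a).card : ℝ) := by
    rw [hcardY]
    rw [step_dc (fun (z : Fin m → Option α) (y : Fin p → Option α) => ∀ a, z ∈ D y a)]
    have h1 := step_none (α := α) m hkm
    calc θ / 2 * K ^ m * K ^ p = K ^ m / 2 * (θ * K ^ p) := by ring
      _ ≤ ((univ.filter fun z : Fin m → Option α => ∃ e, z e = none).card : ℝ) *
          (θ * K ^ p) := mul_le_mul_of_nonneg_right h1 (by positivity)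
      _ = ∑ z ∈ (univ.filter fun z : Fin m → Option α => ∃ e, z e = none), θ * K ^ p := by
          rw [Finset.sum_const, nsmul_eq_mul]
      _ ≤ ∑ z ∈ (univ.filter fun z : Fin m → Option α => ∃ e, z e = none),
          ((univ.filter fun y : Fin p → Option α => ∀ a, z ∈ D y a).card : ℝ) := by
          refine Finset.sum_le_sum fun z hz => ?_
          rw [mem_filter] at hz
          have h2 := hW z hz.2
          rw [Fintype.card_fin] at h2
          have h3 : θ * K ^ p ≤ θ0 * K ^ p := mul_le_mul_of_nonneg_right hθle (by positivity)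
          refine (h3.trans h2).trans (le_of_eq ?_)
          congr 2
          ext y
          simp only [hD, mem_filter, mem_univ, true_and]
      _ ≤ _ := Finset.sum_le_sum_of_subset_of_nonneg (Finset.filter_subset _ _)
          fun z _ _ => Nat.cast_nonneg _
  have : Nonempty (Fin p → Option α) := ⟨fun _ => none⟩
  obtain ⟨y, hy1, hy2⟩ := step_choice
    (fun y : Fin p → Option α =>
      ((univ.filter fun z : Fin m → Option α => ∀ a, z ∈ D y a).card : ℝ))
    (fun y => ((A' y).card : ℝ)) δ θ ε2 (K ^ m) hθ hε20 (by positivity) hI hF hsI hsF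
  obtain ⟨V, hV⟩ := hM m (by omega) (A' y) (D y) hy2 (hIns y) hy1 (by
    intro z hz hza i hi
    obtain ⟨L, hL1, hL2⟩ := step_line W z y ⟨i, hi⟩
    refine hAf ⟨L, fun x => ?_⟩
    rcases x with _ | a
    · rw [hL1]
      rw [hA'] at hz
      exact (mem_filter.mp hz).2
    · rw [hL2]
      have h2 := hza a
      rw [hD] at h2
      exact (mem_filter.mp h2).2)
  have h3 := hd (Fin d) (by rw [Fintype.card_fin]) _ ((hA'free y).pull V)
  rw [Fintype.card_fin] at h3
  exact absurd hV (not_le.mpr h3)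

theorem hj_option {α : Type} [Fintype α] [Nonempty α] (h : HJ α) : HJ (Option α) := by
  classical
  by_contra hcon
  -- the set of the densities for which the statement holds
  set P : ℝ → Prop := fun δ => ∃ N : ℕ, ∀ (ι : Type) [Fintype ι] [DecidableEq ι],
    N ≤ Fintype.card ι → ∀ A : Finset (ι → Option α),
      δ * (Fintype.card (Option α) : ℝ) ^ Fintype.card ι ≤ (A.card : ℝ) →
      ∃ l : Line (Option α) ι, ∀ x, l x ∈ A with hP
  have hcon' : ∃ δ0 : ℝ, 0 < δ0 ∧ ¬ P δ0 := by
    by_contra hc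
    push Not at hc
    exact hcon fun δ hδ => hc δ hδ
  obtain ⟨δ0, hδ0, hPδ0⟩ := hcon'
  have hmono : ∀ a b : ℝ, a ≤ b → P a → P b := by
    rintro a b hab ⟨N, hN⟩
    refine ⟨N, fun ι _ _ hι A hA => hN ι hι A (le_trans ?_ hA)⟩
    exact mul_le_mul_of_nonneg_right hab (by positivity)
  have hbig : ∀ a : ℝ, 1 < a → P a := by
    intro a ha
    refine ⟨0, fun ι _ _ _ A hA => ?_⟩
    exfalso
    have h1 : (A.card : ℝ) ≤ (Fintype.card (Option α) : ℝ) ^ Fintype.card ι := by
      have h2 := Finset.card_le_univ A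
      rw [Fintype.card_fun] at h2
      exact_mod_cast h2
    have h3 : (0 : ℝ) < (Fintype.card (Option α) : ℝ) ^ Fintype.card ι := by
      have : 0 < Fintype.card (Option α) := Fintype.card_pos
      positivity
    nlinarith
  set G : Set ℝ := {a | 0 < a ∧ P a} with hG
  have hGne : G.Nonempty := ⟨2, by norm_num, hbig 2 (by norm_num)⟩
  have hGlow : ∀ a ∈ G, δ0 ≤ a := by
    rintro a ⟨-, ha⟩
    by_contra hlt
    push Not at hlt
    exact hPδ0 (hmono a δ0 hlt.le ha)
  have hGbdd : BddBelow G := ⟨δ0, hGlow⟩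
  set δ : ℝ := sInf G with hδd
  have hδ : 0 < δ := lt_of_lt_of_le hδ0 (le_csInf hGne hGlow)
  have hδ1 : δ ≤ 1 := by
    refine le_of_forall_gt_imp_ge_of_dense fun a ha => ?_
    exact csInf_le hGbdd ⟨by linarith, hbig a ha⟩
  have hKr : (Fintype.card (Option α) : ℝ) = (Fintype.card α : ℝ) + 1 := by
    rw [Fintype.card_option]
    push_cast
    rfl
  refine step_core h δ hδ hδ1 ?_ ?_
  · intro η hη
    obtain ⟨a, ha, haη⟩ := exists_lt_of_csInf_lt hGne (show sInf G < δ + η by linarith)
    obtain ⟨N, hN⟩ := hmono a (δ + η) haη.le ha.2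
    refine ⟨N, fun ι _ _ hι A hA => ?_⟩
    by_contra hlt
    push Not at hlt
    rw [← hKr] at hlt
    exact hA (hN ι hι A hlt)
  · intro η hη hηδ N
    have h1 : ¬ P (δ - η) := by
      intro h2
      have h3 := csInf_le hGbdd (show δ - η ∈ G from ⟨by linarith, h2⟩)
      linarith
    by_contra hc
    push Not at hc
    apply h1
    refine ⟨N, fun ι _ _ hι A hA => ?_⟩
    by_contra hl
    have h4 := hc (Fintype.card ι) hι (trA (Fintype.equivFin ι) A) (free_trA _ hl)
    rw [card_trA, ← hKr] at h4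
    exact absurd hA (not_le.mpr h4)

end Pool.Agent.Lib.DHJ
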