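import Pool.Agent.Lib.DHJ.Main

/-!
# DHJ-Szem: consequences (Szemeredi, multidimensional Szemeredi, sums)

`homothetic`: in a commutative group `G`, let `S` be a finite set of elements (`s : Fin k → G`), `δ > 0`. There is `r` such that for ALL
`x : Fin r → ℤ`... (form used for sieves): for every `A : (Fin r → Fin k) → Prop` of density at least `δ` there are a nonempty
set `α` of indices and a word with the line in `A`; this is just `hj`. Here are the classical consequences.

PROOF of `multi`: `c := s` takes values in `G = Fin d → ℤ`. Let `r` be the number of `hj (Fin k)` for `δ/2`. For `N` large: the cube map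
`f : (Fin r → Fin k) → G`, `f y := ∑ i, s (y i)` has bounded values (`≤ B` in each coordinate). For a translate `t` in the box
`[0,N)^d` count `∑_t |{y | t + f y ∈ A}| = ∑_y |{t ∈ box | t + f y ∈ A}| ≥ k^r (|A| - (number of points of the box near the
boundary)) ≥ k^r (δ/2) N^d` for `N ≥ N0`. So some `t` has `|{y | t + f y ∈ A}| ≥ (δ/2) k^r`, `hj` gives a line
`l` with `V := {i | l.idxFun i = none} ≠ ∅`; `f (l a) = b + |V| • s a`. So `t + b + |V| • s a ∈ A` for all `a`, `1 ≤ |V|`.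
`szemeredi`: `d = 1`, `s a = a`.
-/

set_option autoImplicit false

open Finset Combinatorics

namespace Pool.Agent.Lib.DHJ

/-- a line in the cube is mapped to a homothetic copy -/
private theorem sum_line {d k r : ℕ} (s : Fin (k + 1) → Fin d → ℤ) (l : Line (Fin (k + 1)) (Fin r))
    (a : Fin (k + 1)) :
    ∑ i, s (l a i) = (∑ i, (l.idxFun i).elim 0 s) +
      (((univ.filter fun i => l.idxFun i = none).card : ℕ) : ℤ) • s a := by
  have h : ∀ i, s (l a i) = (l.idxFun i).elim 0 s + (if l.idxFun i = none then s a else 0) := by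
    intro i
    simp only [Line.apply_def]
    rcases l.idxFun i with _ | b
    · simp
    · simp
  rw [sum_congr rfl (fun i _ => h i), sum_add_distrib]
  congr 1
  rw [← sum_filter, sum_const, natCast_zsmul]

/-- **the multidimensional theorem of Szemeredi**, ratio bounded in terms of the density -/
theorem multi (d k : ℕ) (s : Fin (k + 1) → Fin d → ℤ) (δ : ℝ) (hδ : 0 < δ) : ∃ N0 r : ℕ,
    ∀ N : ℕ, N0 ≤ N → ∀ A : Finset (Fin d → ℤ), (∀ x ∈ A, ∀ i, 0 ≤ x i ∧ x i < N) →
      δ * (N : ℝ) ^ d ≤ (A.card : ℝ) →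
      ∃ (t : Fin d → ℤ) (n : ℕ), 1 ≤ n ∧ n ≤ r ∧ ∀ a, (t + (n : ℤ) • s a) ∈ A := by
  classical
  obtain ⟨r, hr⟩ := hj (Fin (k + 1)) (δ / 2) (by positivity)
  set C : ℕ := ∑ a, ∑ i, (s a i).natAbs with hC
  set B : ℕ := r * C with hB
  refine ⟨4 * B * d + 1, r, fun N hN A hbox hcard => ?_⟩
  -- the bound for the cube map
  have hs : ∀ a i, |s a i| ≤ (C : ℤ) := by
    intro a i
    have h1 : (s a i).natAbs ≤ ∑ i, (s a i).natAbs :=
      single_le_sum (f := fun i => (s a i).natAbs) (fun _ _ => Nat.zero_le _) (mem_univ i)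
    have h2 : ∑ i, (s a i).natAbs ≤ C :=
      single_le_sum (f := fun a => ∑ i, (s a i).natAbs) (fun _ _ => Nat.zero_le _) (mem_univ a)
    rw [Int.abs_eq_natAbs]
    exact_mod_cast h1.trans h2
  have hf : ∀ (y : Fin r → Fin (k + 1)) (i : Fin d), |(∑ j, s (y j)) i| ≤ (B : ℤ) := by
    intro y i
    rw [Finset.sum_apply]
    refine (abs_sum_le_sum_abs _ _).trans ?_
    refine (sum_le_sum (fun j _ => hs (y j) i)).trans ?_
    rw [sum_const, card_univ, Fintype.card_fin, hB]
    simp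
  -- the box of the translates
  set T : Finset (Fin d → ℤ) := Fintype.piFinset (fun _ : Fin d => Finset.Ico (-(B : ℤ)) (N + B)) with hT
  have hTcard : (T.card : ℝ) = ((N : ℝ) + 2 * B) ^ d := by
    rw [hT, Fintype.card_piFinset_const, Int.card_Ico]
    have h1 : ((N : ℤ) + B - -(B : ℤ)).toNat = N + 2 * B := by omega
    rw [h1]
    push_cast
    simp
  have hNpos : (0 : ℝ) < N := by
    have : 0 < N := by omega
    exact_mod_cast this
  have hTle : (T.card : ℝ) ≤ 2 * (N : ℝ) ^ d := by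
    rw [hTcard]
    have hM : (0 : ℝ) < (N : ℝ) + 2 * B := by positivity
    have hN' : (4 * B * d + 1 : ℝ) ≤ N := by exact_mod_cast hN
    have hx1 : -2 ≤ -(2 * (B : ℝ) / ((N : ℝ) + 2 * B)) := by
      have : 2 * (B : ℝ) / ((N : ℝ) + 2 * B) ≤ 1 := by
        rw [div_le_one hM]
        linarith
      linarith
    have h1 := one_add_mul_le_pow hx1 d
    have h2 : (1 : ℝ) + -(2 * (B : ℝ) / ((N : ℝ) + 2 * B)) = N / ((N : ℝ) + 2 * B) := by
      field_simp
      ring
    rw [h2, div_pow] at h1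
    have h3 : (1 : ℝ) / 2 ≤ 1 + (d : ℝ) * -(2 * (B : ℝ) / ((N : ℝ) + 2 * B)) := by
      have : (d : ℝ) * (2 * (B : ℝ) / ((N : ℝ) + 2 * B)) ≤ 1 / 2 := by
        rw [← mul_div_assoc, div_le_iff₀ hM]
        have hB0 : (0 : ℝ) ≤ B := by positivity
        nlinarith
      linarith
    have h4 := h3.trans h1
    rw [le_div_iff₀ (by positivity)] at h4
    linarith
  -- double counting
  set Y : (Fin d → ℤ) → Finset (Fin r → Fin (k + 1)) := fun t => univ.filter fun y => t + ∑ j, s (y j) ∈ A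
    with hY
  have hsum : ∑ t ∈ T, ((Y t).card : ℝ) = ((k + 1 : ℕ) : ℝ) ^ r * A.card := by
    have h1 : ∀ t, ((Y t).card : ℝ) = ∑ y : Fin r → Fin (k + 1), if t + ∑ j, s (y j) ∈ A then (1 : ℝ) else 0 := by
      intro t
      rw [hY]
      simp only [card_filter]
      push_cast
      rfl
    rw [sum_congr rfl (fun t _ => h1 t), sum_comm]
    have h2 : ∀ y : Fin r → Fin (k + 1), ∑ t ∈ T, (if t + ∑ j, s (y j) ∈ A then (1 : ℝ) else 0) = A.card := by
      intro y
      rw [← sum_filter, sum_const, nsmul_eq_mul, mul_one]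
      congr 1
      refine card_bij (fun t _ => t + ∑ j, s (y j)) ?_ ?_ ?_
      · intro t ht
        exact (mem_filter.mp ht).2
      · intro t _ t' _ h
        exact add_right_cancel h
      · intro x hx
        refine ⟨x - ∑ j, s (y j), ?_, by simp⟩
        rw [mem_filter, hT, Fintype.mem_piFinset]
        refine ⟨fun i => ?_, by simpa using hx⟩
        rw [mem_Ico, Pi.sub_apply]
        have h3 := abs_le.mp (hf y i)
        have h4 := hbox x hx i
        constructor <;> omega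
    rw [sum_congr rfl (fun y _ => h2 y), sum_const, card_univ, Fintype.card_fun, Fintype.card_fin,
      Fintype.card_fin, nsmul_eq_mul]
    push_cast
    ring
  have hex : ∃ t ∈ T, δ / 2 * ((k + 1 : ℕ) : ℝ) ^ r ≤ ((Y t).card : ℝ) := by
    by_contra hcon
    push Not at hcon
    have hK : (0 : ℝ) < ((k + 1 : ℕ) : ℝ) ^ r := by positivity
    have hAle : ((k + 1 : ℕ) : ℝ) ^ r * (δ * (N : ℝ) ^ d) ≤ ∑ t ∈ T, ((Y t).card : ℝ) := by
      rw [hsum]
      exact mul_le_mul_of_nonneg_left hcard hK.le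
    have hTne : T.Nonempty := by
      rw [← card_pos]
      have : (0 : ℝ) < (T.card : ℝ) := by rw [hTcard]; positivity
      exact_mod_cast this
    have hlt : ∑ t ∈ T, ((Y t).card : ℝ) < ∑ t ∈ T, δ / 2 * ((k + 1 : ℕ) : ℝ) ^ r :=
      sum_lt_sum_of_nonempty hTne hcon
    rw [sum_const, nsmul_eq_mul] at hlt
    have h5 : (T.card : ℝ) * (δ / 2 * ((k + 1 : ℕ) : ℝ) ^ r) ≤
        2 * (N : ℝ) ^ d * (δ / 2 * ((k + 1 : ℕ) : ℝ) ^ r) :=
      mul_le_mul_of_nonneg_right hTle (by positivity)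
    nlinarith
  obtain ⟨t, _, ht⟩ := hex
  obtain ⟨l, hl⟩ := hr (Fin r) (by simp) (Y t) (by simpa using ht)
  refine ⟨t + ∑ i, (l.idxFun i).elim 0 s, (univ.filter fun i => l.idxFun i = none).card, ?_, ?_, ?_⟩
  · obtain ⟨i, hi⟩ := l.proper
    exact card_pos.mpr ⟨i, by simp [hi]⟩
  · exact (card_le_univ _).trans (by simp)
  · intro a
    have h6 := (mem_filter.mp (hl a)).2
    rw [sum_line s l a, ← add_assoc] at h6
    exact h6

/-- **the theorem of Szemeredi** -/
theorem szemeredi (k : ℕ) (δ : ℝ) (hδ : 0 < δ) : ∃ N0 r : ℕ,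
    ∀ N : ℕ, N0 ≤ N → ∀ A : Finset ℕ, A ⊆ range N → δ * (N : ℝ) ≤ (A.card : ℝ) →
      ∃ a n : ℕ, 1 ≤ n ∧ n ≤ r ∧ ∀ j < k, a + j * n ∈ A := by
  classical
  obtain ⟨N0, r, h⟩ := multi 1 k (fun a _ => ((a : ℕ) : ℤ)) δ hδ
  refine ⟨N0, r, fun N hN A hA hcard => ?_⟩
  have hinj : Function.Injective (fun (a : ℕ) (_ : Fin 1) => (a : ℤ)) := by
    intro a b hab
    have h0 : (a : ℤ) = (b : ℤ) := congrFun hab 0
    exact_mod_cast h0
  obtain ⟨t, n, hn1, hnr, ht⟩ := h N hN (A.image fun (a : ℕ) (_ : Fin 1) => (a : ℤ)) (by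
    intro x hx i
    obtain ⟨a, ha, rfl⟩ := mem_image.mp hx
    have h0 : a < N := mem_range.mp (hA ha)
    have h1 : (0 : ℤ) ≤ (a : ℤ) := Int.natCast_nonneg a
    have h2 : (a : ℤ) < (N : ℤ) := by exact_mod_cast h0
    exact ⟨h1, h2⟩) (by
    rw [card_image_of_injective _ hinj, pow_one]
    exact hcard)
  obtain ⟨a0, ha0, hta⟩ := mem_image.mp (ht 0)
  have ht0 : t 0 = (a0 : ℤ) := by
    have := congrFun hta 0
    simpa using this.symm
  refine ⟨a0, n, hn1, hnr, fun j hj => ?_⟩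
  obtain ⟨b, hb, hbe⟩ := mem_image.mp (ht ⟨j, by omega⟩)
  have h1 := congrFun hbe 0
  simp only [Pi.add_apply, Pi.smul_apply, smul_eq_mul, ht0] at h1
  have h2 : b = a0 + j * n := by
    have h3 : (b : ℤ) = ((a0 + j * n : ℕ) : ℤ) := by
      rw [h1]; push_cast; ring
    exact_mod_cast h3
  rw [← h2]
  exact hb

end Pool.Agent.Lib.DHJ
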