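import Pool.Agent.Lib.DHJ.InsSub

/-!
# DHJ-TileOne: an insensitive set is a disjoint union of subspaces up to a small part

PROOF. Let `K := |α| + 1`, `M1` the number of `ins_subspace h d (β/2)`, made `≥ 1`; every dense insensitive set of words
over EXACTLY `M1` letters contains a `d`-dimensional subspace. `c := (β/2) K^(-M1)` (each removal below removes at
least the proportion `c` of all words), `R := ⌈1/c⌉ + 1`, `M := R M1`. Let `|ι| ≥ M`; choose an injection
`j : Fin R × Fin M1 → ι`, blocks `B_t := j(t, ·)`, `I_t :=` union of the blocks `B_s`, `s < t`.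
For a set `I` of coordinates call `E : Finset (ι → Option α)` insensitive outside `I` if `x ∈ E ↔ repOut I a x ∈ E`,
where `repOut I a x i = if i ∈ I then x i else some ((x i).getD a)`.
CLAIM (induction on `t ≤ R`): there is a finite family `𝒱_t` of pairwise disjoint `d`-dimensional subspaces (as sets)
contained in `D` such that the rest `E_t := D \ ⋃ 𝒱_t` is insensitive outside `I_t` and either
`|E_t| ≤ β K^|ι|` or `|⋃ 𝒱_t| ≥ t c K^|ι|`.
`t = 0`: `𝒱_0 = ∅` (for `I = ∅`, `repOut ∅ a = rep a`).
Step: if `|E_t| ≤ β K^|ι|` keep `𝒱` (insensitive outside a smaller set of exceptions implies insensitive outside a larger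
one: apply the equivalence to `x` and to `repOut I' a x`, both have the same `repOut I a`). Otherwise write a word as
`(u, x)`, `x` = the letters in `B_t` (a word indexed by `Fin M1`), `u` = all other letters. The section
`E_(u) := {x : Fin M1 → Option α | (u, x) ∈ E_t}` is `a`-insensitive, and depends only on `repOut I_t a u`.
The proportion of the `u` with `|E_(u)| ≥ (β/2) K^M1` is at least `β/2` (double counting as in Multi). For every
insensitive `F : Finset (Fin M1 → Option α)` with `|F| ≥ (β/2) K^M1` choose (function of `F`!) a subspace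
`U_F : Subspace (Fin d) (Option α) (Fin M1)` with all points in `F`. Add to `𝒱` all sets `{(u, U_F z) : z}` with
`F = E_(u)`, `u` as above (one subspace for each such `u`; different `u` give disjoint sets; they lie in `E_t`, so they
are disjoint from the old ones). They cover at least `(β/2) K^(|ι| - M1) = c K^|ι|` new words (each subspace has at least
one point; number of `u` is `≥ (β/2) K^(|ι|-M1)`). The new rest is insensitive outside `I_(t+1)`: for
`(u, x)` and `(u', x)`, `u' = repOut I_t a u` the section is the same `F`, and `x ∉ U_F` is the same condition.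
At `t = R` the second alternative is impossible as `R c > 1`. So the first holds: `|E_R| ≤ β K^|ι|`, and
`|D| = ∑_{S ∈ 𝒱} |S| + |E_R|`.
TIP: it may be convenient to do the induction over `t` with a general statement on a finite set `I` of used coordinates
and a set `B` of `M1` unused ones (a word `x` outside `B` can be represented by the word itself with the letters in `B`
replaced by `none`), so that no reindexing of `ι` is necessary; the section is then
`{w : Fin M1 → Option α | over x w ∈ E}` with `over x w i = w (j⁻¹ i)` for `i ∈ B` and `x i` otherwise.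
-/

set_option autoImplicit false

open Finset Combinatorics

namespace Pool.Agent.Lib.DHJ

section tile

variable {α ι : Type} {M : ℕ}

/-- the word `x` with the letters at the places `j t` replaced by `w t` -/
noncomputable def tileOver (j : Fin M → ι) (x : ι → Option α) (w : Fin M → Option α) :
    ι → Option α := Function.extend j w x

theorem tileOver_self {j : Fin M → ι} (hj : Function.Injective j) (x : ι → Option α)
    (w : Fin M → Option α) (t : Fin M) : tileOver j x w (j t) = w t :=
  hj.extend_apply _ _ _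

theorem tileOver_not {j : Fin M → ι} (x : ι → Option α) (w : Fin M → Option α) {i : ι}
    (h : ¬ ∃ t, j t = i) : tileOver j x w i = x i :=
  Function.extend_apply' _ _ _ h

theorem tileOver_over {j : Fin M → ι} (hj : Function.Injective j) (x : ι → Option α)
    (w w' : Fin M → Option α) : tileOver j (tileOver j x w) w' = tileOver j x w' := by
  funext i
  by_cases h : ∃ t, j t = i
  · obtain ⟨t, rfl⟩ := h
    rw [tileOver_self hj, tileOver_self hj]
  · rw [tileOver_not _ _ h, tileOver_not _ _ h, tileOver_not _ _ h]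

theorem tileOver_comp {j : Fin M → ι} (hj : Function.Injective j) (x : ι → Option α) :
    tileOver j x (fun t => x (j t)) = x := by
  funext i
  by_cases h : ∃ t, j t = i
  · obtain ⟨t, rfl⟩ := h
    rw [tileOver_self hj]
  · rw [tileOver_not _ _ h]

theorem tileOver_restr {j : Fin M → ι} (hj : Function.Injective j) (x : ι → Option α)
    (w : Fin M → Option α) : (fun t => tileOver j x w (j t)) = w :=
  funext fun t => tileOver_self hj x w t

open Classical in
/-- replace the letter `none` by `some a` outside the set `I` -/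
noncomputable def repOut (I : Set ι) (a : α) (x : ι → Option α) : ι → Option α :=
  fun i => if i ∈ I then x i else some ((x i).getD a)

theorem repOut_in {I : Set ι} {a : α} {x : ι → Option α} {i : ι} (h : i ∈ I) :
    repOut I a x i = x i := by
  unfold repOut
  rw [if_pos h]

theorem repOut_out {I : Set ι} {a : α} {x : ι → Option α} {i : ι} (h : i ∉ I) :
    repOut I a x i = some ((x i).getD a) := by
  unfold repOut
  rw [if_neg h]

/-- `E` does not distinguish between `none` and `some a` outside `I` -/
def InsOut (I : Set ι) (a : α) (E : Finset (ι → Option α)) : Prop :=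
  ∀ x, x ∈ E ↔ repOut I a x ∈ E

theorem repOut_repOut {I J : Set ι} (h : I ⊆ J) (a : α) (x : ι → Option α) :
    repOut I a (repOut J a x) = repOut I a x := by
  funext i
  by_cases h1 : i ∈ I
  · rw [repOut_in h1, repOut_in h1, repOut_in (h h1)]
  · rw [repOut_out h1, repOut_out h1]
    by_cases h2 : i ∈ J
    · rw [repOut_in h2]
    · rw [repOut_out h2, Option.getD_some]

theorem InsOut.mono {I J : Set ι} (h : I ⊆ J) {a : α} {E : Finset (ι → Option α)}
    (hE : InsOut I a E) : InsOut J a E := by
  intro x
  rw [hE x, hE (repOut J a x), repOut_repOut h]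

/-- the subspace over the word `x` -/
theorem tileOver_subspace {d : ℕ} {j : Fin M → ι} (hj : Function.Injective j) (x : ι → Option α)
    (U : Subspace (Fin d) (Option α) (Fin M)) :
    ∃ V : Subspace (Fin d) (Option α) ι, ∀ z, V z = tileOver j x (U z) := by
  refine ⟨⟨Function.extend j U.idxFun (fun i => Sum.inl (x i)), fun e => ?_⟩, fun z => ?_⟩
  · obtain ⟨t, ht⟩ := U.proper e
    exact ⟨j t, by rw [hj.extend_apply, ht]⟩
  · funext i
    rw [Subspace.apply_def]
    by_cases h : ∃ t, j t = i
    · obtain ⟨t, rfl⟩ := h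
      rw [tileOver_self hj, Subspace.apply_def]
      show Sum.elim id z (Function.extend j U.idxFun (fun i => Sum.inl (x i)) (j t)) = _
      rw [hj.extend_apply]
    · rw [tileOver_not _ _ h]
      show Sum.elim id z (Function.extend j U.idxFun (fun i => Sum.inl (x i)) i) = _
      rw [Function.extend_apply' _ _ _ h]
      rfl

variable [Fintype α] [DecidableEq α] [Fintype ι] [DecidableEq ι]

/-- the section of `E` at the word `x` -/
noncomputable def tileSec (j : Fin M → ι) (E : Finset (ι → Option α)) (x : ι → Option α) :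
    Finset (Fin M → Option α) := univ.filter fun w => tileOver j x w ∈ E

theorem mem_tileSec {j : Fin M → ι} {E : Finset (ι → Option α)} {x : ι → Option α}
    {w : Fin M → Option α} : w ∈ tileSec j E x ↔ tileOver j x w ∈ E := by
  unfold tileSec
  rw [mem_filter]
  exact and_iff_right (mem_univ _)

theorem tileSec_over {j : Fin M → ι} (hj : Function.Injective j) (E : Finset (ι → Option α))
    (x : ι → Option α) (w : Fin M → Option α) :
    tileSec j E (tileOver j x w) = tileSec j E x := by
  ext v
  rw [mem_tileSec, mem_tileSec, tileOver_over hj]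

theorem tileSec_ins {j : Fin M → ι} (hj : Function.Injective j) {I : Set ι} (hI : ∀ t, j t ∉ I)
    {a : α} {E : Finset (ι → Option α)} (hE : InsOut I a E) (x : ι → Option α) :
    Ins a (tileSec j E x) := by
  intro w
  rw [mem_tileSec, mem_tileSec, hE (tileOver j x w), hE (tileOver j x (rep a w))]
  have h : repOut I a (tileOver j x w) = repOut I a (tileOver j x (rep a w)) := by
    funext i
    by_cases h : ∃ t, j t = i
    · obtain ⟨t, rfl⟩ := h
      rw [repOut_out (hI t), repOut_out (hI t), tileOver_self hj, tileOver_self hj, rep_apply,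
        Option.getD_some]
    · by_cases h1 : i ∈ I
      · rw [repOut_in h1, repOut_in h1, tileOver_not _ _ h, tileOver_not _ _ h]
      · rw [repOut_out h1, repOut_out h1, tileOver_not _ _ h, tileOver_not _ _ h]
  rw [h]

theorem tileSec_repOut {j : Fin M → ι} (hj : Function.Injective j) {I : Set ι}
    {a : α} {E : Finset (ι → Option α)} (hE : InsOut I a E)
    (x : ι → Option α) : tileSec j E (repOut (I ∪ Set.range j) a x) = tileSec j E x := by
  ext w
  rw [mem_tileSec, mem_tileSec, hE (tileOver j x w), hE (tileOver j _ w)]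
  have h : repOut I a (tileOver j (repOut (I ∪ Set.range j) a x) w) =
      repOut I a (tileOver j x w) := by
    funext i
    by_cases h : ∃ t, j t = i
    · obtain ⟨t, rfl⟩ := h
      by_cases h1 : j t ∈ I
      · rw [repOut_in h1, repOut_in h1, tileOver_self hj, tileOver_self hj]
      · rw [repOut_out h1, repOut_out h1, tileOver_self hj, tileOver_self hj]
    · by_cases h1 : i ∈ I
      · rw [repOut_in h1, repOut_in h1, tileOver_not _ _ h, tileOver_not _ _ h,
          repOut_in (show i ∈ I ∪ Set.range j from Or.inl h1)]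
      · have h2 : i ∉ I ∪ Set.range j := by
          rintro (h3 | h3)
          · exact h1 h3
          · exact h h3
        rw [repOut_out h1, repOut_out h1, tileOver_not _ _ h, tileOver_not _ _ h, repOut_out h2,
          Option.getD_some]
  rw [h]

open Classical in
/-- the points of a chosen subspace in `F` -/
noncomputable def tilePts (d : ℕ) (F : Finset (Fin M → Option α)) : Finset (Fin M → Option α) :=
  if h : ∃ V : Subspace (Fin d) (Option α) (Fin M), ∀ z, V z ∈ F then
    univ.image fun z : Fin d → Option α => (Classical.choose h) z else ∅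

theorem tilePts_sub (d : ℕ) (F : Finset (Fin M → Option α)) : tilePts d F ⊆ F := by
  unfold tilePts
  split_ifs with h
  · intro w hw
    rw [mem_image] at hw
    obtain ⟨z, -, rfl⟩ := hw
    exact Classical.choose_spec h z
  · exact empty_subset _

theorem tilePts_eq {d : ℕ} {F : Finset (Fin M → Option α)}
    (h : ∃ V : Subspace (Fin d) (Option α) (Fin M), ∀ z, V z ∈ F) :
    ∃ V : Subspace (Fin d) (Option α) (Fin M), ∀ w, w ∈ tilePts d F ↔ ∃ z, V z = w := by
  refine ⟨Classical.choose h, fun w => ?_⟩
  unfold tilePts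
  rw [dif_pos h, mem_image]
  exact ⟨fun ⟨z, _, hz⟩ => ⟨z, hz⟩, fun ⟨z, hz⟩ => ⟨z, mem_univ _, hz⟩⟩

/-- the tile at `x` -/
noncomputable def tileSet (j : Fin M → ι) (d : ℕ) (E : Finset (ι → Option α)) (x : ι → Option α) :
    Finset (ι → Option α) := (tilePts d (tileSec j E x)).image fun w => tileOver j x w

theorem mem_tileSet {j : Fin M → ι} (hj : Function.Injective j) {d : ℕ} {E : Finset (ι → Option α)}
    {x y : ι → Option α} (h : y ∈ tileSet j d E x) :
    tileSec j E y = tileSec j E x ∧ (fun t => y (j t)) ∈ tilePts d (tileSec j E y) ∧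
      tileSet j d E y = tileSet j d E x := by
  unfold tileSet at h
  rw [mem_image] at h
  obtain ⟨w, hw, rfl⟩ := h
  have h1 := tileSec_over hj E x w
  refine ⟨h1, ?_, ?_⟩
  · rw [h1, tileOver_restr hj]
    exact hw
  · unfold tileSet
    rw [h1]
    refine image_congr fun v _ => ?_
    exact tileOver_over hj x w v

theorem self_mem_tileSet {j : Fin M → ι} (hj : Function.Injective j) {d : ℕ}
    {E : Finset (ι → Option α)} {y : ι → Option α}
    (h : (fun t => y (j t)) ∈ tilePts d (tileSec j E y)) : y ∈ tileSet j d E y := by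
  unfold tileSet
  rw [mem_image]
  exact ⟨_, h, tileOver_comp hj y⟩

/-- one step of the construction -/
theorem tile_step {d : ℕ} {β : ℝ} (hβ : 0 < β)
    (hM : ∀ (a : α) (F : Finset (Fin M → Option α)), Ins a F →
      β / 2 * ((Fintype.card α : ℝ) + 1) ^ M ≤ (F.card : ℝ) →
      ∃ V : Subspace (Fin d) (Option α) (Fin M), ∀ z, V z ∈ F)
    {j : Fin M → ι} (hj : Function.Injective j) {I : Set ι} (hI : ∀ t, j t ∉ I) {a : α}
    {E : Finset (ι → Option α)} (hE : InsOut I a E)
    (hbig : β * ((Fintype.card α : ℝ) + 1) ^ Fintype.card ι < (E.card : ℝ)) :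
    ∃ 𝒲 : Finset (Finset (ι → Option α)),
      (∀ S ∈ 𝒲, ∃ V : Subspace (Fin d) (Option α) ι, ∀ x, x ∈ S ↔ ∃ z, V z = x) ∧
      (∀ S ∈ 𝒲, S ⊆ E) ∧ (𝒲 : Set (Finset (ι → Option α))).PairwiseDisjoint id ∧
      β / 2 / ((Fintype.card α : ℝ) + 1) ^ M * ((Fintype.card α : ℝ) + 1) ^ Fintype.card ι ≤
        ((𝒲.biUnion id).card : ℝ) ∧ InsOut (I ∪ Set.range j) a (E \ 𝒲.biUnion id) := by
  set K : ℝ := (Fintype.card α : ℝ) + 1 with hK
  have hK0 : 0 < K := by positivity
  have hcard : ∀ (κ : Type) [Fintype κ] [DecidableEq κ],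
      ((univ : Finset (κ → Option α)).card : ℝ) = K ^ Fintype.card κ := by
    intro κ _ _
    rw [card_univ, Fintype.card_fun, Fintype.card_option]
    push_cast
    rfl
  set X : Finset (ι → Option α) :=
    univ.filter fun x => β / 2 * K ^ M ≤ ((tileSec j E x).card : ℝ) with hX
  have hXmem : ∀ x, x ∈ X ↔ β / 2 * K ^ M ≤ ((tileSec j E x).card : ℝ) := by
    intro x
    rw [hX, mem_filter]
    exact and_iff_right (mem_univ _)
  have hXex : ∀ x ∈ X, ∃ V : Subspace (Fin d) (Option α) (Fin M), ∀ z, V z ∈ tileSec j E x :=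
    fun x hx => hM a _ (tileSec_ins hj hI hE x) ((hXmem x).1 hx)
  set 𝒲 : Finset (Finset (ι → Option α)) := X.image fun x => tileSet j d E x with h𝒲
  have hC : ∀ y, y ∈ 𝒲.biUnion id ↔
      y ∈ X ∧ (fun t => y (j t)) ∈ tilePts d (tileSec j E y) := by
    intro y
    rw [mem_biUnion]
    constructor
    · rintro ⟨S, hS, hy⟩
      rw [h𝒲, mem_image] at hS
      obtain ⟨x, hx, rfl⟩ := hS
      obtain ⟨h1, h2, -⟩ := mem_tileSet hj hy
      refine ⟨?_, h2⟩
      rw [hXmem, h1]
      exact (hXmem x).1 hx
    · rintro ⟨h1, h2⟩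
      exact ⟨tileSet j d E y, by rw [h𝒲]; exact mem_image_of_mem _ h1, self_mem_tileSet hj h2⟩
  refine ⟨𝒲, ?_, ?_, ?_, ?_, ?_⟩
  · intro S hS
    rw [h𝒲, mem_image] at hS
    obtain ⟨x, hx, rfl⟩ := hS
    obtain ⟨U, hU⟩ := tilePts_eq (hXex x hx)
    obtain ⟨V, hV⟩ := tileOver_subspace hj x U
    refine ⟨V, fun y => ?_⟩
    unfold tileSet
    rw [mem_image]
    constructor
    · rintro ⟨w, hw, rfl⟩
      obtain ⟨z, rfl⟩ := (hU w).1 hw
      exact ⟨z, hV z⟩
    · rintro ⟨z, rfl⟩
      exact ⟨U z, (hU _).2 ⟨z, rfl⟩, (hV z).symm⟩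
  · intro S hS
    rw [h𝒲, mem_image] at hS
    obtain ⟨x, hx, rfl⟩ := hS
    intro y hy
    unfold tileSet at hy
    rw [mem_image] at hy
    obtain ⟨w, hw, rfl⟩ := hy
    exact mem_tileSec.1 (tilePts_sub d _ hw)
  · intro S hS T hT hST
    rw [Finset.mem_coe, h𝒲, mem_image] at hS hT
    obtain ⟨x, hx, rfl⟩ := hS
    obtain ⟨y, hy, rfl⟩ := hT
    show Disjoint (tileSet j d E x) (tileSet j d E y)
    rw [Finset.disjoint_left]
    intro v hv1 hv2
    exact hST ((mem_tileSet hj hv1).2.2.symm.trans (mem_tileSet hj hv2).2.2)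
  · -- the count
    have hsum : ∑ x : ι → Option α, ((tileSec j E x).card : ℝ) = (E.card : ℝ) * K ^ M := by
      have h1 : ∀ x : ι → Option α, (tileSec j E x).card =
          ∑ w : Fin M → Option α, if tileOver j x w ∈ E then 1 else 0 := by
        intro x
        unfold tileSec
        rw [card_filter]
      have h2 : ∑ x : ι → Option α, (tileSec j E x).card =
          E.card * (univ : Finset (Fin M → Option α)).card := by
        rw [sum_congr rfl fun x _ => h1 x, ← Finset.sum_product', ← card_filter, ← card_product]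
        refine card_bij' (fun p _ => (tileOver j p.1 p.2, fun t => p.1 (j t)))
          (fun p _ => (tileOver j p.1 p.2, fun t => p.1 (j t))) ?_ ?_ ?_ ?_
        · rintro ⟨x, w⟩ h
          rw [mem_filter] at h
          rw [mem_product]
          exact ⟨h.2, mem_univ _⟩
        · rintro ⟨x, w⟩ h
          rw [mem_product] at h
          rw [mem_filter]
          refine ⟨by rw [mem_product]; exact ⟨mem_univ _, mem_univ _⟩, ?_⟩
          show tileOver j (tileOver j x w) (fun t => x (j t)) ∈ E
          rw [tileOver_over hj, tileOver_comp hj]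
          exact h.1
        · rintro ⟨x, w⟩ h
          show (tileOver j (tileOver j x w) (fun t => x (j t)),
            fun t => tileOver j x w (j t)) = (x, w)
          rw [tileOver_over hj, tileOver_comp hj, tileOver_restr hj]
        · rintro ⟨x, w⟩ h
          show (tileOver j (tileOver j x w) (fun t => x (j t)),
            fun t => tileOver j x w (j t)) = (x, w)
          rw [tileOver_over hj, tileOver_comp hj, tileOver_restr hj]
      have h3 : (∑ x : ι → Option α, ((tileSec j E x).card : ℝ)) =
          ((∑ x : ι → Option α, (tileSec j E x).card : ℕ) : ℝ) := by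
        push_cast
        rfl
      rw [h3, h2, Nat.cast_mul, hcard, Fintype.card_fin]
    have hXcard : β / 2 * K ^ Fintype.card ι ≤ (X.card : ℝ) := by
      have h1 : ∑ x : ι → Option α, ((tileSec j E x).card : ℝ) ≤
          ∑ x : ι → Option α, ((if x ∈ X then K ^ M else 0) + β / 2 * K ^ M) := by
        refine sum_le_sum fun x _ => ?_
        by_cases hx : x ∈ X
        · rw [if_pos hx]
          have h2 : ((tileSec j E x).card : ℝ) ≤ K ^ M := by
            have h3 : (tileSec j E x).card ≤ (univ : Finset (Fin M → Option α)).card :=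
              card_le_card (subset_univ _)
            have h4 : ((univ : Finset (Fin M → Option α)).card : ℝ) = K ^ M := by
              rw [hcard, Fintype.card_fin]
            rw [← h4]
            exact_mod_cast h3
          have h7 : 0 ≤ β / 2 * K ^ M := by positivity
          linarith
        · rw [if_neg hx, zero_add]
          have h2 := fun h => hx ((hXmem x).2 h)
          exact (not_le.1 h2).le
      rw [hsum, sum_add_distrib, ← sum_filter, sum_const, sum_const, nsmul_eq_mul, nsmul_eq_mul,
        hcard] at h1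
      have h2 : (univ.filter fun x => x ∈ X) = X := by
        ext x
        simp
      rw [h2] at h1
      have h3 : β * K ^ Fintype.card ι * K ^ M < (E.card : ℝ) * K ^ M :=
        mul_lt_mul_of_pos_right hbig (by positivity)
      have h4 : β / 2 * K ^ Fintype.card ι * K ^ M < (X.card : ℝ) * K ^ M := by
        nlinarith
      exact (lt_of_mul_lt_mul_right h4 (by positivity)).le
    have hXC : (X.card : ℝ) ≤ ((𝒲.biUnion id).card : ℝ) * K ^ M := by
      have h1 : ∀ x ∈ X, ∃ w, w ∈ tilePts d (tileSec j E x) := by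
        intro x hx
        obtain ⟨V, hV⟩ := tilePts_eq (hXex x hx)
        exact ⟨V fun _ => none, (hV _).2 ⟨_, rfl⟩⟩
      choose! w0 hw0 using h1
      have h2 : X.card ≤ (𝒲.biUnion id ×ˢ (univ : Finset (Fin M → Option α))).card := by
        refine card_le_card_of_injOn (fun x => (tileOver j x (w0 x), fun t => x (j t))) ?_ ?_
        · intro x hx
          rw [Finset.mem_coe, mem_product]
          refine ⟨?_, mem_univ _⟩
          rw [mem_biUnion]
          refine ⟨tileSet j d E x, by rw [h𝒲]; exact mem_image_of_mem _ hx, ?_⟩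
          exact mem_image_of_mem _ (hw0 x hx)
        · intro x hx x' hx' hxx
          have e1 : tileOver j x (w0 x) = tileOver j x' (w0 x') := congrArg Prod.fst hxx
          have e2 : (fun t => x (j t)) = fun t => x' (j t) := congrArg Prod.snd hxx
          calc x = tileOver j (tileOver j x (w0 x)) (fun t => x (j t)) := by
                rw [tileOver_over hj, tileOver_comp hj]
            _ = tileOver j (tileOver j x' (w0 x')) (fun t => x' (j t)) := by rw [e1, e2]
            _ = x' := by rw [tileOver_over hj, tileOver_comp hj]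
      rw [card_product] at h2
      have h3 : (X.card : ℝ) ≤ ((𝒲.biUnion id).card : ℝ) *
          ((univ : Finset (Fin M → Option α)).card : ℝ) := by exact_mod_cast h2
      rwa [hcard, Fintype.card_fin] at h3
    have hKM : 0 < K ^ M := by positivity
    rw [div_mul_eq_mul_div, div_le_iff₀ hKM]
    exact hXcard.trans hXC
  · intro y
    have h1 := tileSec_repOut hj hE y
    have h2 : (fun t => repOut (I ∪ Set.range j) a y (j t)) = fun t => y (j t) := by
      funext t
      rw [repOut_in (show j t ∈ I ∪ Set.range j from Or.inr ⟨t, rfl⟩)]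
    have h3 : y ∈ E ↔ repOut (I ∪ Set.range j) a y ∈ E := by
      have h4 : ∀ v : ι → Option α, v ∈ E ↔ (fun t => v (j t)) ∈ tileSec j E v := by
        intro v
        rw [mem_tileSec, tileOver_comp hj]
      rw [h4 y, h4 (repOut _ a y), h1, h2]
    have h5 : y ∈ 𝒲.biUnion id ↔ repOut (I ∪ Set.range j) a y ∈ 𝒲.biUnion id := by
      rw [hC, hC, hXmem, hXmem, h1, h2]
    rw [mem_sdiff, mem_sdiff, h3, h5]

end tile


theorem tile_one {α : Type} [Fintype α] [Nonempty α] (h : MHJ α) (d : ℕ) (β : ℝ) (hβ : 0 < β) :
    ∃ M : ℕ, ∀ (ι : Type) [Fintype ι] [DecidableEq ι], M ≤ Fintype.card ι → ∀ (a : α)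
      (D : Finset (ι → Option α)), Ins a D → Tiled d β D := by
  classical
  obtain ⟨M1, hM1⟩ := ins_subspace h d (β / 2) (half_pos hβ)
  set K : ℝ := (Fintype.card α : ℝ) + 1 with hK
  have hK0 : 0 < K := by positivity
  have hM : ∀ (a : α) (F : Finset (Fin M1 → Option α)), Ins a F →
      β / 2 * K ^ M1 ≤ (F.card : ℝ) →
      ∃ V : Subspace (Fin d) (Option α) (Fin M1), ∀ z, V z ∈ F := by
    intro a F h1 h2
    refine hM1 (Fin M1) (by rw [Fintype.card_fin]) a F h1 ?_
    rw [Fintype.card_fin]
    exact h2
  set c : ℝ := β / 2 / K ^ M1 with hc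
  have hc0 : 0 < c := by positivity
  obtain ⟨R, hR⟩ := exists_nat_gt (1 / c)
  have hRc : 1 < (R : ℝ) * c := by rwa [div_lt_iff₀ hc0] at hR
  refine ⟨R * M1, fun ι _ _ hι a D hD => ?_⟩
  have hcard : ((univ : Finset (ι → Option α)).card : ℝ) = K ^ Fintype.card ι := by
    rw [card_univ, Fintype.card_fun, Fintype.card_option]
    push_cast
    rfl
  have hKn : 0 < K ^ Fintype.card ι := by positivity
  obtain ⟨jj⟩ : Nonempty (Fin R × Fin M1 ↪ ι) :=
    Function.Embedding.nonempty_of_card_le (by simpa using hι)
  have claim : ∀ t : ℕ, t ≤ R → ∃ 𝒱 : Finset (Finset (ι → Option α)),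
      (∀ S ∈ 𝒱, ∃ V : Subspace (Fin d) (Option α) ι, ∀ x, x ∈ S ↔ ∃ z, V z = x) ∧
      (∀ S ∈ 𝒱, S ⊆ D) ∧ (𝒱 : Set (Finset (ι → Option α))).PairwiseDisjoint id ∧
      InsOut {i | ∃ (s : Fin R) (b : Fin M1), (s : ℕ) < t ∧ jj (s, b) = i} a (D \ 𝒱.biUnion id) ∧
      (((D \ 𝒱.biUnion id).card : ℝ) ≤ β * K ^ Fintype.card ι ∨
        (t : ℝ) * c * K ^ Fintype.card ι ≤ ((𝒱.biUnion id).card : ℝ)) := by
    intro t
    induction t with
    | zero =>
      intro _
      refine ⟨∅, by simp, by simp, by simp, ?_, Or.inr (by simp)⟩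
      intro x
      rw [biUnion_empty, sdiff_empty]
      have h1 : repOut {i | ∃ (s : Fin R) (b : Fin M1), (s : ℕ) < 0 ∧ jj (s, b) = i} a x =
          rep a x := by
        funext i
        rw [repOut_out, rep_apply]
        rintro ⟨s, b, hs, -⟩
        exact absurd hs (Nat.not_lt_zero _)
      rw [h1]
      exact hD x
    | succ t ih =>
      intro ht
      obtain ⟨𝒱, hV1, hV2, hV3, hV4, hV5⟩ := ih (Nat.le_of_succ_le ht)
      by_cases hsmall : ((D \ 𝒱.biUnion id).card : ℝ) ≤ β * K ^ Fintype.card ι
      · refine ⟨𝒱, hV1, hV2, hV3, hV4.mono ?_, Or.inl hsmall⟩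
        rintro i ⟨s, b, hs, hi⟩
        exact ⟨s, b, Nat.lt_succ_of_lt hs, hi⟩
      have hV6 := hV5.resolve_left hsmall
      have hj : Function.Injective fun b : Fin M1 => jj (⟨t, ht⟩, b) := by
        intro b b' hb
        have h1 := jj.injective hb
        exact congrArg Prod.snd h1
      obtain ⟨𝒲, hW1, hW2, hW3, hW4, hW5⟩ := tile_step hβ hM hj (I := {i | ∃ (s : Fin R)
        (b : Fin M1), (s : ℕ) < t ∧ jj (s, b) = i}) (by
          rintro b ⟨s, b', hs, he⟩
          have h1 := jj.injective he
          have h2 : s = ⟨t, ht⟩ := congrArg Prod.fst h1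
          rw [h2] at hs
          exact lt_irrefl _ hs) hV4 (not_le.1 hsmall)
      have hdis : Disjoint (𝒱.biUnion id) (𝒲.biUnion id) := by
        rw [Finset.disjoint_left]
        intro x hx hx'
        rw [mem_biUnion] at hx'
        obtain ⟨S, hS, hxS⟩ := hx'
        exact (mem_sdiff.1 (hW2 S hS hxS)).2 hx
      have hun : (𝒱 ∪ 𝒲).biUnion id = 𝒱.biUnion id ∪ 𝒲.biUnion id := union_biUnion
      refine ⟨𝒱 ∪ 𝒲, ?_, ?_, ?_, ?_, Or.inr ?_⟩
      · intro S hS
        rcases mem_union.1 hS with h1 | h1
        · exact hV1 S h1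
        · exact hW1 S h1
      · intro S hS
        rcases mem_union.1 hS with h1 | h1
        · exact hV2 S h1
        · exact (hW2 S h1).trans sdiff_subset
      · have hcross : ∀ S ∈ 𝒱, ∀ T ∈ 𝒲, Disjoint S T := by
          intro S hS T hT
          rw [Finset.disjoint_left]
          intro x hx hx'
          exact (mem_sdiff.1 (hW2 T hT hx')).2 (mem_biUnion.2 ⟨S, hS, hx⟩)
        intro S hS T hT hST
        rw [Finset.mem_coe, mem_union] at hS hT
        show Disjoint S T
        rcases hS with h1 | h1 <;> rcases hT with h2 | h2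
        · exact hV3 h1 h2 hST
        · exact hcross S h1 T h2
        · exact (hcross T h2 S h1).symm
        · exact hW3 h1 h2 hST
      · have hsd : D \ (𝒱 ∪ 𝒲).biUnion id = (D \ 𝒱.biUnion id) \ 𝒲.biUnion id := by
          rw [hun]
          ext x
          simp only [mem_sdiff, mem_union, not_or, and_assoc]
        rw [hsd]
        refine InsOut.mono ?_ hW5
        rintro i (⟨s, b, hs, hi⟩ | ⟨b, hi⟩)
        · exact ⟨s, b, Nat.lt_succ_of_lt hs, hi⟩
        · exact ⟨⟨t, ht⟩, b, Nat.lt_succ_self t, hi⟩
      · rw [hun, card_union_of_disjoint hdis]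
        push_cast
        have h1 : ((t : ℝ) + 1) * c * K ^ Fintype.card ι =
            (t : ℝ) * c * K ^ Fintype.card ι + c * K ^ Fintype.card ι := by ring
        rw [h1]
        exact add_le_add hV6 hW4
  obtain ⟨𝒱, hV1, hV2, hV3, -, hV5⟩ := claim R le_rfl
  have hle : ((𝒱.biUnion id).card : ℝ) ≤ K ^ Fintype.card ι := by
    rw [← hcard]
    exact_mod_cast card_le_card (subset_univ _)
  have hsmall : ((D \ 𝒱.biUnion id).card : ℝ) ≤ β * K ^ Fintype.card ι := by
    refine hV5.resolve_right fun h1 => ?_
    have h2 : 1 * K ^ Fintype.card ι < (R : ℝ) * c * K ^ Fintype.card ι :=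
      mul_lt_mul_of_pos_right hRc hKn
    rw [one_mul] at h2
    exact absurd (h1.trans hle) (not_le.2 h2)
  refine ⟨𝒱, hV1, hV2, hV3, ?_⟩
  have h1 : D.card ≤ (𝒱.biUnion id).card + (D \ 𝒱.biUnion id).card := by
    have h2 : D ⊆ 𝒱.biUnion id ∪ (D \ 𝒱.biUnion id) := by
      intro x hx
      by_cases h3 : x ∈ 𝒱.biUnion id
      · exact mem_union_left _ h3
      · exact mem_union_right _ (mem_sdiff.2 ⟨hx, h3⟩)
    exact (card_le_card h2).trans (card_union_le _ _)
  have h2 : (𝒱.biUnion id).card ≤ ∑ S ∈ 𝒱, S.card := card_biUnion_le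
  have h3 : (D.card : ℝ) ≤ ∑ S ∈ 𝒱, (S.card : ℝ) + ((D \ 𝒱.biUnion id).card : ℝ) := by
    have h4 : D.card ≤ ∑ S ∈ 𝒱, S.card + (D \ 𝒱.biUnion id).card := by omega
    exact_mod_cast h4
  have h5 : (Fintype.card (Option α) : ℝ) = K := by
    rw [Fintype.card_option]
    push_cast
    rfl
  rw [h5]
  linarith

end Pool.Agent.Lib.DHJ
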