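import Mathlib

/-!
# DHJ-Ultra: a minimal idempotent and an idempotent below it in an ideal

Use `attribute [local instance] Ultrafilter.mul Ultrafilter.semigroup` (Mathlib.Combinatorics.Hindman),
`Ultrafilter.eventually_mul`, `Ultrafilter.continuous_mul_left` (`U ↦ U * V` is continuous),
`exists_idempotent_in_compact_subsemigroup`.

PROOF. `X := Ultrafilter T` (compact, Hausdorff). `XS := {U | S ∈ U}`, `XI := {U | I ∈ U}` are closed
(`ultrafilter_isClosed_basic`), `XS` is a subsemigroup, `XI` is a two-sided ideal of `X`, both are not empty (`pure`).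
(1) `zorn_superset_nonempty` or `zorn_superset`: among the closed nonempty `L ⊆ XS` with `U * V ∈ L` for `U ∈ XS`, `V ∈ L`
there is a minimal one (the intersection of a chain is not empty by compactness; `XS` itself is one).
Let `p ∈ L` be idempotent (`L` is a compact subsemigroup).
(2) For `r ∈ L`: `XS * r` (image of the compact `XS` under `U ↦ U * r`) is closed, nonempty, contained in `L`, a left
ideal, so it equals `L`. MINIMALITY of `p`: let `r ∈ XS`, `r * r = r`, `r * p = r`, `p * r = r`. Then `r = r * p ∈ L`,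
so `p = u * r` for some `u ∈ XS`, so `p * r = u * r * r = u * r = p`, and `p * r = r`: `r = p`.
(3) `XI * p` (image of `XI` under `U ↦ U * p`) is compact, nonempty and a subsemigroup (`(x p) (y p) = (x p y) p` and
`x p y ∈ XI`), so it contains an idempotent `e = x * p`, `e * p = e`. `q := p * e`: `q * q = p e p e = p e e = q`,
`p * q = q`, `q * p = p e p = p e = q`, `q ∈ XI`.
(4) `r := q.map (φ a)`: `Ultrafilter.map` of a homomorphism is multiplicative (ext with `eventually_mul`), `p.map (φ a) = p`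
since `φ a` is the identity on `S ∈ p`, so `r * r = r`, `r * p = r`, `p * r = r`, `r ∈ XS`; by (2) `r = p`.
The five statements about `∀ᶠ` are `p * p = p`, `q * q = q`, `p * q = q`, `q * p = q`, `q.map (φ a) = p`.
-/

set_option autoImplicit false

open Filter

namespace Pool.Agent.Lib.DHJ

attribute [local instance] Ultrafilter.mul Ultrafilter.semigroup

private theorem Ultra_map_mul {T : Type} [Semigroup T] (f : T →ₙ* T) (U V : Ultrafilter T) :
    (U * V).map f = U.map f * V.map f := by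
  refine Ultrafilter.coe_inj.mp (Filter.ext' fun P => ?_)
  rw [Ultrafilter.coe_map, Filter.eventually_map, Ultrafilter.eventually_mul,
    Ultrafilter.eventually_mul]
  simp only [Ultrafilter.coe_map, Filter.eventually_map, map_mul]

/-- a minimal idempotent of a closed subsemigroup -/
private theorem Ultra_min {T : Type} [Semigroup T] (X : Set (Ultrafilter T)) (hX : IsClosed X)
    (hn : X.Nonempty) (hm : ∀ U ∈ X, ∀ V ∈ X, U * V ∈ X) :
    ∃ p ∈ X, p * p = p ∧ ∀ r ∈ X, r * r = r → r * p = r → p * r = r → r = p := by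
  obtain ⟨L, -, hL⟩ := zorn_superset_nonempty
    {L : Set (Ultrafilter T) | IsClosed L ∧ L.Nonempty ∧ L ⊆ X ∧ ∀ U ∈ X, ∀ V ∈ L, U * V ∈ L}
    (by
      intro c hc hch hcn
      refine ⟨⋂₀ c, ⟨isClosed_sInter fun s hs => (hc hs).1, ?_, ?_, ?_⟩,
        fun s hs => Set.sInter_subset_of_mem hs⟩
      · have : Nonempty c := hcn.coe_sort
        refine IsCompact.nonempty_sInter_of_directed_nonempty_isCompact_isClosed ?_
          (fun s hs => (hc hs).2.1) (fun s hs => (hc hs).1.isCompact) (fun s hs => (hc hs).1)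
        intro a ha b hb
        rcases hch.total ha hb with h | h
        · exact ⟨a, ha, subset_rfl, h⟩
        · exact ⟨b, hb, h, subset_rfl⟩
      · obtain ⟨s, hs⟩ := hcn
        exact (Set.sInter_subset_of_mem hs).trans (hc hs).2.2.1
      · intro U hU V hV
        rw [Set.mem_sInter] at hV ⊢
        exact fun s hs => (hc hs).2.2.2 U hU V (hV s hs))
    X ⟨hX, hn, subset_rfl, hm⟩
  obtain ⟨hLc, hLn, hLX, hLm⟩ := hL.prop
  have h2 : ∀ r ∈ L, ∀ v ∈ L, ∃ u ∈ X, u * r = v := by
    intro r hr v hv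
    have h3 := hL.2 (y := (fun U => U * r) '' X) ⟨?_, ?_, ?_, ?_⟩ ?_ hv
    · exact h3
    · exact (hX.isCompact.image (Ultrafilter.continuous_mul_left r)).isClosed
    · exact hn.image _
    · rintro _ ⟨U, hU, rfl⟩
      exact hm U hU r (hLX hr)
    · rintro U hU _ ⟨V, hV, rfl⟩
      exact ⟨U * V, hm U hU V hV, mul_assoc U V r⟩
    · rintro _ ⟨U, hU, rfl⟩
      exact hLm U hU r hr
  obtain ⟨p, hp, hpp⟩ := exists_idempotent_in_compact_subsemigroup
    Ultrafilter.continuous_mul_left L hLn hLc.isCompact (fun x hx y hy => hLm x (hLX hx) y hy)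
  refine ⟨p, hLX hp, hpp, fun r hr hrr hrp hpr => ?_⟩
  have hrL : r ∈ L := by
    rw [← hrp]
    exact hLm r hr p hp
  obtain ⟨u, -, hu⟩ := h2 r hrL p hp
  rw [← hpr, ← hu, mul_assoc, hrr]

theorem exists_pair {T α : Type} [Semigroup T] (S I : Set T)
    (hS : ∀ x ∈ S, ∀ y ∈ S, x * y ∈ S) (hSn : S.Nonempty)
    (hI : ∀ x ∈ I, ∀ y, x * y ∈ I ∧ y * x ∈ I) (hIn : I.Nonempty)
    (φ : α → T →ₙ* T) (hφ : ∀ a x, φ a x ∈ S) (hid : ∀ a, ∀ x ∈ S, φ a x = x) :
    ∃ p q : Ultrafilter T, (∀ᶠ x in (p : Filter T), x ∈ S) ∧ (∀ᶠ x in (q : Filter T), x ∈ I) ∧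
      (∀ P : T → Prop, (∀ᶠ x in (p : Filter T), P x) →
        ∀ᶠ x in (p : Filter T), ∀ᶠ y in (p : Filter T), P (x * y)) ∧
      (∀ P : T → Prop, (∀ᶠ x in (q : Filter T), P x) →
        ∀ᶠ x in (q : Filter T), ∀ᶠ y in (q : Filter T), P (x * y)) ∧
      (∀ P : T → Prop, (∀ᶠ x in (q : Filter T), P x) →
        ∀ᶠ x in (p : Filter T), ∀ᶠ y in (q : Filter T), P (x * y)) ∧
      (∀ P : T → Prop, (∀ᶠ x in (q : Filter T), P x) →
        ∀ᶠ x in (q : Filter T), ∀ᶠ y in (p : Filter T), P (x * y)) ∧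
      (∀ (a : α) (P : T → Prop), (∀ᶠ x in (p : Filter T), P x) →
        ∀ᶠ x in (q : Filter T), P (φ a x)) := by
  obtain ⟨XS, hXS⟩ : ∃ XS : Set (Ultrafilter T), XS = {U | S ∈ U} := ⟨_, rfl⟩
  obtain ⟨XI, hXI⟩ : ∃ XI : Set (Ultrafilter T), XI = {U | I ∈ U} := ⟨_, rfl⟩
  have mS : ∀ U : Ultrafilter T, U ∈ XS ↔ ∀ᶠ x in (U : Filter T), x ∈ S := by
    intro U
    rw [hXS]
    exact Iff.rfl
  have mI : ∀ U : Ultrafilter T, U ∈ XI ↔ ∀ᶠ x in (U : Filter T), x ∈ I := by
    intro U
    rw [hXI]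
    exact Iff.rfl
  have cS : IsClosed XS := by
    rw [hXS]
    exact ultrafilter_isClosed_basic S
  have cI : IsClosed XI := by
    rw [hXI]
    exact ultrafilter_isClosed_basic I
  have nS : XS.Nonempty := by
    obtain ⟨x, hx⟩ := hSn
    exact ⟨pure x, (mS _).2 hx⟩
  have nI : XI.Nonempty := by
    obtain ⟨x, hx⟩ := hIn
    exact ⟨pure x, (mI _).2 hx⟩
  have mulS : ∀ U ∈ XS, ∀ V ∈ XS, U * V ∈ XS := by
    intro U hU V hV
    rw [mS] at hU hV ⊢
    rw [Ultrafilter.eventually_mul]
    exact hU.mono fun x hx => hV.mono fun y hy => hS x hx y hy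
  have mulI : ∀ U ∈ XI, ∀ V, U * V ∈ XI ∧ V * U ∈ XI := by
    intro U hU V
    rw [mI] at hU
    rw [mI, mI, Ultrafilter.eventually_mul, Ultrafilter.eventually_mul]
    exact ⟨hU.mono fun x hx => Eventually.of_forall fun y => (hI x hx y).1,
      Eventually.of_forall fun x => hU.mono fun y hy => (hI y hy x).2⟩
  obtain ⟨p, hp, hpp, hmin⟩ := Ultra_min XS cS nS mulS
  obtain ⟨e, ⟨x, hx, hxe⟩, hee⟩ := exists_idempotent_in_compact_subsemigroup
    Ultrafilter.continuous_mul_left ((fun U => U * p) '' XI) (nI.image _)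
    (cI.isCompact.image (Ultrafilter.continuous_mul_left p)) (by
      rintro _ ⟨U, hU, rfl⟩ _ ⟨V, hV, rfl⟩
      refine ⟨U * p * V, (mulI _ (mulI U hU p).1 V).1, ?_⟩
      exact mul_assoc (U * p) V p)
  have hep : e * p = e := by
    rw [← hxe]
    show x * p * p = x * p
    rw [mul_assoc, hpp]
  have heI : e ∈ XI := by
    rw [← hxe]
    exact (mulI x hx p).1
  have hqq : p * e * (p * e) = p * e := by
    rw [← mul_assoc, mul_assoc p e p, hep, mul_assoc, hee]
  have hpq : p * (p * e) = p * e := by rw [← mul_assoc, hpp]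
  have hqp : p * e * p = p * e := by rw [mul_assoc, hep]
  refine ⟨p, p * e, (mS p).1 hp, (mI _).1 (mulI e heI p).2, ?_, ?_, ?_, ?_, ?_⟩
  · intro P hP
    rw [← Ultrafilter.eventually_mul, hpp]
    exact hP
  · intro P hP
    rw [← Ultrafilter.eventually_mul, hqq]
    exact hP
  · intro P hP
    rw [← Ultrafilter.eventually_mul, hpq]
    exact hP
  · intro P hP
    rw [← Ultrafilter.eventually_mul, hqp]
    exact hP
  · intro a P hP
    have hpm : p.map (φ a) = p := by
      refine Ultrafilter.coe_inj.mp (Filter.ext' fun Q => ?_)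
      rw [Ultrafilter.coe_map, Filter.eventually_map]
      exact Filter.eventually_congr (((mS p).1 hp).mono fun y hy => by rw [hid a y hy])
    have hr : (p * e).map (φ a) = p := by
      refine hmin _ ?_ ?_ ?_ ?_
      · rw [mS, Ultrafilter.coe_map, Filter.eventually_map]
        exact Eventually.of_forall fun y => hφ a y
      · rw [← Ultra_map_mul, hqq]
      · nth_rewrite 2 [← hpm]
        rw [← Ultra_map_mul, hqp]
      · nth_rewrite 1 [← hpm]
        rw [← Ultra_map_mul, hpq]
    rw [← hr, Ultrafilter.coe_map, Filter.eventually_map] at hP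
    exact hP

end Pool.Agent.Lib.DHJ
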